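import Mathlib

set_option autoImplicit false

/-! # Sums of periodic functions over boxes -/

namespace Pool.Agent.R361.QF

open Finset

/-- the interval `[-Y, Y]` -/
noncomputable def iv (Y : ℕ) : Finset ℤ := Ioc (-(Y : ℤ) - 1) Y

/-- the box -/
noncomputable def box (Y : ℕ) : Finset (ℤ × ℤ) := iv Y ×ˢ iv Y

lemma mem_iv (Y : ℕ) (a : ℤ) : a ∈ iv Y ↔ |a| ≤ Y := by
  rw [iv, mem_Ioc, abs_le]
  constructor
  · rintro ⟨h1, h2⟩; constructor <;> omega
  · rintro ⟨h1, h2⟩; constructor <;> omega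

/-- the number of elements of `[-Y, Y]` in a residue class -/
lemma iv_count (L : ℕ) (hL : 0 < L) (Y : ℕ) (x : ZMod L) :
    |(#((iv Y).filter (fun a : ℤ => (a : ZMod L) = x)) : ℝ) - (2 * Y + 1) / L| ≤ 1 := by
  have : NeZero L := ⟨hL.ne'⟩
  have hL' : (0 : ℤ) < L := by exact_mod_cast hL
  have h1 : (iv Y).filter (fun a : ℤ => (a : ZMod L) = x) =
      (Ioc (-(Y : ℤ) - 1) Y).filter (fun a => a ≡ (x.val : ℤ) [ZMOD L]) := by
    apply filter_congr
    intro a _
    rw [← ZMod.intCast_eq_intCast_iff]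
    simp
  have h2 := Int.Ioc_filter_modEq_card (-(Y : ℤ) - 1) Y hL' (x.val : ℤ)
  rw [← h1] at h2
  set c := #((iv Y).filter (fun a : ℤ => (a : ZMod L) = x)) with hc
  set u : ℚ := ((Y : ℤ) - (x.val : ℤ)) / ((L : ℤ) : ℚ) with hu
  set v : ℚ := (((-(Y : ℤ) - 1 : ℤ) : ℚ) - (x.val : ℤ)) / ((L : ℤ) : ℚ) with hv
  have hLq : (0 : ℚ) < L := by exact_mod_cast hL
  have huv : u - v = (2 * Y + 1) / L := by
    rw [hu, hv]
    push_cast
    field_simp
    ring
  have h3 := Int.floor_le u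
  have h4 := Int.lt_floor_add_one u
  have h5 := Int.floor_le v
  have h6 := Int.lt_floor_add_one v
  have hpos : (0 : ℚ) < (2 * Y + 1) / L := by positivity
  have hge : 0 ≤ ⌊u⌋ - ⌊v⌋ := by
    have : ⌊v⌋ ≤ ⌊u⌋ := Int.floor_le_floor (by linarith)
    linarith
  rw [max_eq_left hge] at h2
  have h7 : (c : ℚ) = (⌊u⌋ : ℚ) - ⌊v⌋ := by exact_mod_cast h2
  have h8 : |(c : ℚ) - (2 * Y + 1) / L| ≤ 1 := by
    rw [h7, ← huv, abs_le]
    constructor <;> linarith
  have h9 : ((|(c : ℚ) - (2 * Y + 1) / L| : ℚ) : ℝ) ≤ ((1 : ℚ) : ℝ) := by exact_mod_cast h8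
  push_cast at h9
  exact h9

theorem box_sum (L : ℕ) [NeZero L] (Y : ℕ) (hL : L ≤ 2 * Y + 1) (F : ZMod L × ZMod L → ℂ)
    (hF : ∀ x, ‖F x‖ ≤ 1) :
    ‖∑ z ∈ box Y, F (z.1, z.2) - (((2 * Y + 1 : ℝ) / L) ^ 2 : ℝ) * ∑ x, F x‖ ≤
      3 * (2 * Y + 1) * L := by
  have hL0 : 0 < L := Nat.pos_of_ne_zero (NeZero.ne L)
  have hL0' : (0 : ℝ) < L := by exact_mod_cast hL0
  set c : ZMod L → ℝ := fun x => (#((iv Y).filter (fun a : ℤ => (a : ZMod L) = x)) : ℝ) with hc
  have hcount : ∀ x, |c x - (2 * Y + 1) / L| ≤ 1 := fun x => iv_count L hL0 Y x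
  have h1 : ∑ z ∈ box Y, F (z.1, z.2) = ∑ x : ZMod L × ZMod L, ((c x.1 * c x.2 : ℝ) : ℂ) * F x := by
    rw [← sum_fiberwise (box Y) (fun z => ((z.1 : ZMod L), (z.2 : ZMod L)))]
    apply sum_congr rfl
    intro x _
    have h2 : ∀ z ∈ (box Y).filter (fun z => ((z.1 : ZMod L), (z.2 : ZMod L)) = x),
        F (z.1, z.2) = F x := by
      intro z hz
      rw [mem_filter] at hz
      rw [hz.2]
    rw [sum_congr rfl h2, sum_const, nsmul_eq_mul]
    congr 1
    have h3 : (box Y).filter (fun z => ((z.1 : ZMod L), (z.2 : ZMod L)) = x) =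
        ((iv Y).filter (fun a : ℤ => (a : ZMod L) = x.1)) ×ˢ
        ((iv Y).filter (fun a : ℤ => (a : ZMod L) = x.2)) := by
      ext z
      simp only [box, mem_filter, mem_product, Prod.ext_iff]
      tauto
    rw [h3, card_product]
    simp only [hc]
    push_cast
    rfl
  set M : ℝ := 2 * Y + 1 with hM
  have hM0 : 0 < M := by positivity
  have hLM : (L : ℝ) ≤ M := by
    rw [hM]; exact_mod_cast hL
  rw [h1, mul_sum, ← sum_sub_distrib]
  have h4 : ∀ x ∈ (univ : Finset (ZMod L × ZMod L)),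
      ‖((c x.1 * c x.2 : ℝ) : ℂ) * F x - (((M / L) ^ 2 : ℝ) : ℂ) * F x‖ ≤ 2 * M / L + 1 := by
    intro x _
    rw [← sub_mul, ← Complex.ofReal_sub, norm_mul, Complex.norm_real, Real.norm_eq_abs]
    have h5 : |c x.1 * c x.2 - (M / L) ^ 2| ≤ 2 * M / L + 1 := by
      have e1 := hcount x.1
      have e2 := hcount x.2
      have h6 : c x.1 * c x.2 - (M / L) ^ 2 = (M / L) * (c x.2 - M / L) +
          (M / L) * (c x.1 - M / L) + (c x.1 - M / L) * (c x.2 - M / L) := by ring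
      rw [h6]
      have hML : 0 ≤ M / L := by positivity
      calc |(M / L) * (c x.2 - M / L) + (M / L) * (c x.1 - M / L) +
            (c x.1 - M / L) * (c x.2 - M / L)|
          ≤ |(M / L) * (c x.2 - M / L) + (M / L) * (c x.1 - M / L)| +
            |(c x.1 - M / L) * (c x.2 - M / L)| := abs_add_le _ _
        _ ≤ (|(M / L) * (c x.2 - M / L)| + |(M / L) * (c x.1 - M / L)|) +
            |(c x.1 - M / L) * (c x.2 - M / L)| := by
            gcongr
            exact abs_add_le _ _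
        _ ≤ (M / L * 1 + M / L * 1) + 1 * 1 := by
            rw [abs_mul, abs_mul, abs_mul, abs_of_nonneg hML]
            gcongr
        _ = 2 * M / L + 1 := by ring
    calc |c x.1 * c x.2 - (M / L) ^ 2| * ‖F x‖ ≤ (2 * M / L + 1) * 1 :=
          mul_le_mul h5 (hF x) (norm_nonneg _) (by positivity)
      _ = _ := mul_one _
  refine (norm_sum_le _ _).trans ((sum_le_sum h4).trans ?_)
  rw [sum_const, nsmul_eq_mul, card_univ, Fintype.card_prod, ZMod.card]
  push_cast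
  have h5 : (L : ℝ) * L * (2 * M / L + 1) = 2 * M * L + L * L := by field_simp
  rw [h5]
  nlinarith

end Pool.Agent.R361.QF
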