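import Mathlib
import Pool.Agent.R361.QF.Box

set_option autoImplicit false

/-! # Complete sums for quadratic orders -/

namespace Pool.Agent.R361.QF

open Finset

variable {A B : ℤ}

/-- periodic modulo `L` -/
def Per (L : ℕ) (f : QuadraticAlgebra ℤ A B → ℂ) : Prop :=
  ∀ α β, (L : ℤ) ∣ α.re - β.re → (L : ℤ) ∣ α.im - β.im → f α = f β

/-- the lift of a residue class -/
def lft (A B : ℤ) {L : ℕ} (x : ZMod L × ZMod L) : QuadraticAlgebra ℤ A B :=
  ⟨(x.1.val : ℤ), (x.2.val : ℤ)⟩

/-- the complete sum -/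
noncomputable def comp (L : ℕ) [NeZero L] (f : QuadraticAlgebra ℤ A B → ℂ) : ℂ :=
  ∑ x : ZMod L × ZMod L, f (lft A B x)

lemma norm_eq (α : QuadraticAlgebra ℤ A B) :
    α.norm = α.re ^ 2 + B * α.re * α.im - A * α.im ^ 2 := by
  rw [QuadraticAlgebra.norm_def]; ring

theorem box_comp (L : ℕ) [NeZero L] (Y : ℕ) (hL : L ≤ 2 * Y + 1)
    (f : QuadraticAlgebra ℤ A B → ℂ) (hf : Per L f) (hb : ∀ α, ‖f α‖ ≤ 1) :
    ‖∑ z ∈ box Y, f ⟨z.1, z.2⟩ - (((2 * Y + 1 : ℝ) / L) ^ 2 : ℝ) * comp L f‖ ≤
      3 * (2 * Y + 1) * L := by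
  have h := box_sum L Y hL (fun x => f (lft A B x)) (fun x => hb _)
  have h1 : ∑ z ∈ box Y, f ⟨z.1, z.2⟩ =
      ∑ z ∈ box Y, f (lft A B ((z.1 : ZMod L), (z.2 : ZMod L))) := by
    apply sum_congr rfl
    intro z _
    apply hf
    · simp only [lft]
      rw [← ZMod.intCast_zmod_eq_zero_iff_dvd]
      simp
    · simp only [lft]
      rw [← ZMod.intCast_zmod_eq_zero_iff_dvd]
      simp
  rw [h1]
  exact h

theorem comp_zero (L : ℕ) [NeZero L] (f : QuadraticAlgebra ℤ A B → ℂ) (hf : Per L f)
    (β : QuadraticAlgebra ℤ A B) (hβ : IsCoprime β.norm (L : ℤ)) (c : ℂ) (hc : c ≠ 1)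
    (hfb : ∀ α, f (β * α) = c * f α) : comp L f = 0 := by
  set T : ZMod L × ZMod L → ZMod L × ZMod L := fun x =>
    (((β * lft A B x).re : ZMod L), ((β * lft A B x).im : ZMod L)) with hT
  have hinj : Function.Injective T := by
    intro x y hxy
    simp only [hT, Prod.mk.injEq] at hxy
    obtain ⟨h1, h2⟩ := hxy
    set γ : QuadraticAlgebra ℤ A B := lft A B x - lft A B y with hγ
    have e1 : (L : ℤ) ∣ (β * γ).re := by
      rw [← ZMod.intCast_zmod_eq_zero_iff_dvd, hγ, mul_sub, QuadraticAlgebra.re_sub]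
      push_cast
      rw [h1, sub_self]
    have e2 : (L : ℤ) ∣ (β * γ).im := by
      rw [← ZMod.intCast_zmod_eq_zero_iff_dvd, hγ, mul_sub, QuadraticAlgebra.im_sub]
      push_cast
      rw [h2, sub_self]
    have e3 : (algebraMap ℤ (QuadraticAlgebra ℤ A B) (L : ℤ)) ∣ β * γ :=
      QuadraticAlgebra.algebraMap_dvd_iff.mpr ⟨e1, e2⟩
    have e4 : (algebraMap ℤ (QuadraticAlgebra ℤ A B) (L : ℤ)) ∣
        algebraMap ℤ (QuadraticAlgebra ℤ A B) β.norm * γ := by
      rw [QuadraticAlgebra.algebraMap_norm_eq_mul_star, mul_comm β, mul_assoc]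
      exact Dvd.dvd.mul_left e3 _
    have e5 : (L : ℤ) ∣ γ.re ∧ (L : ℤ) ∣ γ.im := by
      rw [QuadraticAlgebra.algebraMap_dvd_iff] at e4
      have g1 : (algebraMap ℤ (QuadraticAlgebra ℤ A B) β.norm * γ).re = β.norm * γ.re := by
        rw [QuadraticAlgebra.re_mul]; simp
      have g2 : (algebraMap ℤ (QuadraticAlgebra ℤ A B) β.norm * γ).im = β.norm * γ.im := by
        rw [QuadraticAlgebra.im_mul]; simp
      rw [g1, g2] at e4
      exact ⟨hβ.symm.dvd_of_dvd_mul_left e4.1, hβ.symm.dvd_of_dvd_mul_left e4.2⟩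
    have h3 : x.1 = y.1 := by
      have := e5.1
      rw [← ZMod.intCast_zmod_eq_zero_iff_dvd, hγ, QuadraticAlgebra.re_sub] at this
      simp only [lft] at this
      push_cast at this
      simpa [sub_eq_zero] using this
    have h4 : x.2 = y.2 := by
      have := e5.2
      rw [← ZMod.intCast_zmod_eq_zero_iff_dvd, hγ, QuadraticAlgebra.im_sub] at this
      simp only [lft] at this
      push_cast at this
      simpa [sub_eq_zero] using this
    exact Prod.ext h3 h4
  have hbij : Function.Bijective T := Finite.injective_iff_bijective.mp hinj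
  have h1 : comp L f = c * comp L f := by
    unfold comp
    conv_lhs => rw [← Function.Bijective.sum_comp hbij (fun x => f (lft A B x))]
    rw [mul_sum]
    apply sum_congr rfl
    intro x _
    rw [← hfb]
    apply hf
    · simp only [hT]
      rw [← ZMod.intCast_zmod_eq_zero_iff_dvd]
      simp [lft]
    · simp only [hT]
      rw [← ZMod.intCast_zmod_eq_zero_iff_dvd]
      simp [lft]
  have h2 : (1 - c) * comp L f = 0 := by rw [sub_mul, one_mul, ← h1, sub_self]
  rcases mul_eq_zero.mp h2 with h3 | h3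
  · exact absurd (sub_eq_zero.mp h3).symm hc
  · exact h3

/-! ### the number of zeros of the norm form -/

open Classical in
/-- the number of zeros of the norm form modulo `L` -/
noncomputable def zer (A B : ℤ) (L : ℕ) [NeZero L] : ℕ :=
  #((univ : Finset (ZMod L × ZMod L)).filter
    (fun x => x.1 ^ 2 + (B : ZMod L) * x.1 * x.2 - (A : ZMod L) * x.2 ^ 2 = 0))

open Classical in
lemma comp_dvd (L : ℕ) [NeZero L] :
    comp L (fun α : QuadraticAlgebra ℤ A B => if (L : ℤ) ∣ α.norm then (1 : ℂ) else 0) =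
      zer A B L := by
  unfold comp zer
  rw [sum_ite, sum_const_zero, add_zero, sum_const, nsmul_eq_mul, mul_one]
  congr 2
  ext x
  simp only [mem_filter, mem_univ, true_and]
  rw [← ZMod.intCast_zmod_eq_zero_iff_dvd, norm_eq]
  simp only [lft]
  push_cast
  simp

lemma zer_one : zer A B 1 = 1 := by
  classical
  unfold zer
  have : (univ : Finset (ZMod 1 × ZMod 1)).filter
    (fun x => x.1 ^ 2 + (B : ZMod 1) * x.1 * x.2 - (A : ZMod 1) * x.2 ^ 2 = 0) = univ := by
    apply filter_true_of_mem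
    intro x _
    exact Subsingleton.elim _ _
  rw [this, card_univ]
  simp

lemma zer_mul (m n : ℕ) [NeZero m] [NeZero n] [NeZero (m * n)] (h : m.Coprime n) :
    zer A B (m * n) = zer A B m * zer A B n := by
  classical
  unfold zer
  rw [← card_product]
  set e := ZMod.chineseRemainder h with he
  apply card_bij' (i := fun x _ => (((e x.1).1, (e x.2).1), ((e x.1).2, (e x.2).2)))
    (j := fun y _ => (e.symm (y.1.1, y.2.1), e.symm (y.1.2, y.2.2)))
  · intro x hx
    rw [mem_filter] at hx
    have h1 := hx.2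
    have h2 : e (x.1 ^ 2 + (B : ZMod (m * n)) * x.1 * x.2 - (A : ZMod (m * n)) * x.2 ^ 2) = 0 := by
      rw [h1, map_zero]
    simp only [map_sub, map_add, map_mul, map_pow, map_intCast] at h2
    rw [Prod.ext_iff] at h2
    rw [mem_product, mem_filter, mem_filter]
    exact ⟨⟨mem_univ _, h2.1⟩, ⟨mem_univ _, h2.2⟩⟩
  · intro y hy
    rw [mem_product, mem_filter, mem_filter] at hy
    rw [mem_filter]
    refine ⟨mem_univ _, ?_⟩
    apply e.injective
    simp only [map_sub, map_add, map_mul, map_pow, map_intCast, RingEquiv.apply_symm_apply,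
      map_zero]
    exact Prod.ext hy.1.2 hy.2.2
  · intro x _
    simp
  · intro y _
    simp

lemma zer_prime (l : ℕ) [hl : Fact l.Prime] (r s : ZMod l) (hrs : r ≠ s)
    (h1 : r + s = (B : ZMod l)) (h2 : r * s = -(A : ZMod l)) : zer A B l = 2 * l - 1 := by
  classical
  unfold zer
  have h3 : ∀ x : ZMod l × ZMod l, x.1 ^ 2 + (B : ZMod l) * x.1 * x.2 - (A : ZMod l) * x.2 ^ 2 =
      (x.1 + r * x.2) * (x.1 + s * x.2) := by
    intro x
    rw [← h1]
    linear_combination (-x.2 ^ 2) * h2
  have h4 : (univ : Finset (ZMod l × ZMod l)).filter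
      (fun x => x.1 ^ 2 + (B : ZMod l) * x.1 * x.2 - (A : ZMod l) * x.2 ^ 2 = 0) =
      (univ : Finset (ZMod l)).image (fun y => (-r * y, y)) ∪
      ((univ : Finset (ZMod l)).erase 0).image (fun y => (-s * y, y)) := by
    ext x
    simp only [mem_filter, mem_univ, true_and, mem_union, mem_image, mem_erase, and_true]
    rw [h3, mul_eq_zero]
    constructor
    · rintro (h | h)
      · left
        refine ⟨x.2, Prod.ext ?_ rfl⟩
        simp only
        linear_combination -h
      · by_cases hx : x.2 = 0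
        · left
          refine ⟨x.2, Prod.ext ?_ rfl⟩
          simp only
          rw [hx] at h ⊢
          linear_combination -h
        · right
          refine ⟨x.2, hx, Prod.ext ?_ rfl⟩
          simp only
          linear_combination -h
    · rintro (⟨y, rfl⟩ | ⟨y, _, rfl⟩)
      · left; ring
      · right; ring
  rw [h4, card_union_of_disjoint, card_image_of_injective, card_image_of_injective,
    card_erase_of_mem (mem_univ _), card_univ, ZMod.card]
  · have := hl.out.two_le
    omega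
  · intro y y' h; simpa using congrArg Prod.snd h
  · intro y y' h; simpa using congrArg Prod.snd h
  · rw [disjoint_left]
    intro x hx hx'
    rw [mem_image] at hx hx'
    obtain ⟨y, _, rfl⟩ := hx
    obtain ⟨y', hy', h5⟩ := hx'
    rw [Prod.mk.injEq] at h5
    obtain ⟨h6, rfl⟩ := h5
    rw [mem_erase] at hy'
    have h7 := mul_right_cancel₀ hy'.1 h6
    exact hrs (neg_injective h7).symm

end Pool.Agent.R361.QF
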