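import Mathlib
import Pool.Agent.Helper923.PPS.Selberg
import Pool.Agent.R361.AC.Mean

set_option autoImplicit false

/-! # A lower bound for the Selberg sum of a two-dimensional sieve of density one half -/

namespace Pool.Agent.R361.QF

open Finset ArithmeticFunction
open Pool.Agent.Helper923.PPS (selS selW)

variable (χ : ℕ →*₀ ℤ) (r : ℕ)

/-- the character as an arithmetic function -/
noncomputable def fX : ArithmeticFunction ℝ := ⟨fun n => (χ n : ℝ), by simp⟩

/-- the indicator function of the integers prime to `r` -/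
noncomputable def fU : ArithmeticFunction ℝ :=
  ⟨fun n => if n = 0 then 0 else if n.Coprime r then 1 else 0, by simp⟩

/-- the number of representations -/
noncomputable def rho : ArithmeticFunction ℝ := fX χ * fU r

lemma fX_mult : (fX χ).IsMultiplicative := by
  refine ⟨by simp [fX], fun {m n} _ => by simp [fX]⟩

lemma fU_mult : (fU r).IsMultiplicative := by
  rw [IsMultiplicative.iff_ne_zero]
  refine ⟨by simp [fU], fun {m n} hm hn _ => ?_⟩
  simp only [fU, coe_mk, mul_ne_zero hm hn, hm, hn, if_false, Nat.coprime_mul_iff_left]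
  split_ifs <;> simp_all

lemma rho_mult : (rho χ r).IsMultiplicative := (fX_mult χ).mul (fU_mult r)

lemma rho_apply (n : ℕ) : rho χ r n = ∑ d ∈ n.divisors, (χ d : ℝ) * fU r (n / d) := by
  unfold rho
  rw [ArithmeticFunction.mul_apply]
  rw [Nat.sum_divisorsAntidiagonal (fun x y => fX χ x * fU r y)]
  rfl

variable (hr : r.Prime) (hχ : ∀ p : ℕ, p.Prime → p ≠ r → χ p = 1 ∨ χ p = -1) (hχr : χ r = 0)

include hr in
lemma rho_pp (p k : ℕ) (hp : p.Prime) (hpr : p ≠ r) :
    rho χ r (p ^ k) = ∑ j ∈ range (k + 1), ((χ p : ℤ) : ℝ) ^ j := by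
  rw [rho_apply, Nat.sum_divisors_prime_pow hp]
  apply sum_congr rfl
  intro j hj
  rw [mem_range] at hj
  rw [Nat.pow_div (by omega) hp.pos, map_pow]
  have : fU r (p ^ (k - j)) = 1 := by
    simp only [fU, coe_mk]
    rw [if_neg (pow_ne_zero _ hp.ne_zero), if_pos]
    exact Nat.Coprime.pow_left _ ((Nat.coprime_primes hp hr).mpr hpr)
  rw [this, mul_one]
  push_cast
  rfl

include hr hχr in
lemma rho_r (k : ℕ) : rho χ r (r ^ (k + 1)) = 0 := by
  rw [rho_apply, Nat.sum_divisors_prime_pow hr]
  apply sum_eq_zero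
  intro j hj
  rw [mem_range] at hj
  rcases Nat.eq_zero_or_pos j with rfl | hj0
  · have : fU r (r ^ (k + 1) / r ^ 0) = 0 := by
      simp only [fU, coe_mk, pow_zero, Nat.div_one]
      rw [if_neg (pow_ne_zero _ hr.ne_zero), if_neg]
      rw [Nat.coprime_pow_left_iff (by omega)]
      intro h
      rw [Nat.coprime_self] at h
      exact hr.one_lt.ne' h
    rw [this, mul_zero]
  · rw [map_pow, hχr, zero_pow hj0.ne']
    simp

lemma rho_one : rho χ r 1 = 1 := (rho_mult χ r).1

include hr hχ hχr in
/-- the value at prime powers -/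
lemma rho_pp_cases (p k : ℕ) (hp : p.Prime) : 0 ≤ rho χ r (p ^ k) := by
  by_cases hpr : p = r
  · subst hpr
    rcases k with _ | k
    · rw [pow_zero, rho_one]; norm_num
    · rw [rho_r χ p hr hχr]
  · rw [rho_pp χ r hr p k hp hpr]
    rcases hχ p hp hpr with h | h
    · rw [h]; push_cast; positivity
    · rw [h]
      push_cast
      rw [neg_one_geom_sum]
      split_ifs <;> norm_num

include hr hχ hχr in
lemma rho_nonneg (n : ℕ) : 0 ≤ rho χ r n := by
  rcases Nat.eq_zero_or_pos n with rfl | hn
  · simp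
  · rw [(rho_mult χ r).multiplicative_factorization _ hn.ne']
    apply Finset.prod_nonneg
    intro p hp
    exact rho_pp_cases χ r hr hχ hχr p _ (Nat.prime_of_mem_primeFactors hp)

include hr hχ hχr in
lemma rho_ineq (p c ε : ℕ) (hp : p.Prime) (hε : ε ≤ 1) :
    rho χ r (p ^ (2 * c + ε)) ≤ (2 * c + 1) * rho χ r (p ^ ε) := by
  by_cases hpr : p = r
  · subst hpr
    rcases Nat.eq_zero_or_pos (2 * c + ε) with h | h
    · have hc : c = 0 := by omega
      have he : ε = 0 := by omega
      subst hc; subst he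
      simp
    · obtain ⟨k, hk⟩ := Nat.exists_eq_succ_of_ne_zero h.ne'
      rw [hk, Nat.succ_eq_add_one, rho_r χ p hr hχr]
      have := rho_pp_cases χ p hr hχ hχr p ε hp
      positivity
  · rw [rho_pp χ r hr p _ hp hpr, rho_pp χ r hr p _ hp hpr]
    rcases hχ p hp hpr with h | h
    · rw [h]
      push_cast
      simp only [one_pow, sum_const, card_range, nsmul_eq_mul, mul_one]
      push_cast
      have : (0 : ℝ) ≤ (c : ℝ) * ε := by positivity
      nlinarith
    · rw [h]
      push_cast
      rw [neg_one_geom_sum, neg_one_geom_sum]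
      have hc : (0 : ℝ) ≤ c := Nat.cast_nonneg _
      interval_cases ε
      · rw [if_neg, if_neg]
        · linarith
        · simp
        · simp
      · rw [if_pos, if_pos]
        · simp
        · exact ⟨1, rfl⟩
        · exact ⟨c + 1, by ring⟩

lemma mult_prod_superset (f : ArithmeticFunction ℝ) (hf : f.IsMultiplicative) (m : ℕ)
    (hm : m ≠ 0) (S : Finset ℕ) (hS : m.primeFactors ⊆ S) :
    f m = ∏ p ∈ S, f (p ^ m.factorization p) := by
  rw [hf.multiplicative_factorization _ hm]
  apply Finsupp.prod_of_support_subset _ _ _ _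
  · exact hS
  · intro p _
    rw [pow_zero, hf.1]

include hr hχ hχr in
lemma rho_sq_mul (a b : ℕ) (ha : Squarefree a) (hb : b ≠ 0) :
    rho χ r (b ^ 2 * a) ≤ ((b * b).divisors.card : ℝ) * rho χ r a := by
  have ha0 := ha.ne_zero
  have hn0 : b ^ 2 * a ≠ 0 := mul_ne_zero (pow_ne_zero 2 hb) ha0
  set S := (b ^ 2 * a).primeFactors with hS
  have hSa : a.primeFactors ⊆ S := Nat.primeFactors_mono (dvd_mul_left _ _) hn0
  have hSb : (b * b).primeFactors ⊆ S := by
    apply Nat.primeFactors_mono _ hn0
    rw [← sq]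
    exact dvd_mul_right _ _
  have hdiv : ((b * b).divisors.card : ℝ) = ∏ p ∈ S, ((2 * b.factorization p + 1 : ℕ) : ℝ) := by
    rw [Nat.card_divisors (mul_ne_zero hb hb)]
    push_cast
    rw [← prod_subset hSb]
    · apply prod_congr rfl
      intro p _
      rw [Nat.factorization_mul hb hb]
      simp only [Finsupp.add_apply]
      push_cast
      ring
    · intro p _ hp
      have : (b * b).factorization p = 0 := by
        rw [← Finsupp.notMem_support_iff]
        exact hp
      rw [Nat.factorization_mul hb hb, Finsupp.add_apply] at this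
      have h0 : b.factorization p = 0 := by omega
      rw [h0]; simp
  rw [hdiv, mult_prod_superset (rho χ r) (rho_mult χ r) _ hn0 S (le_refl _),
    mult_prod_superset (rho χ r) (rho_mult χ r) _ ha0 S hSa, ← prod_mul_distrib]
  apply prod_le_prod
  · intro p hp
    exact rho_pp_cases χ r hr hχ hχr p _ (Nat.prime_of_mem_primeFactors hp)
  · intro p hp
    have h1 : (b ^ 2 * a).factorization p = 2 * b.factorization p + a.factorization p := by
      rw [Nat.factorization_mul (pow_ne_zero 2 hb) ha0, Nat.factorization_pow]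
      simp
    rw [h1]
    push_cast
    exact rho_ineq χ r hr hχ hχr p _ _ (Nat.prime_of_mem_primeFactors hp)
      (ha.natFactorization_le_one p)

/-- the squarefree numbers all of whose prime factors satisfy `χ p = 1` -/
def sgood (a : ℕ) : Prop := Squarefree a ∧ ∀ p ∈ a.primeFactors, χ p = 1

include hr hχ hχr in
lemma rho_sqfree (a : ℕ) (ha : Squarefree a) :
    (sgood χ a ∧ rho χ r a = 2 ^ (#a.primeFactors)) ∨ rho χ r a = 0 := by
  by_cases h : ∀ p ∈ a.primeFactors, χ p = 1
  · left
    refine ⟨⟨ha, h⟩, ?_⟩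
    rw [mult_prod_superset (rho χ r) (rho_mult χ r) a ha.ne_zero _ (le_refl _)]
    rw [prod_congr rfl (g := fun _ => (2 : ℝ)), prod_const]
    intro p hp
    have hpp := Nat.prime_of_mem_primeFactors hp
    have hpr : p ≠ r := by
      rintro rfl
      have := h p hp
      rw [hχr] at this
      norm_num at this
    rw [Nat.factorization_eq_one_of_squarefree ha hpp (Nat.dvd_of_mem_primeFactors hp),
      rho_pp χ r hr p 1 hpp hpr, h p hp]
    norm_num
  · right
    push Not at h
    obtain ⟨p, hp, hp1⟩ := h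
    have hpp := Nat.prime_of_mem_primeFactors hp
    rw [mult_prod_superset (rho χ r) (rho_mult χ r) a ha.ne_zero _ (le_refl _)]
    apply prod_eq_zero hp
    rw [Nat.factorization_eq_one_of_squarefree ha hpp (Nat.dvd_of_mem_primeFactors hp)]
    by_cases hpr : p = r
    · subst hpr
      exact rho_r χ p hr hχr 0
    · rw [rho_pp χ r hr p 1 hpp hpr]
      rcases hχ p hpp hpr with h1 | h1
      · exact absurd h1 hp1
      · rw [h1]; simp [sum_range_succ]

open Classical in
include hr hχ hχr in
/-- upper bound for `∑ ρ(n)/n` -/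
lemma rho_upper (R : ℕ) :
    ∑ n ∈ Icc 1 R, rho χ r n / n ≤
      (∑ b ∈ Icc 1 R, ((b * b).divisors.card : ℝ) / ((b : ℝ) * b)) *
      ∑ a ∈ (Icc 1 R).filter (sgood χ), 2 ^ (#a.primeFactors) / (a : ℝ) := by
  have hsq : ∀ n : ℕ, ∃ ab : ℕ × ℕ, 1 ≤ n → (ab.2 ^ 2 * ab.1 = n ∧ Squarefree ab.1) := by
    intro n
    rcases Nat.eq_zero_or_pos n with rfl | hn
    · exact ⟨(1, 1), by omega⟩
    · obtain ⟨a, b, _, _, h1, h2⟩ := Nat.sq_mul_squarefree_of_pos hn
      exact ⟨(a, b), fun _ => ⟨h1, h2⟩⟩
  choose g hg using hsq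
  have hterm : ∀ n ∈ Icc 1 R, rho χ r n / n ≤
      (((g n).2 * (g n).2).divisors.card : ℝ) / (((g n).2 : ℝ) * (g n).2) *
        (rho χ r (g n).1 / (g n).1) := by
    intro n hn
    rw [mem_Icc] at hn
    obtain ⟨h1, h2⟩ := hg n hn.1
    have hb : (g n).2 ≠ 0 := by
      intro h; rw [h] at h1; simp at h1; omega
    have h3 := rho_sq_mul χ r hr hχ hχr (g n).1 (g n).2 h2 hb
    rw [h1] at h3
    have h4 : (n : ℝ) = ((g n).2 : ℝ) * (g n).2 * (g n).1 := by
      have : (((g n).2 ^ 2 * (g n).1 : ℕ) : ℝ) = (n : ℝ) := by rw [h1]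
      rw [← this]; push_cast; ring
    rw [div_mul_div_comm, ← h4]
    exact div_le_div_of_nonneg_right h3 (Nat.cast_nonneg _)
  set S2 := (Icc 1 R).filter (sgood χ) with hS2
  set F : ℕ × ℕ → ℝ := fun z => ((z.2 * z.2).divisors.card : ℝ) / ((z.2 : ℝ) * z.2) *
        (rho χ r z.1 / z.1) with hF
  have hF0 : ∀ z, 0 ≤ F z := by
    intro z
    simp only [hF]
    have := rho_nonneg χ r hr hχ hχr z.1
    positivity
  have hginj : Set.InjOn g (Icc 1 R : Finset ℕ) := by
    intro n hn n' hn' h
    rw [mem_coe, mem_Icc] at hn hn'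
    rw [← (hg n hn.1).1, ← (hg n' hn'.1).1, h]
  calc ∑ n ∈ Icc 1 R, rho χ r n / n ≤ ∑ n ∈ Icc 1 R, F (g n) := sum_le_sum hterm
    _ = ∑ z ∈ (Icc 1 R).image g, F z := by
        rw [sum_image (fun n hn n' hn' h => hginj hn hn' h)]
    _ = ∑ z ∈ ((Icc 1 R).image g).filter (fun z => sgood χ z.1), F z := by
        rw [sum_filter]
        apply sum_congr rfl
        intro z hz
        split_ifs with h
        · rfl
        · rw [mem_image] at hz
          obtain ⟨n, hn, rfl⟩ := hz
          rw [mem_Icc] at hn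
          rcases rho_sqfree χ r hr hχ hχr (g n).1 (hg n hn.1).2 with h1 | h1
          · exact absurd h1.1 h
          · simp only [hF, h1]; simp
    _ ≤ ∑ z ∈ S2 ×ˢ (Icc 1 R), F z := by
        apply sum_le_sum_of_subset_of_nonneg
        · intro z hz
          rw [mem_filter, mem_image] at hz
          obtain ⟨⟨n, hn, rfl⟩, hz2⟩ := hz
          rw [mem_Icc] at hn
          obtain ⟨h1, h2⟩ := hg n hn.1
          have hb : (g n).2 ≠ 0 := by
            intro h; rw [h] at h1; simp at h1; omega
          have ha := h2.ne_zero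
          have hb1 : 1 ≤ (g n).2 ^ 2 := Nat.one_le_iff_ne_zero.mpr (pow_ne_zero 2 hb)
          rw [mem_product, hS2, mem_filter, mem_Icc, mem_Icc]
          refine ⟨⟨⟨by omega, ?_⟩, hz2⟩, by omega, ?_⟩
          · calc (g n).1 = 1 * (g n).1 := (one_mul _).symm
              _ ≤ (g n).2 ^ 2 * (g n).1 := Nat.mul_le_mul_right _ hb1
              _ ≤ R := by omega
          · calc (g n).2 ≤ (g n).2 ^ 2 := Nat.le_self_pow two_ne_zero _
              _ = (g n).2 ^ 2 * 1 := (mul_one _).symm
              _ ≤ (g n).2 ^ 2 * (g n).1 := Nat.mul_le_mul_left _ (by omega)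
              _ ≤ R := by omega
        · intro z _ _
          exact hF0 z
    _ = ∑ a ∈ S2, ∑ b ∈ Icc 1 R, F (a, b) := by rw [sum_product]
    _ = _ := by
        rw [mul_comm, sum_mul_sum]
        apply sum_congr rfl
        intro a ha
        apply sum_congr rfl
        intro b _
        rw [hS2, mem_filter] at ha
        simp only [hF]
        rcases rho_sqfree χ r hr hχ hχr a ha.2.1 with h1 | h1
        · rw [h1.2]; ring
        · exfalso
          have h2 : rho χ r a = 2 ^ (#a.primeFactors) := by
            rw [mult_prod_superset (rho χ r) (rho_mult χ r) a ha.2.1.ne_zero _ (le_refl _)]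
            rw [prod_congr rfl (g := fun _ => (2 : ℝ)), prod_const]
            intro p hp
            have hpp := Nat.prime_of_mem_primeFactors hp
            have hpr : p ≠ r := by
              rintro rfl
              have := ha.2.2 p hp
              rw [hχr] at this
              norm_num at this
            rw [Nat.factorization_eq_one_of_squarefree ha.2.1 hpp (Nat.dvd_of_mem_primeFactors hp),
              rho_pp χ r hr p 1 hpp hpr, ha.2.2 p hp]
            norm_num
          rw [h1] at h2
          have : (0 : ℝ) < 2 ^ (#a.primeFactors) := by positivity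
          linarith

end Pool.Agent.R361.QF
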