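import Mathlib
import Pool.Agent.R361.QF.Low

set_option autoImplicit false

/-! # The Selberg sum is at least a constant times the logarithm -/

namespace Pool.Agent.R361.QF

open Finset ArithmeticFunction
open Pool.Agent.Helper923.PPS (selS selW)

variable (χ : ℕ →*₀ ℤ) (r : ℕ)

lemma rho_sum (R : ℕ) : ∑ n ∈ Icc 1 R, rho χ r n / n =
    ∑ m ∈ Icc 1 R, fU r m / m * ∑ d ∈ Icc 1 (R / m), (χ d : ℝ) / d := by
  set T := ((Icc 1 R) ×ˢ (Icc 1 R)).filter (fun x => x.1 * x.2 ≤ R) with hT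
  set F : ℕ × ℕ → ℝ := fun x => (χ x.1 : ℝ) / x.1 * (fU r x.2 / x.2) with hF
  have h1 : ∑ n ∈ Icc 1 R, rho χ r n / n = ∑ x ∈ T, F x := by
    have hmaps : ∀ x ∈ T, x.1 * x.2 ∈ Icc 1 R := by
      intro x hx
      rw [hT, mem_filter, mem_product, mem_Icc, mem_Icc] at hx
      rw [mem_Icc]
      exact ⟨Nat.mul_pos (by omega) (by omega), hx.2⟩
    rw [← sum_fiberwise_of_maps_to hmaps]
    apply sum_congr rfl
    intro n hn
    rw [mem_Icc] at hn
    have h2 : T.filter (fun x => x.1 * x.2 = n) = n.divisorsAntidiagonal := by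
      ext x
      rw [mem_filter, hT, mem_filter, mem_product, mem_Icc, mem_Icc, Nat.mem_divisorsAntidiagonal]
      constructor
      · rintro ⟨_, h⟩; exact ⟨h, by omega⟩
      · rintro ⟨h, h0⟩
        have hx1 : x.1 ≠ 0 := by rintro h'; rw [h'] at h; simp at h; omega
        have hx2 : x.2 ≠ 0 := by rintro h'; rw [h'] at h; simp at h; omega
        have h3 : x.1 ≤ n := Nat.le_of_dvd (by omega) ⟨x.2, h.symm⟩
        have h4 : x.2 ≤ n := Nat.le_of_dvd (by omega) ⟨x.1, by rw [mul_comm]; exact h.symm⟩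
        exact ⟨⟨⟨⟨by omega, by omega⟩, by omega, by omega⟩, by omega⟩, h⟩
    rw [h2]
    unfold rho
    rw [ArithmeticFunction.mul_apply, sum_div]
    apply sum_congr rfl
    intro x hx
    rw [Nat.mem_divisorsAntidiagonal] at hx
    simp only [hF, fX, coe_mk]
    rw [← hx.1]
    push_cast
    rw [div_mul_div_comm]
  have h2 : ∑ x ∈ T, F x = ∑ m ∈ Icc 1 R, ∑ d ∈ Icc 1 R, if d * m ≤ R then F (d, m) else 0 := by
    rw [hT, sum_filter, sum_product_right]
  rw [h1, h2]
  apply sum_congr rfl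
  intro m hm
  rw [mem_Icc] at hm
  rw [← sum_filter, mul_sum]
  have h3 : (Icc 1 R).filter (fun d => d * m ≤ R) = Icc 1 (R / m) := by
    ext d
    rw [mem_filter, mem_Icc, mem_Icc, Nat.le_div_iff_mul_le (by omega)]
    constructor
    · rintro ⟨h, h'⟩; exact ⟨h.1, h'⟩
    · rintro ⟨h, h'⟩
      refine ⟨⟨h, ?_⟩, h'⟩
      calc d = d * 1 := (mul_one d).symm
        _ ≤ d * m := Nat.mul_le_mul_left _ (by omega)
        _ ≤ R := h'
  rw [h3]
  apply sum_congr rfl
  intro d _
  simp only [hF]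
  ring

lemma fU_sum (hr : r.Prime) (R : ℕ) :
    1 / 2 * Real.log (R + 1) ≤ ∑ m ∈ Icc 1 R, fU r m / m := by
  have h1 : Real.log (R + 1) ≤ ∑ m ∈ Icc 1 R, 1 / (m : ℝ) := by
    have := log_add_one_le_harmonic R
    rw [harmonic_eq_sum_Icc] at this
    push_cast at this
    simpa [one_div] using this
  have hr2 := hr.two_le
  have h2 : ∑ m ∈ Icc 1 R, 1 / (m : ℝ) = ∑ m ∈ Icc 1 R, fU r m / m +
      ∑ m ∈ (Icc 1 R).filter (fun m => r ∣ m), 1 / (m : ℝ) := by
    rw [sum_filter, ← sum_add_distrib]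
    apply sum_congr rfl
    intro m hm
    rw [mem_Icc] at hm
    have hm0 : m ≠ 0 := by omega
    simp only [fU, coe_mk]
    rw [if_neg hm0]
    by_cases h : r ∣ m
    · rw [if_neg, if_pos h]
      · simp
      · rw [Nat.coprime_comm, Nat.Prime.coprime_iff_not_dvd hr]
        exact fun h' => h' h
    · rw [if_pos, if_neg h]
      · simp
      · rw [Nat.coprime_comm, Nat.Prime.coprime_iff_not_dvd hr]
        exact h
  have h3 : ∑ m ∈ (Icc 1 R).filter (fun m => r ∣ m), 1 / (m : ℝ) ≤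
      1 / 2 * ∑ m ∈ Icc 1 R, 1 / (m : ℝ) := by
    have h4 : ∑ m ∈ (Icc 1 R).filter (fun m => r ∣ m), 1 / (m : ℝ) =
        ∑ k ∈ Icc 1 (R / r), 1 / ((r * k : ℕ) : ℝ) := by
      symm
      apply sum_nbij (fun k => r * k)
      · intro k hk
        rw [mem_Icc, Nat.le_div_iff_mul_le (by omega)] at hk
        rw [mem_filter, mem_Icc]
        refine ⟨⟨Nat.mul_pos (by omega) (by omega), by rw [mul_comm]; exact hk.2⟩, dvd_mul_right _ _⟩
      · intro k _ k' _ h
        exact Nat.eq_of_mul_eq_mul_left (by omega) h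
      · intro m hm
        rw [mem_coe, mem_filter, mem_Icc] at hm
        obtain ⟨⟨hm1, hm2⟩, k, rfl⟩ := hm
        refine ⟨k, ?_, rfl⟩
        rw [mem_coe, mem_Icc, Nat.le_div_iff_mul_le (by omega)]
        refine ⟨?_, by rw [mul_comm]; exact hm2⟩
        rcases Nat.eq_zero_or_pos k with rfl | h
        · simp at hm1
        · exact h
      · intro k _; rfl
    rw [h4, mul_sum]
    calc ∑ k ∈ Icc 1 (R / r), 1 / ((r * k : ℕ) : ℝ) ≤ ∑ k ∈ Icc 1 (R / r), 1 / 2 * (1 / (k : ℝ)) := by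
          apply sum_le_sum
          intro k hk
          rw [mem_Icc] at hk
          have hk0 : (0 : ℝ) < k := by exact_mod_cast (by omega : 0 < k)
          rw [one_div_mul_one_div]
          apply one_div_le_one_div_of_le (by positivity)
          push_cast
          have : (2 : ℝ) ≤ r := by exact_mod_cast hr2
          nlinarith
      _ ≤ ∑ k ∈ Icc 1 R, 1 / 2 * (1 / (k : ℝ)) := by
          apply sum_le_sum_of_subset_of_nonneg
          · exact Icc_subset_Icc le_rfl (Nat.div_le_self _ _)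
          · intro k _ _; positivity
  linarith

variable (hr : r.Prime) (hχ : ∀ p : ℕ, p.Prime → p ≠ r → χ p = 1 ∨ χ p = -1) (hχr : χ r = 0)

open Classical in
include hr hχ hχr in
lemma sgood_lower (c0 : ℝ) (hc0 : 0 < c0)
    (hc : ∀ t : ℕ, 1 ≤ t → c0 ≤ ∑ k ∈ Icc 1 t, (χ k : ℝ) / k) :
    ∃ c1 : ℝ, 0 < c1 ∧ ∀ R : ℕ, c1 * Real.log (R + 1) ≤
      ∑ a ∈ (Icc 1 R).filter (sgood χ), 2 ^ (#a.primeFactors) / (a : ℝ) := by
  set D : ℝ := (∑' m : ℕ, ((m * m).divisors.card : ℝ) / ((m : ℝ) * m)) + 1 with hD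
  have hD0 : 0 < D := by
    have : 0 ≤ ∑' m : ℕ, ((m * m).divisors.card : ℝ) / ((m : ℝ) * m) :=
      tsum_nonneg fun m => by positivity
    linarith
  refine ⟨c0 / 2 / D, by positivity, fun R => ?_⟩
  have h1 : c0 * (1 / 2 * Real.log (R + 1)) ≤ ∑ n ∈ Icc 1 R, rho χ r n / n := by
    rw [rho_sum]
    have h2 := fU_sum r hr R
    calc c0 * (1 / 2 * Real.log (R + 1)) ≤ c0 * ∑ m ∈ Icc 1 R, fU r m / m :=
          mul_le_mul_of_nonneg_left h2 hc0.le
      _ = ∑ m ∈ Icc 1 R, fU r m / m * c0 := by rw [mul_comm, sum_mul]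
      _ ≤ _ := by
          apply sum_le_sum
          intro m hm
          rw [mem_Icc] at hm
          apply mul_le_mul_of_nonneg_left
          · apply hc
            rw [Nat.le_div_iff_mul_le (by omega)]
            omega
          · simp only [fU, coe_mk]
            split_ifs <;> positivity
  have h2 := rho_upper χ r hr hχ hχr R
  have h3 : ∑ b ∈ Icc 1 R, ((b * b).divisors.card : ℝ) / ((b : ℝ) * b) ≤ D := by
    have := AC.summable_tausq.sum_le_tsum (Icc 1 R) (fun m _ => by positivity)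
    linarith
  have h4 : 0 ≤ ∑ a ∈ (Icc 1 R).filter (sgood χ), 2 ^ (#a.primeFactors) / (a : ℝ) :=
    sum_nonneg fun a _ => by positivity
  have h5 := mul_le_mul_of_nonneg_right h3 h4
  rw [div_mul_eq_mul_div, div_le_iff₀ hD0]
  linarith

/-! ### the sieve -/

/-- the sieve density -/
noncomputable def dens (p : ℕ) : ℝ := (2 * p - 1) / (p : ℝ) ^ 2

/-- the sieve with `ν(p) = (2p-1)/p²` -/
noncomputable def sv (P : ℕ) (hP : Squarefree P) : BoundingSieve where
  support := ∅
  prodPrimes := P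
  prodPrimes_squarefree := hP
  weights := 0
  weights_nonneg := fun _ => le_rfl
  totalMass := 1
  nu := prodPrimeFactors dens
  nu_mult := IsMultiplicative.prodPrimeFactors _
  nu_pos_of_prime := by
    intro p hp _
    rw [prodPrimeFactors_apply hp.ne_zero, hp.primeFactors, prod_singleton, dens]
    have : (2 : ℝ) ≤ p := by exact_mod_cast hp.two_le
    apply div_pos <;> nlinarith
  nu_lt_one_of_prime := by
    intro p hp _
    rw [prodPrimeFactors_apply hp.ne_zero, hp.primeFactors, prod_singleton, dens]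
    have : (2 : ℝ) ≤ p := by exact_mod_cast hp.two_le
    rw [div_lt_one (by positivity)]
    nlinarith

lemma sv_nu_prime (P : ℕ) (hP : Squarefree P) (p : ℕ) (hp : p.Prime) : (sv P hP).nu p = dens p := by
  change prodPrimeFactors dens p = _
  rw [prodPrimeFactors_apply hp.ne_zero, hp.primeFactors, prod_singleton]

lemma sv_terms (P : ℕ) (hP : Squarefree P) (a : ℕ) (ha : Squarefree a) :
    2 ^ (#a.primeFactors) / (a : ℝ) ≤ (sv P hP).selbergTerms a := by
  rw [BoundingSieve.selbergTerms_apply]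
  have h1 : (sv P hP).nu a = ∏ p ∈ a.primeFactors, dens p := by
    change prodPrimeFactors dens a = _
    rw [prodPrimeFactors_apply ha.ne_zero]
  rw [h1, ← prod_mul_distrib]
  have h2 : (2 : ℝ) ^ (#a.primeFactors) / (a : ℝ) = ∏ p ∈ a.primeFactors, (2 / (p : ℝ)) := by
    rw [prod_div_distrib, prod_const]
    congr 1
    have := Nat.prod_primeFactors_of_squarefree ha
    rw [← Nat.cast_prod, this]
  rw [h2]
  apply prod_le_prod
  · intro p _; positivity
  · intro p hp
    have hpp := Nat.prime_of_mem_primeFactors hp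
    rw [sv_nu_prime P hP p hpp, dens]
    have h3 : (2 : ℝ) ≤ p := by exact_mod_cast hpp.two_le
    have h4 : (0 : ℝ) < p := by linarith
    have h5 : 1 - (2 * (p : ℝ) - 1) / (p : ℝ) ^ 2 = ((p : ℝ) - 1) ^ 2 / (p : ℝ) ^ 2 := by
      field_simp; ring
    rw [h5, inv_div]
    have h6 : (0 : ℝ) < (p : ℝ) - 1 := by linarith
    rw [div_mul_div_comm, mul_comm ((p : ℝ) ^ 2) (((p : ℝ) - 1) ^ 2), ← div_mul_div_comm,
      div_self (by positivity), mul_one, div_le_div_iff₀ h4 (by positivity)]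
    nlinarith

open Classical in
/-- the product of the split primes up to `z` -/
noncomputable def Pz (z : ℕ) : ℕ := ∏ p ∈ (Icc 1 z).filter (fun p => p.Prime ∧ χ p = 1), p

lemma Pz_prime (z p : ℕ) (hp : p.Prime) : p ∣ Pz χ z ↔ p ≤ z ∧ χ p = 1 := by
  classical
  unfold Pz
  rw [hp.prime.dvd_finsetProd_iff]
  constructor
  · rintro ⟨q, hq, hpq⟩
    rw [mem_filter, mem_Icc] at hq
    have := (Nat.prime_dvd_prime_iff_eq hp hq.2.1).mp hpq
    subst this
    exact ⟨hq.1.2, hq.2.2⟩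
  · rintro ⟨h1, h2⟩
    exact ⟨p, by rw [mem_filter, mem_Icc]; exact ⟨⟨hp.one_le, h1⟩, hp, h2⟩, dvd_rfl⟩

lemma sqfree_prod_primes (s : Finset ℕ) (hs : ∀ p ∈ s, p.Prime) : Squarefree (∏ p ∈ s, p) := by
  classical
  induction s using Finset.induction_on with
  | empty => simp
  | insert p s hp ih =>
    rw [prod_insert hp]
    have hpp := hs p (mem_insert_self _ _)
    have hs' : ∀ q ∈ s, q.Prime := fun q hq => hs q (mem_insert_of_mem hq)
    have hcop : p.Coprime (∏ q ∈ s, q) := by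
      apply Nat.Coprime.prod_right
      intro q hq
      exact (Nat.coprime_primes hpp (hs' q hq)).mpr (fun h => hp (h ▸ hq))
    rw [Nat.squarefree_mul hcop]
    exact ⟨hpp.prime.squarefree, ih hs'⟩

lemma Pz_sqfree (z : ℕ) : Squarefree (Pz χ z) := by
  classical
  unfold Pz
  apply sqfree_prod_primes
  intro p hp
  rw [mem_filter] at hp
  exact hp.2.1

include hr hχ hχr in
theorem selS_lower (c0 : ℝ) (hc0 : 0 < c0)
    (hc : ∀ t : ℕ, 1 ≤ t → c0 ≤ ∑ k ∈ Icc 1 t, (χ k : ℝ) / k) :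
    ∃ c1 : ℝ, 0 < c1 ∧ ∀ R : ℕ, c1 * Real.log (R + 1) ≤
      selS (sv (Pz χ R) (Pz_sqfree χ R)) R := by
  classical
  obtain ⟨c1, hc1, h⟩ := sgood_lower χ r hr hχ hχr c0 hc0 hc
  refine ⟨c1, hc1, fun R => (h R).trans ?_⟩
  unfold selS
  have hsub : (Icc 1 R).filter (sgood χ) ⊆ (Nat.divisors (sv (Pz χ R) (Pz_sqfree χ R)).prodPrimes).filter
      (fun l : ℕ => (l : ℝ) ≤ R) := by
    intro a ha
    rw [mem_filter, mem_Icc] at ha
    obtain ⟨⟨ha1, ha2⟩, ha3, ha4⟩ := ha
    rw [mem_filter, Nat.mem_divisors]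
    refine ⟨⟨?_, (Pz_sqfree χ R).ne_zero⟩, by exact_mod_cast ha2⟩
    change a ∣ Pz χ R
    rw [← Nat.prod_primeFactors_of_squarefree ha3]
    unfold Pz
    apply prod_dvd_prod_of_subset
    intro p hp
    have hpp := Nat.prime_of_mem_primeFactors hp
    rw [mem_filter, mem_Icc]
    exact ⟨⟨hpp.one_le, (Nat.le_of_dvd (by omega) (Nat.dvd_of_mem_primeFactors hp)).trans ha2⟩,
      hpp, ha4 p hp⟩
  calc ∑ a ∈ (Icc 1 R).filter (sgood χ), 2 ^ (#a.primeFactors) / (a : ℝ)
      ≤ ∑ a ∈ (Icc 1 R).filter (sgood χ), (sv (Pz χ R) (Pz_sqfree χ R)).selbergTerms a := by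
        apply sum_le_sum
        intro a ha
        rw [mem_filter] at ha
        exact sv_terms _ _ a ha.2.1
    _ ≤ _ := by
        apply sum_le_sum_of_subset_of_nonneg hsub
        intro a ha _
        rw [mem_filter, Nat.mem_divisors] at ha
        exact (BoundingSieve.selbergTerms_pos ha.1.1).le

end Pool.Agent.R361.QF
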