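import Mathlib
import Pool.Agent.R361.QF.Comp
import Pool.Agent.R361.QF.Low2

set_option autoImplicit false

/-! # The sieve over a quadratic order, twisted by characters of the order -/

namespace Pool.Agent.R361.QF

open Finset ArithmeticFunction
open Pool.Agent.Helper923.PPS (selS selW)
open scoped ComplexConjugate

/-- the completely multiplicative function with given values at the primes -/
noncomputable def cm (f : ℕ → ℂ) : ℕ →*₀ ℂ where
  toFun n := if n = 0 then 0 else n.factorization.prod (fun q k => f q ^ k)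
  map_zero' := by simp
  map_one' := by simp
  map_mul' m n := by
    by_cases hm : m = 0
    · simp [hm]
    by_cases hn : n = 0
    · simp [hn]
    rw [if_neg hm, if_neg hn, if_neg (mul_ne_zero hm hn), Nat.factorization_mul hm hn,
      Finsupp.prod_add_index']
    · intro q; simp
    · intro q a b; rw [pow_add]

lemma cm_apply (f : ℕ → ℂ) (n : ℕ) (hn : n ≠ 0) :
    cm f n = ∏ q ∈ n.primeFactors, f q ^ n.factorization q := by
  change (if n = 0 then 0 else n.factorization.prod (fun q k => f q ^ k)) = _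
  rw [if_neg hn]
  rfl

lemma cm_prime (f : ℕ → ℂ) (q : ℕ) (hq : q.Prime) : cm f q = f q := by
  rw [cm_apply f q hq.ne_zero, hq.primeFactors, prod_singleton, hq.factorization_self, pow_one]

lemma cm_mul (f g : ℕ → ℂ) (n : ℕ) : cm (fun q => f q * g q) n = cm f n * cm g n := by
  rcases Nat.eq_zero_or_pos n with rfl | hn
  · simp
  · rw [cm_apply _ n hn.ne', cm_apply _ n hn.ne', cm_apply _ n hn.ne', ← prod_mul_distrib]
    exact prod_congr rfl fun q _ => mul_pow _ _ _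

lemma cm_congr (f g : ℕ → ℂ) (n : ℕ) (h : ∀ q ∈ n.primeFactors, f q = g q) : cm f n = cm g n := by
  rcases Nat.eq_zero_or_pos n with rfl | hn
  · simp
  · rw [cm_apply _ n hn.ne', cm_apply _ n hn.ne']
    exact prod_congr rfl fun q hq => by rw [h q hq]

/-- a system of characters `ψ q` of the order modulo the primes `q ∤ Q`, of exact order `d` -/
structure QD (A B : ℤ) (d Q : ℕ) (ψ : ℕ → QuadraticAlgebra ℤ A B → ℂ) : Prop where
  one : ∀ q : ℕ, q.Prime → ¬ q ∣ Q → ψ q 1 = 1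
  mul : ∀ q : ℕ, q.Prime → ∀ α β, ψ q (α * β) = ψ q α * ψ q β
  per : ∀ q : ℕ, q.Prime → ∀ α β : QuadraticAlgebra ℤ A B, (q : ℤ) ∣ α.re - β.re →
    (q : ℤ) ∣ α.im - β.im → ψ q α = ψ q β
  val : ∀ q : ℕ, q.Prime → ∀ α, ψ q α = 0 ∨ ψ q α ^ d = 1
  zero : ∀ q : ℕ, q.Prime → q ∣ Q → ∀ α, ψ q α = 0
  gen : ∀ q : ℕ, q.Prime → ¬ q ∣ Q → ∃ β : QuadraticAlgebra ℤ A B, ¬ (q : ℤ) ∣ β.norm ∧
    IsPrimitiveRoot (ψ q β) d

section

variable {A B : ℤ} {d Q : ℕ} {ψ : ℕ → QuadraticAlgebra ℤ A B → ℂ}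

lemma QD.norm_le (h : QD A B d Q ψ) (hd : 0 < d) (α : QuadraticAlgebra ℤ A B) (n : ℕ) :
    ‖cm (fun q => ψ q α) n‖ ≤ 1 := by
  rcases Nat.eq_zero_or_pos n with rfl | hn
  · simp
  · rw [cm_apply _ n hn.ne', norm_prod]
    apply prod_le_one
    · intro q _; exact norm_nonneg _
    · intro q hq
      rw [norm_pow]
      apply pow_le_one₀ (norm_nonneg _)
      rcases h.val q (Nat.prime_of_mem_primeFactors hq) α with h1 | h1
      · rw [h1]; simp
      · have : ‖ψ q α‖ ^ d = 1 := by rw [← norm_pow, h1, norm_one]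
        exact ((pow_eq_one_iff_of_nonneg (norm_nonneg _) hd.ne').mp this).le

lemma QD.cm_mul' (h : QD A B d Q ψ) (α β : QuadraticAlgebra ℤ A B) (n : ℕ) :
    cm (fun q => ψ q (α * β)) n = cm (fun q => ψ q α) n * cm (fun q => ψ q β) n := by
  rw [← cm_mul]
  apply cm_congr
  intro q hq
  exact h.mul q (Nat.prime_of_mem_primeFactors hq) α β

lemma QD.cm_per (h : QD A B d Q ψ) (n L : ℕ) (hL : n ∣ L) :
    Per L (fun α : QuadraticAlgebra ℤ A B => cm (fun q => ψ q α) n) := by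
  intro α β h1 h2
  apply cm_congr
  intro q hq
  have hqL : (q : ℤ) ∣ (L : ℤ) := by
    exact_mod_cast (Nat.dvd_of_mem_primeFactors hq).trans hL
  exact h.per q (Nat.prime_of_mem_primeFactors hq) α β (hqL.trans h1) (hqL.trans h2)

lemma norm_per (L : ℕ) (α β : QuadraticAlgebra ℤ A B) (h1 : (L : ℤ) ∣ α.re - β.re)
    (h2 : (L : ℤ) ∣ α.im - β.im) : (L : ℤ) ∣ α.norm - β.norm := by
  rw [norm_eq, norm_eq]
  have : α.re ^ 2 + B * α.re * α.im - A * α.im ^ 2 - (β.re ^ 2 + B * β.re * β.im - A * β.im ^ 2) =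
      (α.re - β.re) * (α.re + β.re + B * α.im) + (α.im - β.im) * (B * β.re - A * (α.im + β.im)) := by
    ring
  rw [this]
  exact dvd_add (Dvd.dvd.mul_right h1 _) (Dvd.dvd.mul_right h2 _)

/-- an element congruent to a given one modulo `q` and to `1` modulo the rest -/
lemma QD.exists_beta (h : QD A B d Q ψ) (q : ℕ) (hq : q.Prime) (hqQ : ¬ q ∣ Q) (L : ℕ)
    (hL : L ≠ 0) :
    ∃ β : QuadraticAlgebra ℤ A B, IsCoprime β.norm (L : ℤ) ∧ IsPrimitiveRoot (ψ q β) d ∧
      ∀ p : ℕ, p.Prime → p ∣ L → p ≠ q → ¬ p ∣ Q → ψ p β = 1 := by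
  obtain ⟨β0, hβ0, hβ0'⟩ := h.gen q hq hqQ
  obtain ⟨a, L', hL', hLL'⟩ := Nat.exists_eq_pow_mul_and_not_dvd hL q hq.ne_one
  have hcop : Nat.Coprime q L' := (Nat.Prime.coprime_iff_not_dvd hq).mpr hL'
  obtain ⟨t, ht1, ht2⟩ := Nat.chineseRemainder hcop 1 0
  have ht1' : (q : ℤ) ∣ (t : ℤ) - 1 := by
    have := (Nat.modEq_iff_dvd.mp ht1.symm)
    exact_mod_cast this
  have ht2' : (L' : ℤ) ∣ (t : ℤ) := by
    have := Nat.modEq_zero_iff_dvd.mp ht2
    exact_mod_cast this
  set β : QuadraticAlgebra ℤ A B := ⟨1 + t * (β0.re - 1), t * β0.im⟩ with hβ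
  have hq1 : (q : ℤ) ∣ β.re - β0.re := by
    have : β.re - β0.re = ((t : ℤ) - 1) * (β0.re - 1) := by simp only [hβ]; ring
    rw [this]; exact Dvd.dvd.mul_right ht1' _
  have hq2 : (q : ℤ) ∣ β.im - β0.im := by
    have : β.im - β0.im = ((t : ℤ) - 1) * β0.im := by simp only [hβ]; ring
    rw [this]; exact Dvd.dvd.mul_right ht1' _
  have hl1 : (L' : ℤ) ∣ β.re - (1 : QuadraticAlgebra ℤ A B).re := by
    have : β.re - (1 : QuadraticAlgebra ℤ A B).re = (t : ℤ) * (β0.re - 1) := by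
      simp only [hβ]
      rw [show (1 : QuadraticAlgebra ℤ A B).re = 1 from rfl]; ring
    rw [this]; exact Dvd.dvd.mul_right ht2' _
  have hl2 : (L' : ℤ) ∣ β.im - (1 : QuadraticAlgebra ℤ A B).im := by
    have : β.im - (1 : QuadraticAlgebra ℤ A B).im = (t : ℤ) * β0.im := by
      simp only [hβ]
      rw [show (1 : QuadraticAlgebra ℤ A B).im = 0 from rfl]; ring
    rw [this]; exact Dvd.dvd.mul_right ht2' _
  refine ⟨β, ?_, ?_, ?_⟩
  · rw [hLL']
    push_cast
    apply IsCoprime.mul_right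
    · apply IsCoprime.pow_right
      rw [isCoprime_comm, (Nat.prime_iff_prime_int.mp hq).coprime_iff_not_dvd]
      intro h1
      apply hβ0
      have h2 := norm_per q β β0 hq1 hq2
      have : β0.norm = β.norm - (β.norm - β0.norm) := by ring
      rw [this]
      exact dvd_sub h1 h2
    · have h2 := norm_per L' β 1 hl1 hl2
      rw [QuadraticAlgebra.norm_one] at h2
      obtain ⟨k, hk⟩ := h2
      exact ⟨1, -k, by linear_combination hk⟩
  · rw [h.per q hq β β0 hq1 hq2]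
    exact hβ0'
  · intro p hp hpL hpq hpQ
    have hpL' : p ∣ L' := by
      rw [hLL'] at hpL
      rcases hp.dvd_mul.mp hpL with h1 | h1
      · exact absurd ((Nat.prime_dvd_prime_iff_eq hp hq).mp (hp.dvd_of_dvd_pow h1)) hpq
      · exact h1
    have hpL'' : (p : ℤ) ∣ (L' : ℤ) := by exact_mod_cast hpL'
    rw [h.per p hp β 1 (hpL''.trans hl1) (hpL''.trans hl2)]
    exact h.one p hp hpQ

end

end Pool.Agent.R361.QF
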