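import Mathlib
import Pool.Agent.R361.QF.Sieve

set_option autoImplicit false

/-! # Correlations against the sieve weights -/

namespace Pool.Agent.R361.QF

open Finset ArithmeticFunction
open Pool.Agent.Helper923.PPS (selS selW selW_eq_zero abs_selW_le mainSum_selW selS_pos selW_one)
open scoped ComplexConjugate

section

variable {A B : ℤ} {d Q : ℕ} {ψ : ℕ → QuadraticAlgebra ℤ A B → ℂ}

/-- the twisted function with a divisibility condition -/
noncomputable def tw (ψ : ℕ → QuadraticAlgebra ℤ A B → ℂ) (m n n' : ℕ)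
    (α : QuadraticAlgebra ℤ A B) : ℂ :=
  open Classical in
  (if (m : ℤ) ∣ α.norm then (1 : ℂ) else 0) *
    (cm (fun q => ψ q α) n * conj (cm (fun q => ψ q α) n'))

lemma tw_norm (h : QD A B d Q ψ) (hd : 0 < d) (m n n' : ℕ) (α : QuadraticAlgebra ℤ A B) :
    ‖tw ψ m n n' α‖ ≤ 1 := by
  unfold tw
  have h2 := h.norm_le hd α n
  have h3 := h.norm_le hd α n'
  have h4 : ‖cm (fun q => ψ q α) n * conj (cm (fun q => ψ q α) n')‖ ≤ 1 := by
    rw [norm_mul, RCLike.norm_conj]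
    calc _ ≤ 1 * (1 : ℝ) := mul_le_mul h2 h3 (norm_nonneg _) zero_le_one
      _ = 1 := by norm_num
  split_ifs
  · rw [one_mul]; exact h4
  · rw [zero_mul, norm_zero]; exact zero_le_one

lemma tw_per (h : QD A B d Q ψ) (m n n' : ℕ) : Per (m * n * n') (tw ψ m n n') := by
  intro α β h1 h2
  unfold tw
  have e1 : (m : ℤ) ∣ α.norm ↔ (m : ℤ) ∣ β.norm := by
    have h3 := norm_per (m * n * n') α β h1 h2
    have h4 : (m : ℤ) ∣ ((m * n * n' : ℕ) : ℤ) := by
      exact_mod_cast Dvd.dvd.mul_right (dvd_mul_right m n) n'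
    have h5 := h4.trans h3
    constructor
    · intro h6
      have : β.norm = α.norm - (α.norm - β.norm) := by ring
      rw [this]; exact dvd_sub h6 h5
    · intro h6
      have : α.norm = β.norm + (α.norm - β.norm) := by ring
      rw [this]; exact dvd_add h6 h5
  have e2 := h.cm_per n (m * n * n') (Dvd.dvd.mul_right (dvd_mul_left n m) n') α β h1 h2
  have e3 := h.cm_per n' (m * n * n') (dvd_mul_left n' _) α β h1 h2
  simp only at e2 e3
  rw [e2, e3]
  simp only [e1]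

lemma tw_comp (h : QD A B d Q ψ) (hd : 0 < d) (m n n' : ℕ) [NeZero (m * n * n')]
    (hn : n ≠ 0) (hn' : n' ≠ 0)
    (hnQ : n.Coprime Q) (hnQ' : n'.Coprime Q)
    (hne : ∃ q, q.Prime ∧ ¬ n.factorization q ≡ n'.factorization q [MOD d]) :
    comp (m * n * n') (tw ψ m n n') = 0 := by
  obtain ⟨q, hq, hqne⟩ := hne
  have hqn : q ∣ n ∨ q ∣ n' := by
    by_contra hcon
    push Not at hcon
    apply hqne
    rw [Nat.factorization_eq_zero_of_not_dvd hcon.1, Nat.factorization_eq_zero_of_not_dvd hcon.2]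
  have hqQ : ¬ q ∣ Q := by
    intro h1
    rcases hqn with h2 | h2
    · exact Nat.Prime.not_coprime_iff_dvd.mpr ⟨q, hq, h2, h1⟩ hnQ
    · exact Nat.Prime.not_coprime_iff_dvd.mpr ⟨q, hq, h2, h1⟩ hnQ'
  obtain ⟨β, hβ1, hβ2, hβ3⟩ := h.exists_beta q hq hqQ (m * n * n') (NeZero.ne _)
  set u := ψ q β with hu
  have hun : ‖u‖ = 1 := by
    have : ‖u‖ ^ d = 1 := by rw [← norm_pow, hβ2.pow_eq_one, norm_one]
    exact (pow_eq_one_iff_of_nonneg (norm_nonneg _) hd.ne').mp this
  have hcmβ : ∀ k : ℕ, k ≠ 0 → k ∣ m * n * n' → k.Coprime Q →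
      cm (fun q => ψ q β) k = u ^ k.factorization q := by
    intro k hk hkd hkQ
    rw [cm_apply _ k hk]
    by_cases hqk : q ∈ k.primeFactors
    · rw [prod_eq_single q]
      · intro p hp hpq
        have hpp := Nat.prime_of_mem_primeFactors hp
        have hpk := Nat.dvd_of_mem_primeFactors hp
        rw [hβ3 p hpp (hpk.trans hkd) hpq, one_pow]
        intro hpQ
        exact Nat.Prime.not_coprime_iff_dvd.mpr ⟨p, hpp, hpk, hpQ⟩ hkQ
      · intro h1; exact absurd hqk h1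
    · have h0 : k.factorization q = 0 := by
        rw [← Finsupp.notMem_support_iff]; exact hqk
      rw [h0, pow_zero]
      apply prod_eq_one
      intro p hp
      have hpp := Nat.prime_of_mem_primeFactors hp
      have hpk := Nat.dvd_of_mem_primeFactors hp
      rw [hβ3 p hpp (hpk.trans hkd) (fun h1 => hqk (h1 ▸ hp)), one_pow]
      intro hpQ
      exact Nat.Prime.not_coprime_iff_dvd.mpr ⟨p, hpp, hpk, hpQ⟩ hkQ
  have hβn := hcmβ n hn (Dvd.dvd.mul_right (dvd_mul_left n m) n') hnQ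
  have hβn' := hcmβ n' hn' (dvd_mul_left n' _) hnQ'
  apply comp_zero (m * n * n') _ (tw_per h m n n') β hβ1
    (u ^ n.factorization q * conj (u ^ n'.factorization q))
  · intro h1
    apply hqne
    have huu : conj u * u = 1 := by rw [Complex.conj_mul', hun]; norm_num
    have h2 : u ^ n.factorization q = u ^ n'.factorization q := by
      calc u ^ n.factorization q = u ^ n.factorization q * (conj u * u) ^ n'.factorization q := by
            rw [huu, one_pow, mul_one]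
        _ = (u ^ n.factorization q * conj (u ^ n'.factorization q)) * u ^ n'.factorization q := by
            rw [mul_pow, map_pow]; ring
        _ = _ := by rw [h1, one_mul]
    have h4 : u ≠ 0 := by
      intro h5; rw [h5, norm_zero] at hun; norm_num at hun
    have ho : d = orderOf (Units.mk0 u h4) := by
      rw [← orderOf_units, Units.val_mk0]
      exact hβ2.eq_orderOf
    rw [ho]
    apply pow_eq_pow_iff_modEq.mp
    apply Units.ext
    rw [Units.val_pow_eq_pow_val, Units.val_pow_eq_pow_val, Units.val_mk0]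
    exact h2
  · intro α
    unfold tw
    have e1 : (m : ℤ) ∣ (β * α).norm ↔ (m : ℤ) ∣ α.norm := by
      rw [map_mul]
      have hcop : IsCoprime β.norm (m : ℤ) := by
        apply hβ1.of_isCoprime_of_dvd_right
        exact_mod_cast Dvd.dvd.mul_right (dvd_mul_right m n) n'
      constructor
      · intro h1; exact hcop.symm.dvd_of_dvd_mul_left h1
      · intro h1; exact Dvd.dvd.mul_left h1 _
    rw [h.cm_mul' β α n, h.cm_mul' β α n', hβn, hβn', map_mul (starRingEnd ℂ)]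
    by_cases h5 : (m : ℤ) ∣ α.norm
    · rw [if_pos (e1.mpr h5), if_pos h5]; ring
    · rw [if_neg (fun h6 => h5 (e1.mp h6)), if_neg h5]; ring

/-- the sieve weight -/
noncomputable def wt (D : Finset ℕ) (w : ℕ → ℝ) (α : QuadraticAlgebra ℤ A B) : ℝ :=
  open Classical in (∑ m ∈ D.filter (fun m : ℕ => (m : ℤ) ∣ α.norm), w m) ^ 2

lemma wt_expand (D : Finset ℕ) (w : ℕ → ℝ) (n n' : ℕ) (Y : ℕ) :
    ∑ z ∈ box Y, (wt D w (⟨z.1, z.2⟩ : QuadraticAlgebra ℤ A B) : ℂ) *
      cm (fun q => ψ q ⟨z.1, z.2⟩) n * conj (cm (fun q => ψ q ⟨z.1, z.2⟩) n') =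
    ∑ m ∈ D, ∑ m' ∈ D, ((w m * w m' : ℝ) : ℂ) *
      ∑ z ∈ box Y, tw ψ (m.lcm m') n n' ⟨z.1, z.2⟩ := by
  classical
  have h1 : ∀ z ∈ box Y, (wt D w (⟨z.1, z.2⟩ : QuadraticAlgebra ℤ A B) : ℂ) *
      cm (fun q => ψ q ⟨z.1, z.2⟩) n * conj (cm (fun q => ψ q ⟨z.1, z.2⟩) n') =
      ∑ m ∈ D, ∑ m' ∈ D, ((w m * w m' : ℝ) : ℂ) * tw ψ (m.lcm m') n n' ⟨z.1, z.2⟩ := by
    intro z _
    unfold wt
    rw [sum_filter, sq, sum_mul_sum]
    push_cast
    rw [sum_mul, sum_mul]
    apply sum_congr rfl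
    intro m _
    rw [sum_mul, sum_mul]
    apply sum_congr rfl
    intro m' _
    unfold tw
    have e1 : (((m.lcm m' : ℕ)) : ℤ) ∣ (⟨z.1, z.2⟩ : QuadraticAlgebra ℤ A B).norm ↔
        (m : ℤ) ∣ (⟨z.1, z.2⟩ : QuadraticAlgebra ℤ A B).norm ∧
        (m' : ℤ) ∣ (⟨z.1, z.2⟩ : QuadraticAlgebra ℤ A B).norm := by
      rw [Int.natCast_dvd, Int.natCast_dvd, Int.natCast_dvd, Nat.lcm_dvd_iff]
    by_cases h2 : (m : ℤ) ∣ (⟨z.1, z.2⟩ : QuadraticAlgebra ℤ A B).norm
    · by_cases h3 : (m' : ℤ) ∣ (⟨z.1, z.2⟩ : QuadraticAlgebra ℤ A B).norm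
      · rw [if_pos h2, if_pos h3, if_pos (e1.mpr ⟨h2, h3⟩)]; ring
      · rw [if_neg h3, if_neg (fun h4 => h3 (e1.mp h4).2)]; simp
    · rw [if_neg h2, if_neg (fun h4 => h2 (e1.mp h4).1)]; simp
  rw [sum_congr rfl h1, sum_comm]
  apply sum_congr rfl
  intro m _
  rw [sum_comm]
  apply sum_congr rfl
  intro m' _
  rw [mul_sum]

end

end Pool.Agent.R361.QF
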