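import Mathlib
import Pool.Agent.R361.QF.Corr

set_option autoImplicit false

/-! # Bounds for the correlations and for the total weight -/

namespace Pool.Agent.R361.QF

open Finset ArithmeticFunction
open Pool.Agent.Helper923.PPS (selS selW selW_eq_zero abs_selW_le mainSum_selW selS_pos selW_one)
open scoped ComplexConjugate

section

variable {A B : ℤ} {d Q : ℕ} {ψ : ℕ → QuadraticAlgebra ℤ A B → ℂ}

lemma sum_w_bound (D : Finset ℕ) (w : ℕ → ℝ) (R : ℕ) (hD : ∀ m ∈ D, 0 < m)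
    (hw : ∀ m ∈ D, |w m| ≤ m) (hwR : ∀ m ∈ D, R < m → w m = 0) :
    ∑ m ∈ D, |w m| * m ≤ (R : ℝ) ^ 3 := by
  classical
  have h1 : ∑ m ∈ D, |w m| * m = ∑ m ∈ D.filter (fun m => m ≤ R), |w m| * m := by
    rw [sum_filter]
    apply sum_congr rfl
    intro m hm
    split_ifs with h
    · rfl
    · rw [hwR m hm (by omega)]; simp
  rw [h1]
  calc ∑ m ∈ D.filter (fun m => m ≤ R), |w m| * m ≤
        ∑ m ∈ D.filter (fun m => m ≤ R), (R : ℝ) ^ 2 := by
        apply sum_le_sum
        intro m hm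
        rw [mem_filter] at hm
        have h2 : (m : ℝ) ≤ R := by exact_mod_cast hm.2
        have h3 := hw m hm.1
        have h4 : (0 : ℝ) ≤ m := Nat.cast_nonneg _
        calc |w m| * m ≤ m * m := mul_le_mul_of_nonneg_right h3 h4
          _ ≤ R * R := mul_le_mul h2 h2 h4 (by linarith)
          _ = (R : ℝ) ^ 2 := by ring
    _ = #(D.filter (fun m => m ≤ R)) * (R : ℝ) ^ 2 := by rw [sum_const, nsmul_eq_mul]
    _ ≤ R * (R : ℝ) ^ 2 := by
        apply mul_le_mul_of_nonneg_right _ (by positivity)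
        have h2 : D.filter (fun m => m ≤ R) ⊆ Icc 1 R := by
          intro m hm
          rw [mem_filter] at hm
          rw [mem_Icc]
          exact ⟨hD m hm.1, hm.2⟩
        have h3 := card_le_card h2
        rw [Nat.card_Icc] at h3
        have : #(D.filter (fun m => m ≤ R)) ≤ R := by omega
        exact_mod_cast this
    _ = (R : ℝ) ^ 3 := by ring

theorem corr_bound (h : QD A B d Q ψ) (hd : 0 < d) (D : Finset ℕ) (w : ℕ → ℝ) (R : ℕ)
    (hD : ∀ m ∈ D, 0 < m) (hw : ∀ m ∈ D, |w m| ≤ m) (hwR : ∀ m ∈ D, R < m → w m = 0)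
    (n n' : ℕ) (hn : n ≠ 0) (hn' : n' ≠ 0) (hnQ : n.Coprime Q) (hnQ' : n'.Coprime Q)
    (hne : ∃ q, q.Prime ∧ ¬ n.factorization q ≡ n'.factorization q [MOD d])
    (Y : ℕ) (hY : R ^ 2 * n * n' ≤ 2 * Y + 1) :
    ‖∑ z ∈ box Y, (wt D w (⟨z.1, z.2⟩ : QuadraticAlgebra ℤ A B) : ℂ) *
      cm (fun q => ψ q ⟨z.1, z.2⟩) n * conj (cm (fun q => ψ q ⟨z.1, z.2⟩) n')‖ ≤
      3 * (2 * Y + 1) * (n * n') * (R : ℝ) ^ 6 := by
  rw [wt_expand]
  have h1 : ∀ m ∈ D, ∀ m' ∈ D, ‖((w m * w m' : ℝ) : ℂ) *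
      ∑ z ∈ box Y, tw ψ (m.lcm m') n n' ⟨z.1, z.2⟩‖ ≤
      3 * (2 * Y + 1) * (n * n') * ((|w m| * m) * (|w m'| * m')) := by
    intro m hm m' hm'
    rw [norm_mul, Complex.norm_real, Real.norm_eq_abs, abs_mul]
    by_cases hz : w m * w m' = 0
    · have : |w m| * |w m'| = 0 := by rw [← abs_mul, hz, abs_zero]
      rw [this, zero_mul]
      positivity
    · have hmR : m ≤ R := by
        by_contra hcon
        exact hz (by rw [hwR m hm (by omega), zero_mul])
      have hmR' : m' ≤ R := by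
        by_contra hcon
        exact hz (by rw [hwR m' hm' (by omega), mul_zero])
      have hlcm : m.lcm m' ≤ m * m' := Nat.le_of_dvd (Nat.mul_pos (hD m hm) (hD m' hm'))
        (Nat.lcm_dvd (dvd_mul_right _ _) (dvd_mul_left _ _))
      have hlcm0 : 0 < m.lcm m' := Nat.lcm_pos (hD m hm) (hD m' hm')
      have hNZ : NeZero (m.lcm m' * n * n') := ⟨by positivity⟩
      have hL : m.lcm m' * n * n' ≤ 2 * Y + 1 := by
        refine le_trans ?_ hY
        apply Nat.mul_le_mul_right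
        apply Nat.mul_le_mul_right
        refine hlcm.trans ?_
        rw [sq]
        exact Nat.mul_le_mul hmR hmR'
      have h2 := box_comp (m.lcm m' * n * n') Y hL (tw ψ (m.lcm m') n n')
        (tw_per h _ n n') (fun α => tw_norm h hd _ n n' α)
      rw [tw_comp h hd (m.lcm m') n n' hn hn' hnQ hnQ' hne, mul_zero, sub_zero] at h2
      have h3 : ((m.lcm m' * n * n' : ℕ) : ℝ) ≤ (m * m') * (n * n') := by
        have : m.lcm m' * n * n' ≤ (m * m') * (n * n') := by
          rw [mul_assoc]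
          exact Nat.mul_le_mul_right _ hlcm
        exact_mod_cast this
      calc |w m| * |w m'| * ‖∑ z ∈ box Y, tw ψ (m.lcm m') n n' ⟨z.1, z.2⟩‖ ≤
            |w m| * |w m'| * (3 * (2 * Y + 1) * ((m * m') * (n * n'))) := by
            apply mul_le_mul_of_nonneg_left _ (by positivity)
            exact h2.trans (mul_le_mul_of_nonneg_left h3 (by positivity))
        _ = _ := by ring
  calc ‖∑ m ∈ D, ∑ m' ∈ D, ((w m * w m' : ℝ) : ℂ) *
        ∑ z ∈ box Y, tw ψ (m.lcm m') n n' ⟨z.1, z.2⟩‖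
      ≤ ∑ m ∈ D, ∑ m' ∈ D, 3 * (2 * Y + 1) * (n * n') * ((|w m| * m) * (|w m'| * m')) := by
        refine (norm_sum_le _ _).trans (sum_le_sum fun m hm => ?_)
        exact (norm_sum_le _ _).trans (sum_le_sum fun m' hm' => h1 m hm m' hm')
    _ = 3 * (2 * Y + 1) * (n * n') * (∑ m ∈ D, |w m| * m) ^ 2 := by
        rw [sq, sum_mul_sum, mul_sum]
        apply sum_congr rfl
        intro m _
        rw [mul_sum]
    _ ≤ 3 * (2 * Y + 1) * (n * n') * ((R : ℝ) ^ 3) ^ 2 := by
        apply mul_le_mul_of_nonneg_left _ (by positivity)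
        apply pow_le_pow_left₀ (sum_nonneg fun m _ => by positivity)
        exact sum_w_bound D w R hD hw hwR
    _ = _ := by ring

/-- the number of zeros of the norm form modulo a product of split primes -/
lemma zer_formula (P : ℕ) (hP : Squarefree P)
    (hsplit : ∀ p : ℕ, p.Prime → p ∣ P → ∃ r s : ZMod p, r ≠ s ∧ r + s = (B : ZMod p) ∧
      r * s = -(A : ZMod p)) (L : ℕ) (hL : L ∣ P) [NeZero L] :
    (zer A B L : ℝ) = (L : ℝ) ^ 2 * (sv P hP).nu L := by
  have key : ∀ s : Finset ℕ, (∀ p ∈ s, p.Prime ∧ p ∣ P) → ∀ L : ℕ, L = ∏ p ∈ s, p →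
      ∀ hN : NeZero L, (zer A B L : ℝ) = (L : ℝ) ^ 2 * ∏ p ∈ s, dens p := by
    intro s
    induction s using Finset.induction_on with
    | empty =>
      intro _ L hL hN
      rw [prod_empty] at hL
      subst hL
      rw [zer_one]
      simp
    | insert p s hp ih =>
      intro hs L hL hN
      rw [prod_insert hp] at hL
      have hpp := (hs p (mem_insert_self _ _)).1
      have hs' : ∀ q ∈ s, q.Prime ∧ q ∣ P := fun q hq => hs q (mem_insert_of_mem hq)
      have hcop : p.Coprime (∏ q ∈ s, q) := by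
        apply Nat.Coprime.prod_right
        intro q hq
        exact (Nat.coprime_primes hpp (hs' q hq).1).mpr (fun h => hp (h ▸ hq))
      have hfp : Fact p.Prime := ⟨hpp⟩
      have hNp : NeZero p := ⟨hpp.ne_zero⟩
      have hNs : NeZero (∏ q ∈ s, q) := ⟨prod_ne_zero_iff.mpr fun q hq => (hs' q hq).1.ne_zero⟩
      subst hL
      rw [zer_mul p (∏ q ∈ s, q) hcop]
      push_cast
      rw [ih hs' _ rfl hNs, prod_insert hp]
      obtain ⟨r, t, hrt, h1, h2⟩ := hsplit p hpp (hs p (mem_insert_self _ _)).2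
      rw [zer_prime p r t hrt h1 h2]
      have h3 : ((2 * p - 1 : ℕ) : ℝ) = 2 * p - 1 := by
        have : 1 ≤ 2 * p := by have := hpp.one_lt; omega
        rw [Nat.cast_sub this]; push_cast; ring
      rw [h3, dens]
      have hp0 : (p : ℝ) ≠ 0 := by exact_mod_cast hpp.ne_zero
      field_simp
      push_cast
      ring
  have hL0 : L ≠ 0 := NeZero.ne L
  have hLs : Squarefree L := hP.squarefree_of_dvd hL
  rw [key L.primeFactors (fun p hp => ⟨Nat.prime_of_mem_primeFactors hp,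
    (Nat.dvd_of_mem_primeFactors hp).trans hL⟩) L
    (Nat.prod_primeFactors_of_squarefree hLs).symm inferInstance]
  congr 1
  change _ = prodPrimeFactors dens L
  rw [prodPrimeFactors_apply hL0]

theorem main_bound (P : ℕ) (hP : Squarefree P)
    (hsplit : ∀ p : ℕ, p.Prime → p ∣ P → ∃ r s : ZMod p, r ≠ s ∧ r + s = (B : ZMod p) ∧
      r * s = -(A : ZMod p)) (w : ℕ → ℝ) (R : ℕ)
    (hw : ∀ m ∈ P.divisors, |w m| ≤ m) (hwR : ∀ m ∈ P.divisors, R < m → w m = 0)
    (Y : ℕ) (hY : R ^ 2 ≤ 2 * Y + 1) :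
    ∑ z ∈ box Y, wt P.divisors w (⟨z.1, z.2⟩ : QuadraticAlgebra ℤ A B) ≤
      (2 * Y + 1) ^ 2 * (sv P hP).mainSum (BoundingSieve.lambdaSquared w) +
        3 * (2 * Y + 1) * (R : ℝ) ^ 6 := by
  classical
  set D := P.divisors with hDdef
  have hD : ∀ m ∈ D, 0 < m := fun m hm => Nat.pos_of_mem_divisors hm
  set M : ℝ := 2 * Y + 1 with hM
  have hM0 : 0 < M := by positivity
  have hexp : ∑ z ∈ box Y, wt D w (⟨z.1, z.2⟩ : QuadraticAlgebra ℤ A B) =
      ∑ m ∈ D, ∑ m' ∈ D, (w m * w m') * ∑ z ∈ box Y,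
        (if ((m.lcm m' : ℕ) : ℤ) ∣ (⟨z.1, z.2⟩ : QuadraticAlgebra ℤ A B).norm then (1 : ℝ)
          else 0) := by
    have h1 : ∀ z ∈ box Y, wt D w (⟨z.1, z.2⟩ : QuadraticAlgebra ℤ A B) =
        ∑ m ∈ D, ∑ m' ∈ D, (w m * w m') *
          (if ((m.lcm m' : ℕ) : ℤ) ∣ (⟨z.1, z.2⟩ : QuadraticAlgebra ℤ A B).norm then (1 : ℝ)
            else 0) := by
      intro z _
      unfold wt
      rw [sum_filter, sq, sum_mul_sum]
      apply sum_congr rfl
      intro m _
      apply sum_congr rfl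
      intro m' _
      have e1 : (((m.lcm m' : ℕ)) : ℤ) ∣ (⟨z.1, z.2⟩ : QuadraticAlgebra ℤ A B).norm ↔
          (m : ℤ) ∣ (⟨z.1, z.2⟩ : QuadraticAlgebra ℤ A B).norm ∧
          (m' : ℤ) ∣ (⟨z.1, z.2⟩ : QuadraticAlgebra ℤ A B).norm := by
        rw [Int.natCast_dvd, Int.natCast_dvd, Int.natCast_dvd, Nat.lcm_dvd_iff]
      by_cases h2 : (m : ℤ) ∣ (⟨z.1, z.2⟩ : QuadraticAlgebra ℤ A B).norm
      · by_cases h3 : (m' : ℤ) ∣ (⟨z.1, z.2⟩ : QuadraticAlgebra ℤ A B).norm
        · rw [if_pos h2, if_pos h3, if_pos (e1.mpr ⟨h2, h3⟩)]; ring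
        · rw [if_neg h3, if_neg (fun h4 => h3 (e1.mp h4).2)]; simp
      · rw [if_neg h2, if_neg (fun h4 => h2 (e1.mp h4).1)]; simp
    rw [sum_congr rfl h1, sum_comm]
    apply sum_congr rfl
    intro m _
    rw [sum_comm]
    apply sum_congr rfl
    intro m' _
    rw [mul_sum]
  have hterm : ∀ m ∈ D, ∀ m' ∈ D, (w m * w m') * ∑ z ∈ box Y,
        (if ((m.lcm m' : ℕ) : ℤ) ∣ (⟨z.1, z.2⟩ : QuadraticAlgebra ℤ A B).norm then (1 : ℝ)
          else 0) ≤
      M ^ 2 * ((sv P hP).nu m * w m * (sv P hP).nu m' * w m' * ((sv P hP).nu (m.gcd m'))⁻¹) +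
      3 * M * ((|w m| * m) * (|w m'| * m')) := by
    intro m hm m' hm'
    have hmP : m ∣ P := Nat.dvd_of_mem_divisors hm
    have hmP' : m' ∣ P := Nat.dvd_of_mem_divisors hm'
    have hlP : m.lcm m' ∣ P := Nat.lcm_dvd hmP hmP'
    have hgP : m.gcd m' ∣ P := (Nat.gcd_dvd_left m m').trans hmP
    have hlcm0 : 0 < m.lcm m' := Nat.lcm_pos (hD m hm) (hD m' hm')
    have hNZ : NeZero (m.lcm m') := ⟨hlcm0.ne'⟩
    have hnulcm : (sv P hP).nu (m.lcm m') =
        (sv P hP).nu m * (sv P hP).nu m' * ((sv P hP).nu (m.gcd m'))⁻¹ := by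
      rw [(sv P hP).nu_mult.map_lcm]
      · rw [div_eq_mul_inv]
      · exact (BoundingSieve.nu_pos_of_dvd_prodPrimes (s := sv P hP) hgP).ne'
    by_cases hz : w m * w m' = 0
    · rw [hz, zero_mul]
      have h4 : (sv P hP).nu m * w m * (sv P hP).nu m' * w m' * ((sv P hP).nu (m.gcd m'))⁻¹ =
          (w m * w m') * ((sv P hP).nu m * (sv P hP).nu m' * ((sv P hP).nu (m.gcd m'))⁻¹) := by
        ring
      rw [h4, hz, zero_mul, mul_zero, zero_add]
      positivity
    · have hmR : m ≤ R := by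
        by_contra hcon
        exact hz (by rw [hwR m hm (by omega), zero_mul])
      have hmR' : m' ≤ R := by
        by_contra hcon
        exact hz (by rw [hwR m' hm' (by omega), mul_zero])
      have hlcm : m.lcm m' ≤ m * m' := Nat.le_of_dvd (Nat.mul_pos (hD m hm) (hD m' hm'))
        (Nat.lcm_dvd (dvd_mul_right _ _) (dvd_mul_left _ _))
      have hL : m.lcm m' ≤ 2 * Y + 1 := by
        refine le_trans ?_ hY
        refine hlcm.trans ?_
        rw [sq]
        exact Nat.mul_le_mul hmR hmR'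
      set S : ℝ := ∑ z ∈ box Y,
        (if ((m.lcm m' : ℕ) : ℤ) ∣ (⟨z.1, z.2⟩ : QuadraticAlgebra ℤ A B).norm then (1 : ℝ)
          else 0) with hS
      have h2 := box_comp (A := A) (B := B) (m.lcm m') Y hL
        (fun α => if ((m.lcm m' : ℕ) : ℤ) ∣ α.norm then (1 : ℂ) else 0) ?_ ?_
      · rw [comp_dvd] at h2
        have h3 : (∑ z ∈ box Y, (fun α : QuadraticAlgebra ℤ A B =>
            if ((m.lcm m' : ℕ) : ℤ) ∣ α.norm then (1 : ℂ) else 0) ⟨z.1, z.2⟩) = (S : ℂ) := by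
          rw [hS]
          push_cast
          apply sum_congr rfl
          intro z _
          split_ifs <;> simp
        rw [h3] at h2
        have h4 : (S : ℂ) - ((((2 * Y + 1 : ℝ) / (m.lcm m' : ℕ)) ^ 2 : ℝ) : ℂ) * (zer A B (m.lcm m') : ℂ) =
            ((S - (M / (m.lcm m' : ℕ)) ^ 2 * (zer A B (m.lcm m') : ℝ) : ℝ) : ℂ) := by
          rw [hM]; push_cast; ring
        rw [h4, Complex.norm_real, Real.norm_eq_abs,
          zer_formula (A := A) (B := B) P hP hsplit (m.lcm m') hlP] at h2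
        have hl0 : ((m.lcm m' : ℕ) : ℝ) ≠ 0 := by exact_mod_cast hlcm0.ne'
        have h5 : (M / (m.lcm m' : ℕ)) ^ 2 * (((m.lcm m' : ℕ) : ℝ) ^ 2 * (sv P hP).nu (m.lcm m')) =
            M ^ 2 * (sv P hP).nu (m.lcm m') := by
          field_simp
        rw [h5] at h2
        have h6 : (w m * w m') * S ≤ (w m * w m') * (M ^ 2 * (sv P hP).nu (m.lcm m')) +
            |w m * w m'| * (3 * (2 * Y + 1) * (m.lcm m' : ℕ)) := by
          have h7 : (w m * w m') * (S - M ^ 2 * (sv P hP).nu (m.lcm m')) ≤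
              |w m * w m'| * |S - M ^ 2 * (sv P hP).nu (m.lcm m')| := by
            rw [← abs_mul]; exact le_abs_self _
          have h8 := mul_le_mul_of_nonneg_left h2 (abs_nonneg (w m * w m'))
          linarith
        refine h6.trans (add_le_add (le_of_eq ?_) ?_)
        · rw [hnulcm]; ring
        · rw [abs_mul]
          have h9 : ((m.lcm m' : ℕ) : ℝ) ≤ m * m' := by exact_mod_cast hlcm
          calc |w m| * |w m'| * (3 * (2 * Y + 1) * (m.lcm m' : ℕ)) ≤
                |w m| * |w m'| * (3 * (2 * Y + 1) * (m * m')) := by gcongr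
            _ = _ := by rw [hM]; ring
      · intro α β h3 h4
        have h5 := norm_per (m.lcm m') α β h3 h4
        have h6 : ((m.lcm m' : ℕ) : ℤ) ∣ α.norm ↔ ((m.lcm m' : ℕ) : ℤ) ∣ β.norm := by
          constructor
          · intro h6
            have : β.norm = α.norm - (α.norm - β.norm) := by ring
            rw [this]; exact dvd_sub h6 h5
          · intro h6
            have : α.norm = β.norm + (α.norm - β.norm) := by ring
            rw [this]; exact dvd_add h6 h5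
        simp only [h6]
      · intro α
        split_ifs <;> simp
  rw [hexp, BoundingSieve.mainSum_lambdaSquared_eq_sum_sum_mul]
  calc _ ≤ ∑ m ∈ D, ∑ m' ∈ D, (M ^ 2 * ((sv P hP).nu m * w m * (sv P hP).nu m' * w m' *
        ((sv P hP).nu (m.gcd m'))⁻¹) + 3 * M * ((|w m| * m) * (|w m'| * m'))) :=
        sum_le_sum fun m hm => sum_le_sum fun m' hm' => hterm m hm m' hm'
    _ = M ^ 2 * ∑ m ∈ D, ∑ m' ∈ D, ((sv P hP).nu m * w m * (sv P hP).nu m' * w m' *
        ((sv P hP).nu (m.gcd m'))⁻¹) + 3 * M * (∑ m ∈ D, |w m| * m) ^ 2 := by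
        rw [sq (∑ m ∈ D, |w m| * m), sum_mul_sum, mul_sum, mul_sum, ← sum_add_distrib]
        apply sum_congr rfl
        intro m _
        rw [mul_sum, mul_sum, ← sum_add_distrib]
    _ ≤ _ := by
        apply add_le_add le_rfl
        have h1 := pow_le_pow_left₀ (sum_nonneg fun m _ => by positivity)
          (sum_w_bound D w R hD hw hwR) 2
        calc 3 * M * (∑ m ∈ D, |w m| * m) ^ 2 ≤ 3 * M * ((R : ℝ) ^ 3) ^ 2 :=
              mul_le_mul_of_nonneg_left h1 (by positivity)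
          _ = _ := by ring

end

end Pool.Agent.R361.QF
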