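import Mathlib
import Pool.Agent.R361.QF.Bound
import Pool.Agent.R361.AC.Count

set_option autoImplicit false

/-! # The generic counting theorem -/

namespace Pool.Agent.R361.QF

open Finset ArithmeticFunction Filter Topology
open Pool.Agent.Helper923.PPS (selS selW selW_eq_zero abs_selW_le mainSum_selW selS_pos selW_one)
open scoped ComplexConjugate

/-- the length of the sums -/
noncomputable def Nf (x : ℕ) : ℕ := ⌊(x : ℝ) ^ (1 / 40 : ℝ)⌋₊

/-- half the side of the box -/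
def Yf (x : ℕ) : ℕ := 2 * Nat.sqrt x + 2

lemma Nf_le (x : ℕ) : (Nf x : ℝ) ≤ (x : ℝ) ^ (1 / 40 : ℝ) := Nat.floor_le (by positivity)

lemma lt_Nf (x : ℕ) : (x : ℝ) ^ (1 / 40 : ℝ) < Nf x + 1 := Nat.lt_floor_add_one _

lemma Nf_tendsto : Tendsto Nf atTop atTop := by
  apply tendsto_nat_floor_atTop.comp
  exact (tendsto_rpow_atTop (by norm_num : (0 : ℝ) < 1 / 40)).comp tendsto_natCast_atTop_atTop

lemma Yf_bound (x : ℕ) (hx : 1 ≤ x) : (2 * (Yf x : ℝ) + 1) ≤ 9 * (x : ℝ) ^ (1 / 2 : ℝ) := by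
  have h1 : (Nat.sqrt x : ℝ) ≤ (x : ℝ) ^ (1 / 2 : ℝ) := by
    rw [← Real.sqrt_eq_rpow]; exact Real.nat_sqrt_le_real_sqrt
  have h2 : 1 ≤ (x : ℝ) ^ (1 / 2 : ℝ) := Real.one_le_rpow (by exact_mod_cast hx) (by norm_num)
  unfold Yf
  push_cast
  linarith

lemma Yf_lower (x : ℕ) : (x : ℝ) ^ (1 / 2 : ℝ) ≤ 2 * (Yf x : ℝ) + 1 := by
  have h1 : Real.sqrt x < Nat.sqrt x + 1 := by
    rw [Real.sqrt_lt' (by positivity)]
    have := Nat.lt_succ_sqrt x
    have h2 : x < (Nat.sqrt x + 1) * (Nat.sqrt x + 1) := this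
    have h3 : (x : ℝ) < ((Nat.sqrt x : ℝ) + 1) * ((Nat.sqrt x : ℝ) + 1) := by exact_mod_cast h2
    nlinarith
  rw [← Real.sqrt_eq_rpow]
  unfold Yf
  push_cast
  have : (0 : ℝ) ≤ Nat.sqrt x := Nat.cast_nonneg _
  linarith

lemma nu_inv_le (P : ℕ) (hP : Squarefree P) (m : ℕ) (hm : m ∣ P) : ((sv P hP).nu m)⁻¹ ≤ m := by
  have hms := hP.squarefree_of_dvd hm
  have h1 : (sv P hP).nu m = ∏ p ∈ m.primeFactors, dens p := by
    change prodPrimeFactors dens m = _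
    rw [prodPrimeFactors_apply hms.ne_zero]
  have h2 : (m : ℝ) = ∏ p ∈ m.primeFactors, (p : ℝ) := by
    rw [← Nat.cast_prod, Nat.prod_primeFactors_of_squarefree hms]
  rw [h1, ← prod_inv_distrib, h2]
  apply Finset.prod_le_prod
  · intro p hp
    have h3 : (2 : ℝ) ≤ p := by exact_mod_cast (Nat.prime_of_mem_primeFactors hp).two_le
    rw [inv_nonneg, dens]
    apply div_nonneg <;> nlinarith
  · intro p hp
    have h3 : (2 : ℝ) ≤ p := by exact_mod_cast (Nat.prime_of_mem_primeFactors hp).two_le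
    rw [dens, inv_div, div_le_iff₀ (by linarith)]
    nlinarith

theorem generic_count {A B : ℤ} (h : ℕ) (hh : 0 < h) (Q : ℕ) (hQ : 0 < Q)
    (ψ : ℕ → QuadraticAlgebra ℤ A B → ℂ) (hψ : QD A B (2 * h) Q ψ)
    (σ : ℕ → ℂ) (hσ : ∀ q, σ q = 1 ∨ σ q = -1)
    (χ : ℕ →*₀ ℤ) (r : ℕ) (hr : r.Prime)
    (hχ : ∀ p : ℕ, p.Prime → p ≠ r → χ p = 1 ∨ χ p = -1) (hχr : χ r = 0)
    (c0 : ℝ) (hc0 : 0 < c0) (hc : ∀ t : ℕ, 1 ≤ t → c0 ≤ ∑ k ∈ Icc 1 t, (χ k : ℝ) / k)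
    (hsplit : ∀ p : ℕ, p.Prime → χ p = 1 → ∃ r s : ZMod p, r ≠ s ∧ r + s = (B : ZMod p) ∧
      r * s = -(A : ZMod p))
    (hsize : ∀ (α : QuadraticAlgebra ℤ A B) (x : ℕ), α.norm ≤ x →
      |α.re| ≤ Yf x ∧ |α.im| ≤ Yf x)
    (P : Set ℕ) (hP : ∀ p ∈ P, p.Prime) (J : ℕ → QuadraticAlgebra ℤ A B)
    (hJ : ∀ p ∈ P, (J p).norm = p)
    (hJ0 : ∀ p ∈ P, ∀ q : ℕ, q.Prime → ¬ q ∣ Q → q ≠ p → ψ q (J p) ≠ 0)
    (T : Set ℝ) (hT0 : ∀ t ∈ T, 0 < t) (hTf : ∀ R, (T ∩ Set.Iic R).Finite)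
    (Bd : ℕ → Prop)
    (happ : ∀ η : ℝ, 0 < η → ∀ᶠ x : ℕ in atTop, ∃ Exc : Finset ℕ,
      (#Exc : ℝ) ≤ (x : ℝ) ^ (3 / 4 : ℝ) ∧ ∀ p ∈ P, x < p ^ 2 → p ≤ x → p ∉ Exc → Bd p →
        ∃ t ∈ T, |‖∑ n ∈ Icc 1 (Nf x), cm (fun q => σ q * ψ q (J p)) n / n‖ ^ 2 - t| ≤ η)
    (ε : ℝ) (hε : 0 < ε) :
    ∀ᶠ x : ℕ in atTop,
      (Nat.card {p : ℕ | p ≤ x ∧ p ∈ P ∧ Bd p} : ℝ) ≤ ε * (x / Real.log x) := by
  classical
  obtain ⟨c1, hc1, hsel⟩ := selS_lower χ r hr hχ hχr c0 hc0 hc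
  have hNZ : NeZero (2 * h) := ⟨by omega⟩
  have hd : 0 < 2 * h := by omega
  -- notation
  set s : ℕ → BoundingSieve := fun x => sv (Pz χ (Nf x)) (Pz_sqfree χ (Nf x)) with hs
  set w : ℕ → ℕ → ℝ := fun x => selW (s x) (Nf x) with hw
  set D : ℕ → Finset ℕ := fun x => (Pz χ (Nf x)).divisors with hD
  set W : ℕ → ℤ × ℤ → ℝ := fun x z => wt (D x) (w x) (⟨z.1, z.2⟩ : QuadraticAlgebra ℤ A B) with hWd
  set Ψ : ℤ × ℤ → ℕ →*₀ ℂ := fun z => cm (fun q => σ q * ψ q ⟨z.1, z.2⟩) with hΨd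
  set e : ℕ → ℝ := fun x => 27 * (x : ℝ) ^ (7 / 10 : ℝ) with he
  -- growth facts
  have elog : ∀ᶠ x : ℕ in atTop, 1 ≤ Real.log x := AC.tendsto_log_nat.eventually_ge_atTop 1
  have eN1 : ∀ᶠ x : ℕ in atTop, 1 ≤ Nf x := Nf_tendsto.eventually_ge_atTop 1
  have hpow : ∀ x : ℕ, 1 ≤ x → ∀ a b : ℝ, a ≤ b → (x : ℝ) ^ a ≤ (x : ℝ) ^ b := by
    intro x hx a b hab
    exact Real.rpow_le_rpow_of_exponent_le (by exact_mod_cast hx) hab
  have hNk : ∀ x k : ℕ, (Nf x : ℝ) ^ k ≤ (x : ℝ) ^ ((k : ℝ) / 40) := by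
    intro x k
    calc (Nf x : ℝ) ^ k ≤ ((x : ℝ) ^ (1 / 40 : ℝ)) ^ k :=
          pow_le_pow_left₀ (Nat.cast_nonneg _) (Nf_le x) k
      _ = _ := by
          rw [← Real.rpow_natCast, ← Real.rpow_mul (Nat.cast_nonneg _)]
          congr 1; ring
  -- the weights
  have hwD : ∀ x, 1 ≤ Nf x → ∀ m ∈ D x, |w x m| ≤ m := by
    intro x hx m hm
    have hmP : m ∣ (s x).prodPrimes := Nat.dvd_of_mem_divisors hm
    have h1 := abs_selW_le (s x) (Nf x : ℝ) (by exact_mod_cast hx) hmP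
    exact h1.trans (nu_inv_le _ (Pz_sqfree χ (Nf x)) m hmP)
  have hwR : ∀ x, ∀ m ∈ D x, Nf x < m → w x m = 0 := by
    intro x m _ hm
    exact selW_eq_zero (s x) (Nf x : ℝ) (by exact_mod_cast hm)
  have hDpos : ∀ x, ∀ m ∈ D x, 0 < m := fun x m hm => Nat.pos_of_mem_divisors hm
  -- the small condition
  have hYN : ∀ x : ℕ, 1 ≤ x → (Nf x) ^ 4 ≤ 2 * Yf x + 1 := by
    intro x hx
    have h1 : ((Nf x : ℝ)) ^ 4 ≤ 2 * (Yf x : ℝ) + 1 := by
      refine (hNk x 4).trans (le_trans ?_ (Yf_lower x))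
      exact hpow x hx _ _ (by norm_num)
    exact_mod_cast h1
  have hmain : ∀ᶠ x : ℕ in atTop, ∑ a ∈ box (Yf x), W x a ≤
      (81 * 40 / c1 + 27) * (x / Real.log x) := by
    filter_upwards [elog, eN1, eventually_ge_atTop 1,
      AC.log_pow_le 1 1 (1 / 4) (by norm_num) one_pos] with x hx1 hx2 hx3 hx4
    have hx0 : (0 : ℝ) < x := by exact_mod_cast hx3
    have hL0 : 0 < Real.log x := by linarith
    have h1 := main_bound (A := A) (B := B) (Pz χ (Nf x)) (Pz_sqfree χ (Nf x))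
      (fun p hp hpP => hsplit p hp ((Pz_prime χ (Nf x) p hp).mp hpP).2) (w x) (Nf x)
      (hwD x hx2) (hwR x) (Yf x) (by
        have h2 := hYN x hx3
        have h3 : (Nf x) ^ 2 ≤ (Nf x) ^ 4 := Nat.pow_le_pow_right hx2 (by norm_num)
        omega)
    refine h1.trans ?_
    have h2 : (sv (Pz χ (Nf x)) (Pz_sqfree χ (Nf x))).mainSum (BoundingSieve.lambdaSquared (w x)) =
        (selS (s x) (Nf x))⁻¹ := mainSum_selW (s x) (Nf x : ℝ) (by exact_mod_cast hx2)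
    rw [h2]
    have h3 := Yf_bound x hx3
    have h4 : (0 : ℝ) < 2 * (Yf x : ℝ) + 1 := by positivity
    have h5 : (2 * (Yf x : ℝ) + 1) ^ 2 ≤ 81 * x := by
      have h6 : (2 * (Yf x : ℝ) + 1) ^ 2 ≤ (9 * (x : ℝ) ^ (1 / 2 : ℝ)) ^ 2 :=
        pow_le_pow_left₀ h4.le h3 2
      refine h6.trans (le_of_eq ?_)
      have h7 : ((x : ℝ) ^ (1 / 2 : ℝ)) ^ 2 = x := by
        rw [← Real.rpow_natCast, ← Real.rpow_mul hx0.le]; norm_num
      rw [mul_pow, h7]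
      norm_num
    have h6 : 1 / 40 * Real.log x ≤ Real.log ((Nf x : ℝ) + 1) := by
      have h7 := Real.log_le_log (by positivity) (lt_Nf x).le
      rwa [Real.log_rpow hx0] at h7
    have h7 : c1 / 40 * Real.log x ≤ selS (s x) (Nf x) := by
      refine le_trans ?_ (hsel (Nf x))
      have := mul_le_mul_of_nonneg_left h6 hc1.le
      linarith
    have h8 : 0 < c1 / 40 * Real.log x := by positivity
    have h9 : (selS (s x) (Nf x))⁻¹ ≤ (c1 / 40 * Real.log x)⁻¹ := inv_anti₀ h8 h7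
    have h10 : (2 * (Yf x : ℝ) + 1) ^ 2 * (selS (s x) (Nf x))⁻¹ ≤
        81 * 40 / c1 * (x / Real.log x) := by
      calc (2 * (Yf x : ℝ) + 1) ^ 2 * (selS (s x) (Nf x))⁻¹ ≤
            (81 * x) * (c1 / 40 * Real.log x)⁻¹ :=
            mul_le_mul h5 h9 (inv_nonneg.mpr (h8.le.trans h7)) (by positivity)
        _ = _ := by field_simp
    have h11 : 3 * (2 * (Yf x : ℝ) + 1) * (Nf x : ℝ) ^ 6 ≤ 27 * (x / Real.log x) := by
      have h12 : (x : ℝ) ^ (13 / 20 : ℝ) ≤ x / Real.log x := by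
        rw [le_div_iff₀ hL0]
        rw [one_mul, pow_one] at hx4
        calc (x : ℝ) ^ (13 / 20 : ℝ) * Real.log x ≤ (x : ℝ) ^ (13 / 20 : ℝ) * (x : ℝ) ^ (1 / 4 : ℝ) :=
              mul_le_mul_of_nonneg_left hx4 (by positivity)
          _ = (x : ℝ) ^ (9 / 10 : ℝ) := by rw [← Real.rpow_add hx0]; norm_num
          _ ≤ (x : ℝ) ^ (1 : ℝ) := hpow x hx3 _ _ (by norm_num)
          _ = x := Real.rpow_one _
      calc 3 * (2 * (Yf x : ℝ) + 1) * (Nf x : ℝ) ^ 6 ≤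
            3 * (9 * (x : ℝ) ^ (1 / 2 : ℝ)) * (x : ℝ) ^ (((6 : ℕ) : ℝ) / 40) := by
            apply mul_le_mul _ (hNk x 6) (by positivity) (by positivity)
            linarith
        _ = 27 * (x : ℝ) ^ (13 / 20 : ℝ) := by
            rw [mul_comm 3, mul_assoc, mul_assoc, mul_comm ((x : ℝ) ^ (1 / 2 : ℝ)), mul_assoc,
              ← Real.rpow_add hx0]
            norm_num
            ring
        _ ≤ 27 * (x / Real.log x) := by linarith
    linarith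
  have he' : ∀ θ : ℝ, 0 < θ → ∀ᶠ x : ℕ in atTop,
      (1 + Real.log (Nf x)) ^ 2 * e x ≤ θ * (x / Real.log x) := by
    intro θ hθ
    filter_upwards [elog, eN1, eventually_ge_atTop 1,
      AC.log_pow_le 3 (108 / θ) (1 / 4) (by norm_num) (by positivity)] with x hx1 hx2 hx3 hx4
    have hx0 : (0 : ℝ) < x := by exact_mod_cast hx3
    set L := Real.log x with hL
    have hL0 : 0 < L := by linarith
    have h1 : Real.log (Nf x) ≤ L := by
      apply Real.log_le_log (by exact_mod_cast hx2)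
      refine (Nf_le x).trans ?_
      calc (x : ℝ) ^ (1 / 40 : ℝ) ≤ (x : ℝ) ^ (1 : ℝ) := hpow x hx3 _ _ (by norm_num)
        _ = x := Real.rpow_one _
    have h2 : 0 ≤ Real.log (Nf x) := Real.log_natCast_nonneg _
    have h3 : (1 + Real.log (Nf x)) ^ 2 ≤ (2 * L) ^ 2 :=
      pow_le_pow_left₀ (by linarith) (by linarith) 2
    rw [← mul_div_assoc, le_div_iff₀ hL0]
    have h4 : 108 / θ * L ^ 3 * (x : ℝ) ^ (7 / 10 : ℝ) ≤ x := by
      calc 108 / θ * L ^ 3 * (x : ℝ) ^ (7 / 10 : ℝ) ≤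
            (x : ℝ) ^ (1 / 4 : ℝ) * (x : ℝ) ^ (7 / 10 : ℝ) :=
            mul_le_mul_of_nonneg_right hx4 (by positivity)
        _ = (x : ℝ) ^ (19 / 20 : ℝ) := by rw [← Real.rpow_add hx0]; norm_num
        _ ≤ (x : ℝ) ^ (1 : ℝ) := hpow x hx3 _ _ (by norm_num)
        _ = x := Real.rpow_one _
    calc (1 + Real.log (Nf x)) ^ 2 * (27 * (x : ℝ) ^ (7 / 10 : ℝ)) * L ≤
          (2 * L) ^ 2 * (27 * (x : ℝ) ^ (7 / 10 : ℝ)) * L := by gcongr
      _ = θ * (108 / θ * L ^ 3 * (x : ℝ) ^ (7 / 10 : ℝ)) := by field_simp; ring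
      _ ≤ θ * x := mul_le_mul_of_nonneg_left h4 hθ.le
  have hcorr : ∀ᶠ x in atTop, ∀ n n', 1 ≤ n → n ≤ Nf x → 1 ≤ n' → n' ≤ Nf x → n.Coprime Q →
      n'.Coprime Q → (∃ q, q.Prime ∧ ¬ n.factorization q ≡ n'.factorization q [MOD 2 * h]) →
      ‖∑ a ∈ box (Yf x), (W x a : ℂ) * Ψ a n * conj (Ψ a n')‖ ≤ e x := by
    filter_upwards [eN1, eventually_ge_atTop 1] with x hx2 hx3 n n' hn1 hn2 hn1' hn2' hnQ hnQ' hne
    have hx0 : (0 : ℝ) < x := by exact_mod_cast hx3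
    have h1 := corr_bound hψ hd (D x) (w x) (Nf x) (hDpos x) (hwD x hx2) (hwR x) n n'
      (by omega) (by omega) hnQ hnQ' hne (Yf x) (by
        refine le_trans ?_ (hYN x hx3)
        calc (Nf x) ^ 2 * n * n' ≤ (Nf x) ^ 2 * Nf x * Nf x := by gcongr
          _ = (Nf x) ^ 4 := by ring)
    have h2 : ∑ a ∈ box (Yf x), (W x a : ℂ) * Ψ a n * conj (Ψ a n') =
        (cm σ n * conj (cm σ n')) * ∑ z ∈ box (Yf x),
          (wt (D x) (w x) (⟨z.1, z.2⟩ : QuadraticAlgebra ℤ A B) : ℂ) *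
          cm (fun q => ψ q ⟨z.1, z.2⟩) n * conj (cm (fun q => ψ q ⟨z.1, z.2⟩) n') := by
      rw [mul_sum]
      apply sum_congr rfl
      intro z _
      simp only [hΨd, hWd]
      rw [cm_mul, cm_mul, map_mul]
      ring
    have h3 : ∀ k, ‖cm σ k‖ ≤ 1 := by
      intro k
      apply AC.norm_le_one (cm σ) 2 (by norm_num)
      intro q hq
      right
      rw [cm_prime σ q hq]
      rcases hσ q with h4 | h4 <;> rw [h4] <;> norm_num
    rw [h2, norm_mul, norm_mul, RCLike.norm_conj]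
    have h4 : ‖cm σ n‖ * ‖cm σ n'‖ ≤ 1 := by
      calc _ ≤ 1 * (1 : ℝ) := mul_le_mul (h3 n) (h3 n') (norm_nonneg _) zero_le_one
        _ = 1 := by norm_num
    refine (mul_le_of_le_one_left (norm_nonneg _) h4).trans (h1.trans ?_)
    have h5 := Yf_bound x hx3
    have h6 : (n : ℝ) * n' ≤ (Nf x : ℝ) ^ 2 := by
      have h7 : (n : ℝ) ≤ Nf x := by exact_mod_cast hn2
      have h8 : (n' : ℝ) ≤ Nf x := by exact_mod_cast hn2'
      rw [sq]
      exact mul_le_mul h7 h8 (Nat.cast_nonneg _) (Nat.cast_nonneg _)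
    calc 3 * (2 * (Yf x : ℝ) + 1) * (n * n') * (Nf x : ℝ) ^ 6 ≤
          3 * (9 * (x : ℝ) ^ (1 / 2 : ℝ)) * (Nf x : ℝ) ^ 2 * (Nf x : ℝ) ^ 6 := by gcongr
      _ = 27 * (x : ℝ) ^ (1 / 2 : ℝ) * (Nf x : ℝ) ^ 8 := by ring
      _ ≤ 27 * (x : ℝ) ^ (1 / 2 : ℝ) * (x : ℝ) ^ (((8 : ℕ) : ℝ) / 40) :=
          mul_le_mul_of_nonneg_left (hNk x 8) (by positivity)
      _ = e x := by
          simp only [he]
          rw [mul_assoc, ← Real.rpow_add hx0]
          norm_num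
  -- the primes
  have hJA : ∀ᶠ x in atTop, ∀ p ∈ P, x < p ^ 2 → p ≤ x →
      ((J p).re, (J p).im) ∈ box (Yf x) ∧ 1 ≤ W x ((J p).re, (J p).im) := by
    filter_upwards [eN1, eventually_ge_atTop 1] with x hx2 hx3 p hpP hxp hpx
    have hpp := hP p hpP
    have hx0 : (0 : ℝ) < x := by exact_mod_cast hx3
    have hnorm := hJ p hpP
    have hNp : Nf x < p := by
      have h1 : (Nf x : ℝ) ^ 2 ≤ x := by
        refine (hNk x 2).trans ?_
        calc (x : ℝ) ^ (((2 : ℕ) : ℝ) / 40) ≤ (x : ℝ) ^ (1 : ℝ) := hpow x hx3 _ _ (by norm_num)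
          _ = x := Real.rpow_one _
      have h2 : (Nf x) ^ 2 ≤ x := by exact_mod_cast h1
      exact lt_of_pow_lt_pow_left₀ 2 (Nat.zero_le _) (lt_of_le_of_lt h2 hxp)
    constructor
    · have := hsize (J p) x (by rw [hnorm]; exact_mod_cast hpx)
      rw [box, mem_product, mem_iv, mem_iv]
      exact this
    · simp only [hWd]
      unfold wt
      have h1 : (D x).filter (fun m : ℕ => (m : ℤ) ∣
          (⟨(J p).re, (J p).im⟩ : QuadraticAlgebra ℤ A B).norm) = {1} := by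
        ext m
        rw [mem_filter, mem_singleton]
        constructor
        · rintro ⟨hm1, hm2⟩
          change (m : ℤ) ∣ (J p).norm at hm2
          rw [hnorm, Int.natCast_dvd_natCast] at hm2
          rcases (Nat.dvd_prime hpp).mp hm2 with h2 | h2
          · exact h2
          · exfalso
            rw [h2] at hm1
            have := (Pz_prime χ (Nf x) p hpp).mp (Nat.dvd_of_mem_divisors hm1)
            omega
        · rintro rfl
          refine ⟨?_, by simp⟩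
          rw [hD, Nat.mem_divisors]
          exact ⟨one_dvd _, (Pz_sqfree χ (Nf x)).ne_zero⟩
      rw [h1, sum_singleton]
      have h2 : w x 1 = 1 := selW_one (s x) (Nf x : ℝ) (by exact_mod_cast hx2)
      rw [h2]; norm_num
  have hJ0' : ∀ᶠ x in atTop, ∀ p ∈ P, x < p ^ 2 → p ≤ x →
      ∀ q, q.Prime → ¬ q ∣ Q → q ≤ Nf x → Ψ ((J p).re, (J p).im) q ≠ 0 := by
    filter_upwards [eventually_ge_atTop 1] with x hx3 p hpP hxp hpx q hq hqQ hqN
    have hx0 : (0 : ℝ) < x := by exact_mod_cast hx3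
    have hNp : Nf x < p := by
      have h1 : (Nf x : ℝ) ^ 2 ≤ x := by
        refine (hNk x 2).trans ?_
        calc (x : ℝ) ^ (((2 : ℕ) : ℝ) / 40) ≤ (x : ℝ) ^ (1 : ℝ) := hpow x hx3 _ _ (by norm_num)
          _ = x := Real.rpow_one _
      have h2 : (Nf x) ^ 2 ≤ x := by exact_mod_cast h1
      exact lt_of_pow_lt_pow_left₀ 2 (Nat.zero_le _) (lt_of_le_of_lt h2 hxp)
    simp only [hΨd]
    rw [cm_prime _ q hq]
    apply mul_ne_zero
    · rcases hσ q with h4 | h4 <;> rw [h4] <;> norm_num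
    · exact hJ0 p hpP q hq hqQ (by omega)
  have hinj : Set.InjOn (fun p => ((J p).re, (J p).im)) P := by
    intro p hp p' hp' hpp
    simp only [Prod.mk.injEq] at hpp
    have : J p = J p' := QuadraticAlgebra.ext hpp.1 hpp.2
    have h1 := hJ p hp
    rw [this, hJ p' hp'] at h1
    exact_mod_cast h1.symm
  obtain ⟨ζ, hζ⟩ : ∃ ζ : ℂ, IsPrimitiveRoot ζ (2 * h) :=
    ⟨_, Complex.isPrimitiveRoot_exp (2 * h) (by omega)⟩
  have hfin := AC.bad_count h hh ζ hζ Q hQ Ψ ?_ ?_ (fun x => box (Yf x)) W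
    (fun x a => sq_nonneg _) Nf Nf_tendsto (81 * 40 / c1 + 27) (by positivity) hmain e
    (fun x => by simp only [he]; positivity) he' hcorr T hT0 hTf P
    (fun p => ((J p).re, (J p).im)) hinj hJA hJ0' Bd happ ε hε
  · filter_upwards [hfin] with x hx
    refine le_trans (le_of_eq ?_) hx
    congr 1
    rw [Nat.card_coe_set_eq, ← Set.ncard_coe_finset]
    congr 1
    ext p
    simp only [Set.mem_ofPred_eq, coe_filter, mem_range]
    constructor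
    · rintro ⟨h1, h2, h3⟩; exact ⟨by omega, h2, h3⟩
    · rintro ⟨h1, h2, h3⟩; exact ⟨by omega, h2, h3⟩
  · intro a q hq
    simp only [hΨd]
    rw [cm_prime _ q hq]
    rcases hψ.val q hq ⟨a.1, a.2⟩ with h1 | h1
    · left; rw [h1, mul_zero]
    · right
      rw [mul_pow, h1, mul_one, pow_mul]
      rcases hσ q with h4 | h4 <;> rw [h4] <;> norm_num
  · intro a q hq hqQ
    simp only [hΨd]
    rw [cm_prime _ q hq, hψ.zero q hq hqQ, mul_zero]

end Pool.Agent.R361.QF
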