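import Mathlib
import Pool.Agent.R361.QF.Gen
import Pool.Agent.R361.AC.Approx

set_option autoImplicit false

/-! # Auxiliary analytic facts -/

namespace Pool.Agent.R361.QF

open Finset Filter Topology
open Pool.Agent.R361.AC (oddTo cw)

lemma diff_sq (F D : ℂ) (L : ℝ) (hL : 1 ≤ L) (h : ‖F - D‖ ≤ 8 / L ^ 2) (hD : ‖D‖ ≤ 1 + L) :
    |‖D‖ ^ 2 - ‖F‖ ^ 2| ≤ 96 / L := by
  have h1 : |‖F‖ - ‖D‖| ≤ 8 / L ^ 2 := (abs_norm_sub_norm_le F D).trans h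
  have hL2 : 8 / L ^ 2 ≤ 8 := by
    rw [div_le_iff₀ (by positivity)]
    nlinarith
  have h2 : ‖F‖ ≤ 1 + L + 8 := by
    have := (abs_le.mp h1).2
    linarith
  have h3 : ‖D‖ ^ 2 - ‖F‖ ^ 2 = -((‖F‖ - ‖D‖) * (‖F‖ + ‖D‖)) := by ring
  rw [h3, abs_neg, abs_mul, abs_of_nonneg (by positivity : 0 ≤ ‖F‖ + ‖D‖)]
  have h4 : |‖F‖ - ‖D‖| * (‖F‖ + ‖D‖) ≤ 8 / L ^ 2 * (12 * L) := by
    apply mul_le_mul h1 _ (by positivity) (by positivity)
    linarith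
  refine h4.trans (le_of_eq ?_)
  have : L ≠ 0 := by linarith
  field_simp
  norm_num

lemma ev_small (η : ℝ) (hη : 0 < η) : ∀ᶠ x : ℕ in atTop, 96 / Real.log x ≤ η := by
  filter_upwards [AC.tendsto_log_nat.eventually_ge_atTop (96 / η),
    AC.tendsto_log_nat.eventually_ge_atTop 1] with x hx h1
  rw [div_le_iff₀ (by linarith)]
  rw [div_le_iff₀ hη] at hx
  linarith

lemma cm_eq_hom (f : ℕ → ℂ) (g : ℕ →*₀ ℂ) (n : ℕ) (h : ∀ q ∈ n.primeFactors, f q = g q) :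
    cm f n = g n := by
  rcases Nat.eq_zero_or_pos n with rfl | hn
  · simp
  · rw [cm_congr f g n h, cm_apply _ n hn.ne']
    conv_rhs => rw [← Nat.prod_factorization_pow_eq_self hn.ne']
    rw [Finsupp.prod, map_prod, Nat.support_factorization]
    exact prod_congr rfl fun q _ => (map_pow g _ _).symm

/-- a Dirichlet character as a homomorphism on `ℕ` -/
noncomputable def dh {p : ℕ} (hp : 1 < p) (c : DirichletCharacter ℂ p) : ℕ →*₀ ℂ where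
  toFun n := c (n : ZMod p)
  map_zero' := by
    have : Fact (1 < p) := ⟨hp⟩
    rw [Nat.cast_zero, MulChar.map_zero]
  map_one' := by rw [Nat.cast_one, map_one]
  map_mul' m n := by rw [Nat.cast_mul, map_mul]

lemma dh_apply {p : ℕ} (hp : 1 < p) (c : DirichletCharacter ℂ p) (n : ℕ) :
    dh hp c n = c (n : ZMod p) := rfl

lemma cm_zero_of_dvd (f : ℕ → ℂ) (q n : ℕ) (hq : q.Prime) (hf : f q = 0) (h : q ∣ n) :
    cm f n = 0 := by
  obtain ⟨m, rfl⟩ := h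
  rw [map_mul, cm_prime f q hq, hf, zero_mul]

lemma norm_char_le {p : ℕ} (c : DirichletCharacter ℂ p) (n : ℕ) : ‖c (n : ZMod p)‖ ≤ 1 :=
  DirichletCharacter.norm_le_one c _

lemma norm_short {p : ℕ} (c : DirichletCharacter ℂ p) (N : ℕ) :
    ‖∑ n ∈ oddTo N, c (n : ZMod p) / n‖ ≤ 1 + Real.log N := by
  refine (norm_sum_le _ _).trans (le_trans (sum_le_sum fun n _ => ?_)
    (AC.sum_inv_le N (oddTo N) (filter_subset _ _)))
  rw [norm_div, Complex.norm_natCast]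
  exact div_le_div_of_nonneg_right (norm_char_le c n) (Nat.cast_nonneg _)

lemma ev_pow : ∀ᶠ x : ℕ in atTop, (x : ℝ) ^ (1 / 50 : ℝ) ≤ ((Nf x / 3 : ℕ) : ℝ) ∧
    (x : ℝ) ^ (1 / 50 : ℝ) ≤ Nf x ∧ (Nf x : ℝ) ≤ (x : ℝ) ^ (1 / 4 : ℝ) := by
  have e1 : ∀ᶠ x : ℕ in atTop, (6 : ℝ) ≤ (x : ℝ) ^ (1 / 200 : ℝ) :=
    ((tendsto_rpow_atTop (by norm_num : (0 : ℝ) < 1 / 200)).comp
      tendsto_natCast_atTop_atTop).eventually_ge_atTop 6
  filter_upwards [e1, eventually_ge_atTop 1] with x hx h1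
  have hx1 : (1 : ℝ) ≤ x := by exact_mod_cast h1
  have h2 : 1 ≤ (x : ℝ) ^ (1 / 50 : ℝ) := Real.one_le_rpow hx1 (by norm_num)
  have h3 : (x : ℝ) ^ (1 / 40 : ℝ) = (x : ℝ) ^ (1 / 50 : ℝ) * (x : ℝ) ^ (1 / 200 : ℝ) := by
    rw [← Real.rpow_add (by linarith)]
    norm_num
  have h4 : 6 * (x : ℝ) ^ (1 / 50 : ℝ) ≤ (x : ℝ) ^ (1 / 40 : ℝ) := by
    rw [h3]; nlinarith
  have h5 := lt_Nf x
  have h6 : (Nf x : ℝ) ≤ 3 * ((Nf x / 3 : ℕ) : ℝ) + 2 := by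
    have : Nf x ≤ 3 * (Nf x / 3) + 2 := by omega
    exact_mod_cast this
  refine ⟨by linarith, by linarith, (Nf_le x).trans ?_⟩
  exact Real.rpow_le_rpow_of_exponent_le hx1 (by norm_num)

lemma Nf_lt {x p : ℕ} (hx : 1 ≤ x) (h : x < p ^ 2) : Nf x < p := by
  have hx1 : (1 : ℝ) ≤ x := by exact_mod_cast hx
  have h1 : (Nf x : ℝ) ≤ (x : ℝ) ^ (1 / 2 : ℝ) :=
    (Nf_le x).trans (Real.rpow_le_rpow_of_exponent_le hx1 (by norm_num))
  have h2 : (x : ℝ) ^ (1 / 2 : ℝ) < p := by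
    rw [← Real.sqrt_eq_rpow, Real.sqrt_lt' (by
      rcases Nat.eq_zero_or_pos p with rfl | hp
      · simp at h
      · exact_mod_cast hp)]
    exact_mod_cast h
  exact_mod_cast h1.trans_lt h2

end Pool.Agent.R361.QF
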