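import Mathlib
import Pool.Agent.H332R2.CastLem

set_option autoImplicit false

/-! # Bernoulli numbers and half power sums -/

namespace Pool.Agent.R361.QF

open Finset
open Pool.Agent.H332R2 (den_mul_ne den_nat_ne cast_sum_ok bern_den_ne)

lemma bern_half (m : ℕ) : ∑ i ∈ range (m + 1), bernoulli i * (m.choose i : ℚ) * (2⁻¹ : ℚ) ^ (m - i) =
    (2 / 2 ^ m - 1) * bernoulli m := by
  have h := bernoulliFun_eval_half m
  have h1 : bernoulliFun m 2⁻¹ = ((∑ i ∈ range (m + 1), bernoulli i * (m.choose i : ℚ) *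
      (2⁻¹ : ℚ) ^ (m - i) : ℚ) : ℝ) := by
    unfold bernoulliFun
    rw [Polynomial.bernoulli, Polynomial.map_sum, Polynomial.eval_finsetSum]
    push_cast
    apply sum_congr rfl
    intro i _
    rw [Polynomial.map_monomial, Polynomial.eval_monomial]
    simp
  rw [h1] at h
  have h2 : ((∑ i ∈ range (m + 1), bernoulli i * (m.choose i : ℚ) * (2⁻¹ : ℚ) ^ (m - i) : ℚ) : ℝ) =
    (((2 / 2 ^ m - 1) * bernoulli m : ℚ) : ℝ) := by
    rw [h]; push_cast; rfl
  exact_mod_cast h2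

theorem half_pow_sum (p : ℕ) [hp : Fact p.Prime] (hp3 : 3 ≤ p) (k : ℕ) (hk1 : 1 ≤ k)
    (hk : k + 3 ≤ p) (h : (p : ℤ) ∣ (bernoulli (k + 1)).num) :
    ∑ a ∈ Icc 1 ((p - 1) / 2), (a : ZMod p) ^ k = 0 := by
  have hodd : p % 2 = 1 := by
    rcases hp.out.eq_two_or_odd with h1 | h1
    · omega
    · exact h1
  have h20 : (2 : ZMod p) ≠ 0 := by
    intro h0
    have : ((2 : ℕ) : ZMod p) = 0 := by exact_mod_cast h0
    rw [ZMod.natCast_eq_zero_iff] at this
    have := Nat.le_of_dvd (by norm_num) this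
    omega
  set m := k + 1 with hm
  have hb0 : ((bernoulli m : ℚ) : ZMod p) = 0 := by
    rw [Rat.cast_def, (ZMod.intCast_zmod_eq_zero_iff_dvd _ p).mpr h, zero_div]
  have hbden : ∀ i, i ≤ m → (((bernoulli i).den : ℕ) : ZMod p) ≠ 0 := fun i hi =>
    bern_den_ne (by omega) hp3
  have h2den : (((2⁻¹ : ℚ)).den : ZMod p) ≠ 0 := by
    have : ((2⁻¹ : ℚ)).den = 2 := by norm_num
    rw [this]
    exact_mod_cast h20
  have h2cast : ((2⁻¹ : ℚ) : ZMod p) = 2⁻¹ := by
    rw [Rat.cast_def]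
    have e1 : ((2⁻¹ : ℚ)).den = 2 := by norm_num
    have e2 : ((2⁻¹ : ℚ)).num = 1 := by norm_num
    rw [e1, e2]; simp
  -- the rational identity modulo p
  have key : ∑ i ∈ range m, ((bernoulli i : ℚ) : ZMod p) * (m.choose i : ZMod p) *
      (2⁻¹ : ZMod p) ^ (m - i) = 0 := by
    have h1 := bern_half m
    rw [sum_range_succ, Nat.choose_self, Nat.cast_one, mul_one, Nat.sub_self, pow_zero,
      mul_one] at h1
    have h2 : ∑ i ∈ range m, bernoulli i * (m.choose i : ℚ) * (2⁻¹ : ℚ) ^ (m - i) =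
        (2 * (2⁻¹) ^ m + (-2 : ℤ)) * bernoulli m := by
      have h3 : (2 : ℚ) / 2 ^ m = 2 * (2⁻¹) ^ m := by rw [inv_pow]; rfl
      rw [h3] at h1
      push_cast
      linarith
    have hden : ∀ i ∈ range m, (((bernoulli i * (m.choose i : ℚ) * (2⁻¹ : ℚ) ^ (m - i))).den :
        ZMod p) ≠ 0 := by
      intro i hi
      rw [mem_range] at hi
      exact den_mul_ne (den_mul_ne (hbden i hi.le) (den_nat_ne _))
        (Pool.Agent.H332R2.den_pow_ne h2den _)
    have h4 := (cast_sum_ok (F := ZMod p) (range m) _ hden).2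
    rw [h2] at h4
    have hcoef : ((((2 : ℚ) * (2⁻¹) ^ m + (-2 : ℤ))).den : ZMod p) ≠ 0 := by
      apply Pool.Agent.H332R2.den_add_ne
      · exact den_mul_ne (den_nat_ne 2) (Pool.Agent.H332R2.den_pow_ne h2den _)
      · simp
    rw [Rat.cast_mul_of_ne_zero hcoef (hbden m le_rfl), hb0, mul_zero] at h4
    rw [h4]
    apply sum_congr rfl
    intro i hi
    rw [mem_range] at hi
    rw [Rat.cast_mul_of_ne_zero (den_mul_ne (hbden i hi.le) (den_nat_ne _))
      (Pool.Agent.H332R2.den_pow_ne h2den _),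
      Rat.cast_mul_of_ne_zero (hbden i hi.le) (den_nat_ne _), Rat.cast_natCast,
      Pool.Agent.H332R2.cast_pow_ok h2den, h2cast]
  -- Faulhaber
  set n := (p - 1) / 2 + 1 with hn
  have hnc : (n : ZMod p) = 2⁻¹ := by
    apply eq_inv_of_mul_eq_one_left
    have h1 : n * 2 = p + 1 := by omega
    have h2 : ((n * 2 : ℕ) : ZMod p) = ((p + 1 : ℕ) : ZMod p) := by rw [h1]
    push_cast at h2
    rw [ZMod.natCast_self, zero_add] at h2
    exact h2
  have hF := sum_range_pow n k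
  have hF2 : ((∑ a ∈ range n, a ^ k : ℕ) : ℚ) * (m : ℚ) =
      ∑ i ∈ range m, bernoulli i * (m.choose i : ℚ) * (n : ℚ) ^ (m - i) := by
    push_cast
    rw [hF, sum_mul]
    apply sum_congr rfl
    intro i _
    have : ((k : ℚ) + 1) ≠ 0 := by positivity
    rw [hm]
    push_cast
    field_simp
  have hden2 : ∀ i ∈ range m, (((bernoulli i * (m.choose i : ℚ) * (n : ℚ) ^ (m - i))).den :
      ZMod p) ≠ 0 := by
    intro i hi
    rw [mem_range] at hi
    exact den_mul_ne (den_mul_ne (hbden i hi.le) (den_nat_ne _))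
      (Pool.Agent.H332R2.den_pow_ne (den_nat_ne n) _)
  have h4 := (cast_sum_ok (F := ZMod p) (range m) _ hden2).2
  rw [← hF2, Rat.cast_mul_of_ne_zero (den_nat_ne _) (den_nat_ne _), Rat.cast_natCast,
    Rat.cast_natCast] at h4
  have h5 : ∑ i ∈ range m, ((bernoulli i * (m.choose i : ℚ) * (n : ℚ) ^ (m - i) : ℚ) : ZMod p) =
      0 := by
    rw [← key]
    apply sum_congr rfl
    intro i hi
    rw [mem_range] at hi
    rw [Rat.cast_mul_of_ne_zero (den_mul_ne (hbden i hi.le) (den_nat_ne _))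
      (Pool.Agent.H332R2.den_pow_ne (den_nat_ne n) _),
      Rat.cast_mul_of_ne_zero (hbden i hi.le) (den_nat_ne _), Rat.cast_natCast,
      Pool.Agent.H332R2.cast_pow_ok (den_nat_ne n), Rat.cast_natCast, hnc]
  rw [h5] at h4
  have hm0 : (m : ZMod p) ≠ 0 := by
    intro h0
    rw [ZMod.natCast_eq_zero_iff] at h0
    have := Nat.le_of_dvd (by omega) h0
    omega
  rcases mul_eq_zero.mp h4 with h6 | h6
  · push_cast at h6
    have h7 : range n = insert 0 (Icc 1 ((p - 1) / 2)) := by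
      ext a; simp only [mem_range, mem_insert, mem_Icc]; omega
    rw [h7, sum_insert (by simp)] at h6
    simpa [zero_pow (by omega : k ≠ 0)] using h6
  · exact absurd h6 hm0

end Pool.Agent.R361.QF
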