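import Mathlib

set_option autoImplicit false

/-! # Homomorphisms from quadratic orders, lifting roots of unity, Gaussian integers -/

namespace Pool.Agent.R361.QF

open Complex

/-- the homomorphism determined by the image of `ω` -/
noncomputable def homQ {A B : ℤ} {k : Type*} [CommRing k] (z : k)
    (hz : z * z = (A : k) + (B : k) * z) : QuadraticAlgebra ℤ A B →+* k :=
  (QuadraticAlgebra.lift (R := ℤ) (a := A) (b := B)
    ⟨z, by rw [hz]; simp⟩).toRingHom

theorem homQ_apply {A B : ℤ} {k : Type*} [CommRing k] (z : k)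
    (hz : z * z = (A : k) + (B : k) * z) (α : QuadraticAlgebra ℤ A B) :
    homQ z hz α = α.re + α.im * z := by
  change (QuadraticAlgebra.lift (R := ℤ) (a := A) (b := B) ⟨z, _⟩) α = _
  simp [QuadraticAlgebra.lift]

/-! ### lifting roots of unity -/

section lift

variable {k : Type*} [Field k] {z : k} {ζ : ℂ} {d : ℕ}

open Classical in
/-- the lift of a power of `z` to the corresponding power of `ζ` -/
noncomputable def lf (z : k) (ζ : ℂ) (x : k) : ℂ :=
  if h : ∃ j : ℕ, z ^ j = x then ζ ^ (Classical.choose h) else 0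

theorem lf_pow (hz : IsPrimitiveRoot z d) (hζ : IsPrimitiveRoot ζ d) (hd : 0 < d) (j : ℕ) :
    lf z ζ (z ^ j) = ζ ^ j := by
  have h : ∃ i : ℕ, z ^ i = z ^ j := ⟨j, rfl⟩
  unfold lf
  rw [dif_pos h]
  have h1 := Classical.choose_spec h
  have hz0 : z ≠ 0 := hz.ne_zero hd.ne'
  have hζ0 : ζ ≠ 0 := hζ.ne_zero hd.ne'
  have h2 : (Units.mk0 z hz0) ^ (Classical.choose h) = (Units.mk0 z hz0) ^ j := by
    apply Units.ext
    rw [Units.val_pow_eq_pow_val, Units.val_pow_eq_pow_val, Units.val_mk0]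
    exact h1
  have h3 := pow_eq_pow_iff_modEq.mp h2
  have h4 : orderOf (Units.mk0 z hz0) = d := by
    rw [← orderOf_units, Units.val_mk0]; exact hz.eq_orderOf.symm
  have h5 : orderOf (Units.mk0 ζ hζ0) = d := by
    rw [← orderOf_units, Units.val_mk0]; exact hζ.eq_orderOf.symm
  rw [h4, ← h5] at h3
  have h6 := pow_eq_pow_iff_modEq.mpr h3
  have h7 := congrArg Units.val h6
  rw [Units.val_pow_eq_pow_val, Units.val_pow_eq_pow_val, Units.val_mk0] at h7
  exact h7

theorem lf_zero (hz : IsPrimitiveRoot z d) (hd : 0 < d) : lf z ζ 0 = 0 := by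
  unfold lf
  rw [dif_neg]
  rintro ⟨j, hj⟩
  exact (pow_ne_zero j (hz.ne_zero hd.ne')) hj

theorem exists_pow (hz : IsPrimitiveRoot z d) (hd : 0 < d) {x : k} (hx : x ^ d = 1) :
    ∃ j, z ^ j = x := by
  have : NeZero d := ⟨hd.ne'⟩
  obtain ⟨i, _, hi⟩ := hz.eq_pow_of_pow_eq_one hx
  exact ⟨i, hi⟩

theorem lf_mul (hz : IsPrimitiveRoot z d) (hζ : IsPrimitiveRoot ζ d) (hd : 0 < d) {x y : k}
    (hx : x = 0 ∨ x ^ d = 1) (hy : y = 0 ∨ y ^ d = 1) :
    lf z ζ (x * y) = lf z ζ x * lf z ζ y := by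
  rcases hx with rfl | hx
  · rw [zero_mul, lf_zero hz hd, zero_mul]
  rcases hy with rfl | hy
  · rw [mul_zero, lf_zero hz hd, mul_zero]
  obtain ⟨i, rfl⟩ := exists_pow hz hd hx
  obtain ⟨j, rfl⟩ := exists_pow hz hd hy
  rw [← pow_add, lf_pow hz hζ hd, lf_pow hz hζ hd, lf_pow hz hζ hd, pow_add]

theorem lf_one (hz : IsPrimitiveRoot z d) (hζ : IsPrimitiveRoot ζ d) (hd : 0 < d) :
    lf z ζ 1 = 1 := by
  have := lf_pow hz hζ hd 0
  rwa [pow_zero, pow_zero] at this

theorem lf_val (hz : IsPrimitiveRoot z d) (hζ : IsPrimitiveRoot ζ d) (hd : 0 < d) {x : k}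
    (hx : x = 0 ∨ x ^ d = 1) : lf z ζ x = 0 ∨ lf z ζ x ^ d = 1 := by
  rcases hx with rfl | hx
  · left; exact lf_zero hz hd
  · right
    obtain ⟨i, rfl⟩ := exists_pow hz hd hx
    rw [lf_pow hz hζ hd, ← pow_mul, mul_comm, pow_mul, hζ.pow_eq_one, one_pow]

theorem lf_ne (hz : IsPrimitiveRoot z d) (hζ : IsPrimitiveRoot ζ d) (hd : 0 < d) {x : k}
    (hx : x ^ d = 1) : lf z ζ x ≠ 0 := by
  obtain ⟨i, rfl⟩ := exists_pow hz hd hx
  rw [lf_pow hz hζ hd]
  exact pow_ne_zero _ (hζ.ne_zero hd.ne')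

theorem lf_prim (hz : IsPrimitiveRoot z d) (hζ : IsPrimitiveRoot ζ d) (hd : 0 < d) {x : k}
    (hx : IsPrimitiveRoot x d) : IsPrimitiveRoot (lf z ζ x) d := by
  obtain ⟨i, rfl⟩ := exists_pow hz hd hx.pow_eq_one
  rw [lf_pow hz hζ hd]
  rw [hz.pow_iff_coprime hd] at hx
  exact (hζ.pow_iff_coprime hd i).mpr hx

end lift

/-! ### Gaussian integers -/

/-- Gaussian integers -/
abbrev Gi := QuadraticAlgebra ℤ (-1) 0

/-- the square root of `-1` -/
def im1 : Gi := ⟨0, 1⟩

theorem im1_sq : im1 * im1 = -1 := by decide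

theorem gi_norm (α : Gi) : α.norm = α.re ^ 2 + α.im ^ 2 := by
  rw [QuadraticAlgebra.norm_def]; ring

theorem gi_star_re (α : Gi) : (star α).re = α.re := by
  rw [QuadraticAlgebra.re_star]; ring

theorem gi_star_im (α : Gi) : (star α).im = -α.im := QuadraticAlgebra.im_star α

/-- the homomorphism -/
noncomputable def gh {k : Type*} [CommRing k] (z : k) (hz : z * z = -1) : Gi →+* k :=
  homQ z (by rw [hz]; push_cast; ring)

theorem gh_apply {k : Type*} [CommRing k] (z : k) (hz : z * z = -1) (α : Gi) :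
    gh z hz α = α.re + α.im * z := homQ_apply _ _ _

theorem gh_im1 {k : Type*} [CommRing k] (z : k) (hz : z * z = -1) : gh z hz im1 = z := by
  rw [gh_apply]; simp [im1]

theorem gi_mul_star (α : Gi) : α * star α = ((α.norm : ℤ) : Gi) := by
  have := QuadraticAlgebra.algebraMap_norm_eq_mul_star α
  rw [← this]; rfl

/-- the embedding -/
noncomputable def gC : Gi →+* ℂ := gh Complex.I Complex.I_mul_I

theorem gC_apply (α : Gi) : gC α = α.re + α.im * Complex.I := gh_apply _ _ _

theorem gC_star (α : Gi) : gC (star α) = (starRingEnd ℂ) (gC α) := by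
  rw [gC_apply, gC_apply, gi_star_re, gi_star_im, map_add, map_mul, Complex.conj_I]
  simp

theorem gC_inj : Function.Injective gC := by
  rw [injective_iff_map_eq_zero]
  intro α h
  rw [gC_apply] at h
  have h1 := congrArg Complex.re h
  have h2 := congrArg Complex.im h
  simp at h1 h2
  exact QuadraticAlgebra.ext h1 h2

theorem gC_normSq (α : Gi) : ‖gC α‖ ^ 2 = (α.norm : ℝ) := by
  have h : gC α * (starRingEnd ℂ) (gC α) = ((α.norm : ℤ) : ℂ) := by
    rw [← gC_star, ← map_mul, gi_mul_star, map_intCast]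
  rw [Complex.mul_conj'] at h
  exact_mod_cast h

instance : IsDomain Gi := gC_inj.isDomain gC

theorem im1_prim : IsPrimitiveRoot im1 4 := by
  rw [show (4 : ℕ) = 2 ^ (1 + 1) by norm_num]
  rw [IsPrimitiveRoot.iff_def]
  constructor
  · decide
  · intro l hl
    have h1 : (gC im1) ^ l = 1 := by rw [← map_pow, hl, map_one]
    have h2 : gC im1 = Complex.I := gh_im1 _ _
    rw [h2] at h1
    have h3 : IsPrimitiveRoot Complex.I 4 := by
      have := Complex.isPrimitiveRoot_exp 4 (by norm_num)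
      have h4 : Complex.exp (2 * Real.pi * Complex.I / ((4 : ℕ) : ℂ)) = Complex.I := by
        have : (2 * (Real.pi : ℂ) * Complex.I / ((4 : ℕ) : ℂ)) = (Real.pi / 2) * Complex.I := by
          push_cast; ring
        rw [this, Complex.exp_pi_div_two_mul_I]
      rwa [h4] at this
    exact h3.dvd_of_pow_eq_one l h1

theorem I_prim : IsPrimitiveRoot Complex.I 4 := by
  have := Complex.isPrimitiveRoot_exp 4 (by norm_num)
  have h4 : Complex.exp (2 * Real.pi * Complex.I / ((4 : ℕ) : ℂ)) = Complex.I := by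
    have : (2 * (Real.pi : ℂ) * Complex.I / ((4 : ℕ) : ℂ)) = (Real.pi / 2) * Complex.I := by
      push_cast; ring
    rw [this, Complex.exp_pi_div_two_mul_I]
  rwa [h4] at this

/-- fourth roots of unity in a field of characteristic not two -/
theorem prim_of_sq {k : Type*} [Field k] {z : k} (hz : z * z = -1) (h2 : (2 : k) ≠ 0) :
    IsPrimitiveRoot z 4 := by
  have h4 : z ^ 4 = 1 := by
    have : z ^ 4 = (z * z) * (z * z) := by ring
    rw [this, hz]; ring
  have h1 : z ^ 2 ≠ 1 := by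
    intro h
    rw [sq, hz] at h
    apply h2
    linear_combination -h
  rw [show (4 : ℕ) = 2 ^ (1 + 1) by norm_num]
  rw [IsPrimitiveRoot.iff_orderOf]
  apply orderOf_eq_prime_pow
  · simpa using h1
  · simpa using h4

end Pool.Agent.R361.QF
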