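import Mathlib
import Pool.Agent.R361.QF.Gi
import Pool.Agent.R361.QF.BernHalf

set_option autoImplicit false

/-! # Quartic characters, half sums and Bernoulli numbers -/

namespace Pool.Agent.R361.QF

open Finset

lemma sum_zmod {M : Type*} [AddCommMonoid M] (p : ℕ) [NeZero p] (Φ : ZMod p → M) :
    ∑ k, Φ k = ∑ n ∈ range p, Φ n := by
  apply sum_nbij' (fun k : ZMod p => k.val) (fun n : ℕ => (n : ZMod p))
  · intro k _; rw [mem_range]; exact ZMod.val_lt k
  · intro n _; exact mem_univ _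
  · intro k _; simp
  · intro n hn; rw [mem_range] at hn; exact ZMod.val_cast_of_lt hn
  · intro k _; simp

lemma sum_even_half {M : Type*} [AddCommMonoid M] (p : ℕ) [NeZero p] (hp : p % 2 = 1)
    (Φ : ZMod p → M) (h0 : Φ 0 = 0) (he : ∀ k, Φ (-k) = Φ k) :
    ∑ k, Φ k = 2 • ∑ n ∈ Icc 1 ((p - 1) / 2), Φ n := by
  rw [sum_zmod]
  have h1 : range p = insert 0 (Icc 1 ((p - 1) / 2) ∪ Icc ((p - 1) / 2 + 1) (p - 1)) := by
    ext n
    simp only [mem_insert, mem_union, mem_Icc, mem_range]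
    omega
  have h2 : Disjoint (Icc 1 ((p - 1) / 2)) (Icc ((p - 1) / 2 + 1) (p - 1)) := by
    rw [disjoint_left]
    intro n hn hn'
    rw [mem_Icc] at hn hn'
    omega
  rw [h1, sum_insert (by simp), Nat.cast_zero, h0, zero_add, sum_union h2, two_nsmul]
  congr 1
  apply sum_nbij' (fun n => p - n) (fun n => p - n)
  · intro n hn; rw [mem_Icc] at hn ⊢; omega
  · intro n hn; rw [mem_Icc] at hn ⊢; omega
  · intro n hn; rw [mem_Icc] at hn; omega
  · intro n hn; rw [mem_Icc] at hn; omega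
  · intro n hn
    rw [mem_Icc] at hn
    rw [Nat.cast_sub (by omega), ZMod.natCast_self, zero_sub, he]

lemma re_sum (s : Finset ℕ) (f : ℕ → Gi) : (∑ a ∈ s, f a).re = ∑ a ∈ s, (f a).re := by
  induction s using Finset.induction_on with
  | empty => simp
  | insert a t ha ih => rw [sum_insert ha, sum_insert ha, QuadraticAlgebra.re_add, ih]

section

variable {p : ℕ} [hp : Fact p.Prime] (χ : MulChar (ZMod p) Gi) (hχ : orderOf χ = 4)
  (hp8 : p % 8 = 5)

/-- the half sum -/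
noncomputable def Sg : Gi := ∑ a ∈ Icc 1 ((p - 1) / 2), χ (a : ZMod p)

include hχ

lemma chi_val4 (t : ZMod p) (ht : t ≠ 0) : (χ t) ^ 4 = 1 := by
  have h4 : χ ^ 4 = 1 := by rw [← hχ]; exact pow_orderOf_eq_one χ
  have : IsUnit t := isUnit_iff_ne_zero.mpr ht
  obtain ⟨u, rfl⟩ := this
  rw [← MulChar.pow_apply_coe, h4, MulChar.one_apply_coe]

lemma chi_gen : ∃ g : (ZMod p)ˣ, orderOf g = p - 1 ∧ (∀ a : (ZMod p)ˣ, ∃ j : ℕ, g ^ j = a) ∧
    (χ (g : ZMod p)) ^ 2 = -1 := by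
  obtain ⟨g, hg⟩ := (inferInstance : IsCyclic (ZMod p)ˣ).exists_generator
  have ho : orderOf g = p - 1 := by
    rw [orderOf_eq_card_of_forall_mem_zpowers hg, Nat.card_eq_fintype_card, ZMod.card_units]
  have hpow : ∀ a : (ZMod p)ˣ, ∃ j : ℕ, g ^ j = a := by
    intro a
    have := hg a
    rw [← mem_powers_iff_mem_zpowers] at this
    exact this
  refine ⟨g, ho, hpow, ?_⟩
  have h1 : (χ (g : ZMod p)) ^ 4 = 1 := chi_val4 χ hχ _ g.ne_zero
  have h2 : (χ (g : ZMod p)) ^ 2 ≠ 1 := by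
    intro h
    have h3 : χ ^ 2 = 1 := by
      refine MulChar.ext fun t => ?_
      obtain ⟨j, rfl⟩ := hpow t
      rw [MulChar.pow_apply_coe, Units.val_pow_eq_pow_val, map_pow, ← pow_mul, mul_comm, pow_mul,
        h, one_pow, ← Units.val_pow_eq_pow_val, MulChar.one_apply_coe]
    have := orderOf_dvd_of_pow_eq_one h3
    rw [hχ] at this
    omega
  have h3 : ((χ (g : ZMod p)) ^ 2 - 1) * ((χ (g : ZMod p)) ^ 2 + 1) = 0 := by
    have : ((χ (g : ZMod p)) ^ 2 - 1) * ((χ (g : ZMod p)) ^ 2 + 1) = (χ (g : ZMod p)) ^ 4 - 1 := by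
      ring
    rw [this, h1, sub_self]
  rcases mul_eq_zero.mp h3 with h4 | h4
  · exact absurd (sub_eq_zero.mp h4) h2
  · exact eq_neg_of_add_eq_zero_left h4

include hp8

lemma gen_pow (g : (ZMod p)ˣ) (ho : orderOf g = p - 1) (k : ℕ) (h4 : p - 1 ∣ 4 * k)
    (h2 : ¬ p - 1 ∣ 2 * k) : ((g : ZMod p) ^ k) * ((g : ZMod p) ^ k) = -1 := by
  set u : ZMod p := (g : ZMod p) ^ (2 * k) with hu
  have h1 : ((g : ZMod p) ^ k) * ((g : ZMod p) ^ k) = u := by rw [hu, ← pow_add]; congr 1; ring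
  rw [h1]
  have h3 : u * u = 1 := by
    rw [hu, ← pow_add]
    have : 2 * k + 2 * k = 4 * k := by ring
    rw [this, ← Units.val_pow_eq_pow_val, orderOf_dvd_iff_pow_eq_one.mp (ho ▸ h4), Units.val_one]
  have h5 : u ≠ 1 := by
    intro h
    apply h2
    rw [← ho]
    apply orderOf_dvd_of_pow_eq_one
    apply Units.ext
    rw [Units.val_pow_eq_pow_val, Units.val_one]
    exact h
  rcases mul_self_eq_one_iff.mp h3 with h6 | h6
  · exact absurd h6 h5
  · exact h6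

lemma chi_neg_one4 : χ (-1) = -1 := by
  obtain ⟨g, ho, hpow, hg2⟩ := chi_gen χ hχ
  have h1 := gen_pow χ hχ hp8 g ho ((p - 1) / 4) ⟨1, by omega⟩ (by
    intro h
    have := Nat.le_of_dvd (by omega) h
    omega)
  rw [← h1, ← sq, map_pow, map_pow, ← pow_mul, mul_comm, pow_mul, hg2]
  apply Odd.neg_one_pow
  rw [Nat.odd_iff]
  omega

/-- the half sum is divisible by a prime above `p` as soon as one of the Bernoulli numbers is
divisible by `p` -/
theorem bern_norm (hp13 : 9 ≤ p)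
    (h : (p : ℤ) ∣ (bernoulli ((p + 3) / 4)).num ∨ (p : ℤ) ∣ (bernoulli ((3 * p + 1) / 4)).num) :
    (p : ℤ) ∣ (Sg χ).norm := by
  obtain ⟨g, ho, hpow, hg2⟩ := chi_gen χ hχ
  obtain ⟨k, hk1, hk2, hk4, hk5, hk6⟩ : ∃ k, 1 ≤ k ∧ k + 3 ≤ p ∧
      (p : ℤ) ∣ (bernoulli (k + 1)).num ∧ p - 1 ∣ 4 * k ∧ ¬ p - 1 ∣ 2 * k := by
    rcases h with h | h
    · refine ⟨(p - 1) / 4, by omega, by omega, ?_, ⟨1, by omega⟩, ?_⟩
      · have : (p - 1) / 4 + 1 = (p + 3) / 4 := by omega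
        rw [this]; exact h
      · intro hd
        have := Nat.le_of_dvd (by omega) hd
        omega
    · refine ⟨3 * ((p - 1) / 4), by omega, by omega, ?_, ⟨3, by omega⟩, ?_⟩
      · have : 3 * ((p - 1) / 4) + 1 = (3 * p + 1) / 4 := by omega
        rw [this]; exact h
      · rintro ⟨c, hc⟩
        obtain ⟨m, hm⟩ : ∃ m, p = 8 * m + 5 := ⟨p / 8, by omega⟩
        have e1 : p - 1 = 8 * m + 4 := by omega
        have e2 : (p - 1) / 4 = 2 * m + 1 := by omega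
        rw [e2, e1] at hc
        have hc2 : c < 2 := by nlinarith
        interval_cases c <;> omega
  have hsum := half_pow_sum p (by omega) k hk1 hk2 hk4
  set w : ZMod p := (g : ZMod p) ^ k with hw
  have hw2 : w * w = -1 := gen_pow χ hχ hp8 g ho k hk5 hk6
  obtain ⟨φ, hφ⟩ : ∃ φ : Gi →+* ZMod p, φ (χ (g : ZMod p)) = w := by
    have h1 : χ (g : ZMod p) * χ (g : ZMod p) = im1 * im1 := by
      rw [← sq, hg2, im1_sq]
    rcases mul_self_eq_mul_self_iff.mp h1 with h2 | h2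
    · exact ⟨gh w hw2, by rw [h2, gh_im1]⟩
    · refine ⟨gh (-w) (by rw [neg_mul_neg]; exact hw2), ?_⟩
      rw [h2, map_neg, gh_im1, neg_neg]
  have hφ2 : ∀ a : ZMod p, a ≠ 0 → φ (χ a) = a ^ k := by
    intro a ha
    obtain ⟨u, rfl⟩ := isUnit_iff_ne_zero.mpr ha
    obtain ⟨j, rfl⟩ := hpow u
    rw [Units.val_pow_eq_pow_val, map_pow, map_pow, hφ, hw, ← pow_mul, ← pow_mul, mul_comm]
  have hφS : φ (Sg χ) = 0 := by
    unfold Sg
    rw [map_sum, ← hsum]
    apply sum_congr rfl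
    intro a ha
    rw [mem_Icc] at ha
    apply hφ2
    rw [Ne, ZMod.natCast_eq_zero_iff]
    intro hd
    have := Nat.le_of_dvd (by omega) hd
    omega
  rw [← ZMod.intCast_zmod_eq_zero_iff_dvd]
  have : (((Sg χ).norm : ℤ) : ZMod p) = φ (((Sg χ).norm : ℤ) : Gi) := by rw [map_intCast]
  rw [this, ← gi_mul_star, map_mul, hφS, zero_mul]

/-- the half sum does not vanish -/
theorem Sg_ne : (Sg χ).norm ≠ 0 := by
  have hodd : p % 2 = 1 := by omega
  have : NeZero p := ⟨hp.out.ne_zero⟩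
  have hneg := chi_neg_one4 χ hχ hp8
  have h2 : χ ^ 2 ≠ 1 := by
    intro h
    have := orderOf_dvd_of_pow_eq_one h
    rw [hχ] at this
    omega
  have hsum : ∑ a ∈ Icc 1 ((p - 1) / 2), (χ ^ 2) (a : ZMod p) = 0 := by
    have h1 := MulChar.sum_eq_zero_of_ne_one h2
    rw [sum_even_half p hodd (fun a => (χ ^ 2) a) (MulChar.map_zero _)] at h1
    · have h3 : (2 : Gi) * ∑ a ∈ Icc 1 ((p - 1) / 2), (χ ^ 2) (a : ZMod p) = 0 := by
        rw [← h1, nsmul_eq_mul]; push_cast; rfl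
      rcases mul_eq_zero.mp h3 with h4 | h4
      · exfalso
        have : (2 : Gi) ≠ 0 := by decide
        exact this h4
      · exact h4
    · intro k
      have : (χ ^ 2) (-1) = 1 := by
        rw [MulChar.pow_apply' χ (by norm_num), hneg]; ring
      rw [show -k = -1 * k by ring, map_mul, this, one_mul]
  have hterm : ∀ a ∈ Icc 1 ((p - 1) / 2), 2 * (χ (a : ZMod p)).re ^ 2 =
      1 + ((χ ^ 2) (a : ZMod p)).re ∧ (2 : ℤ) ∣ (χ (a : ZMod p)).re - (χ (a : ZMod p)).re ^ 2 := by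
    intro a ha
    rw [mem_Icc] at ha
    have ha0 : (a : ZMod p) ≠ 0 := by
      rw [Ne, ZMod.natCast_eq_zero_iff]
      intro hd
      have := Nat.le_of_dvd (by omega) hd
      omega
    obtain ⟨i, hi, hi'⟩ := im1_prim.eq_pow_of_pow_eq_one (chi_val4 χ hχ _ ha0)
    rw [MulChar.pow_apply' χ (by norm_num), ← hi']
    interval_cases i <;> decide
  have hS2 : 2 * ∑ a ∈ Icc 1 ((p - 1) / 2), (χ (a : ZMod p)).re ^ 2 = ((p - 1) / 2 : ℕ) := by
    rw [mul_sum, sum_congr rfl fun a ha => (hterm a ha).1, sum_add_distrib]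
    have h3 : ∑ a ∈ Icc 1 ((p - 1) / 2), ((χ ^ 2) (a : ZMod p)).re =
        (∑ a ∈ Icc 1 ((p - 1) / 2), (χ ^ 2) (a : ZMod p)).re :=
      (re_sum _ _).symm
    rw [h3, hsum, sum_const, Nat.card_Icc]
    simp
  have hre : (Sg χ).re = ∑ a ∈ Icc 1 ((p - 1) / 2), (χ (a : ZMod p)).re :=
    re_sum _ _
  have hdiff : (2 : ℤ) ∣ (Sg χ).re - ∑ a ∈ Icc 1 ((p - 1) / 2), (χ (a : ZMod p)).re ^ 2 := by
    rw [hre, ← sum_sub_distrib]
    exact dvd_sum fun a ha => (hterm a ha).2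
  have hodd2 : (Sg χ).re % 2 = 1 := by
    obtain ⟨c, hc⟩ := hdiff
    have h5 : (((p - 1) / 2 : ℕ) : ℤ) % 4 = 2 := by omega
    omega
  intro h0
  rw [gi_norm] at h0
  have h1 : (Sg χ).re ^ 2 = 0 := by nlinarith [sq_nonneg (Sg χ).re, sq_nonneg (Sg χ).im]
  have h3 : (Sg χ).re = 0 := by simpa using h1
  rw [h3] at hodd2
  norm_num at hodd2

end

end Pool.Agent.R361.QF
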