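import Mathlib
import Pool.Agent.R361.QF.Gi

set_option autoImplicit false

/-! # Quartic symbols of rational primes -/

namespace Pool.Agent.R361.QF

open Complex

section

variable (q : ℕ) [hq : Fact q.Prime]

/-- an algebraic closure of the prime field -/
abbrev Kq : Type := AlgebraicClosure (ZMod q)

theorem two_ne_k (hq2 : q ≠ 2) : (2 : Kq q) ≠ 0 := by
  intro h
  have h1 : ((2 : ℕ) : Kq q) = 0 := by exact_mod_cast h
  rw [CharP.cast_eq_zero_iff (Kq q) q] at h1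
  exact hq2 ((Nat.prime_dvd_prime_iff_eq hq.out Nat.prime_two).1 h1)

theorem exists_sqrt : ∃ z : Kq q, z * z = -1 := by
  obtain ⟨z, hz⟩ := IsAlgClosed.exists_pow_nat_eq (-1 : Kq q) (n := 2) (by norm_num)
  exact ⟨z, by rw [← sq]; exact hz⟩

/-- the image of `i` -/
noncomputable def zq (_ : q ≠ 2) : Kq q := Classical.choose (exists_sqrt q)

theorem zq_sq (hq2 : q ≠ 2) : zq q hq2 * zq q hq2 = -1 :=
  Classical.choose_spec (exists_sqrt q)

theorem zq_prim (hq2 : q ≠ 2) : IsPrimitiveRoot (zq q hq2) 4 :=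
  prim_of_sq (zq_sq q hq2) (two_ne_k q hq2)

/-- the reduction homomorphism -/
noncomputable def rq (hq2 : q ≠ 2) : Gi →+* Kq q := gh (zq q hq2) (zq_sq q hq2)

theorem int_frob (n : ℤ) : ((n : ℤ) : Kq q) ^ q = n := by
  have h : ((n : ℤ) : Kq q) = algebraMap (ZMod q) (Kq q) (n : ZMod q) := by
    rw [map_intCast]
  rw [h, ← map_pow, ZMod.pow_card]

theorem pow_mod4 {k : Type*} [Monoid k] {z : k} (h : z ^ 4 = 1) {n : ℕ} : z ^ (n % 4) = z ^ n := by
  conv_rhs => rw [← Nat.div_add_mod n 4, pow_add, pow_mul, h, one_pow, one_mul]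

theorem zq_pow (hq2 : q ≠ 2) : (q % 4 = 1 → zq q hq2 ^ q = zq q hq2) ∧
    (q % 4 = 3 → zq q hq2 ^ q = - zq q hq2) := by
  have hz := zq_sq q hq2
  have h4 : zq q hq2 ^ 4 = 1 := by
    have : zq q hq2 ^ 4 = (zq q hq2 * zq q hq2) * (zq q hq2 * zq q hq2) := by ring
    rw [this, hz]; ring
  constructor
  · intro h
    rw [← pow_mod4 h4, h, pow_one]
  · intro h
    rw [← pow_mod4 h4, h]
    have : zq q hq2 ^ 3 = (zq q hq2 * zq q hq2) * zq q hq2 := by ring
    rw [this, hz]; ring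

theorem q_mod4 (hq2 : q ≠ 2) : q % 4 = 1 ∨ q % 4 = 3 := by
  have := hq.out.eq_two_or_odd
  omega

theorem rq_frob_one (hq2 : q ≠ 2) (h1 : q % 4 = 1) (α : Gi) : rq q hq2 α ^ q = rq q hq2 α := by
  unfold rq
  rw [gh_apply, add_pow_char, mul_pow, int_frob, int_frob, (zq_pow q hq2).1 h1]

theorem rq_frob_three (hq2 : q ≠ 2) (h1 : q % 4 = 3) (α : Gi) :
    rq q hq2 α ^ q = rq q hq2 (star α) := by
  unfold rq
  rw [gh_apply, gh_apply, add_pow_char, mul_pow, int_frob, int_frob, (zq_pow q hq2).2 h1,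
    gi_star_re, gi_star_im]
  push_cast
  ring

theorem rq_norm (hq2 : q ≠ 2) (α : Gi) : rq q hq2 α * rq q hq2 (star α) = ((α.norm : ℤ) : Kq q) := by
  rw [← map_mul, gi_mul_star, map_intCast]

/-- the symbol of `q` with values in the field of characteristic `q` -/
noncomputable def KK (hq2 : q ≠ 2) (α : Gi) : Kq q :=
  if q % 4 = 1 then (rq q hq2 α * rq q hq2 (star α) ^ 3) ^ ((q - 1) / 4)
  else (rq q hq2 α) ^ ((q ^ 2 - 1) / 4)

theorem KK_mul (hq2 : q ≠ 2) (α β : Gi) : KK q hq2 (α * β) = KK q hq2 α * KK q hq2 β := by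
  unfold KK
  split_ifs with h
  · rw [star_mul', map_mul, map_mul, ← mul_pow]
    congr 1
    ring
  · rw [map_mul, mul_pow]

theorem KK_one (hq2 : q ≠ 2) : KK q hq2 1 = 1 := by
  unfold KK
  split_ifs <;> simp

theorem sq_div (h3 : q % 4 = 3) : (q ^ 2 - 1) / 4 = (q + 1) / 4 * (q - 1) := by
  obtain ⟨k, hk⟩ : ∃ k, q = 4 * k + 3 := ⟨q / 4, by omega⟩
  subst hk
  have e1 : (4 * k + 3) ^ 2 - 1 = 4 * ((k + 1) * (4 * k + 2)) := by
    have : (4 * k + 3) ^ 2 = 4 * ((k + 1) * (4 * k + 2)) + 1 := by ring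
    rw [this]; simp
  rw [e1, Nat.mul_div_cancel_left _ (by norm_num)]
  have e2 : (4 * k + 3 + 1) / 4 = k + 1 := by omega
  have e3 : 4 * k + 3 - 1 = 4 * k + 2 := by omega
  rw [e2, e3]

theorem KK_zero (hq2 : q ≠ 2) (α : Gi) (h : rq q hq2 α * rq q hq2 (star α) = 0) :
    KK q hq2 α = 0 := by
  have hq1 := hq.out.two_le
  unfold KK
  rcases q_mod4 q hq2 with hm | hm
  · rw [if_pos hm]
    have hpos : (q - 1) / 4 ≠ 0 := by omega
    rcases mul_eq_zero.mp h with h1 | h1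
    · rw [h1, zero_mul, zero_pow hpos]
    · rw [h1, zero_pow (by norm_num), mul_zero, zero_pow hpos]
  · rw [if_neg (by omega)]
    have h0 : rq q hq2 α = 0 := by
      rw [← rq_frob_three q hq2 hm, ← pow_succ'] at h
      exact pow_eq_zero_iff (by omega) |>.mp h
    rw [h0, zero_pow]
    rw [sq_div q hm]
    exact Nat.mul_ne_zero (by omega) (by omega)

theorem frob_ne (hq2 : q ≠ 2) (h1 : q % 4 = 1) (α : Gi) (h : rq q hq2 α ≠ 0) :
    rq q hq2 α ^ (q - 1) = 1 := by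
  have hq1 := hq.out.two_le
  apply mul_right_cancel₀ h
  rw [← pow_succ, one_mul]
  have : q - 1 + 1 = q := by omega
  rw [this, rq_frob_one q hq2 h1]

theorem KK_sq (hq2 : q ≠ 2) (α : Gi) (h : rq q hq2 α * rq q hq2 (star α) ≠ 0) :
    KK q hq2 α ^ 2 = (rq q hq2 α * rq q hq2 (star α)) ^ ((q - 1) / 2) := by
  have hq1 := hq.out.two_le
  have ha : rq q hq2 α ≠ 0 := left_ne_zero_of_mul h
  have hb : rq q hq2 (star α) ≠ 0 := right_ne_zero_of_mul h
  unfold KK
  rcases q_mod4 q hq2 with hm | hm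
  · rw [if_pos hm, ← pow_mul]
    have e1 : (q - 1) / 4 * 2 = (q - 1) / 2 := by omega
    rw [e1]
    have e2 : rq q hq2 α * rq q hq2 (star α) ^ 3 =
        (rq q hq2 α * rq q hq2 (star α)) * (rq q hq2 (star α)) ^ 2 := by ring
    rw [e2, mul_pow, ← pow_mul]
    have e3 : 2 * ((q - 1) / 2) = q - 1 := by omega
    rw [e3, frob_ne q hq2 hm _ hb, mul_one]
  · rw [if_neg (by omega), ← pow_mul, sq_div q hm]
    have e1 : (q + 1) / 4 * (q - 1) * 2 = (q + 1) * ((q - 1) / 2) := by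
      obtain ⟨k, hk⟩ : ∃ k, q = 4 * k + 3 := ⟨q / 4, by omega⟩
      subst hk
      have e2 : (4 * k + 3 + 1) / 4 = k + 1 := by omega
      have e3 : 4 * k + 3 - 1 = 4 * k + 2 := by omega
      have e4 : (4 * k + 2) / 2 = 2 * k + 1 := by omega
      rw [e2, e3, e4]; ring
    rw [e1, pow_mul, pow_succ, rq_frob_three q hq2 hm, mul_comm (rq q hq2 (star α))]

theorem KK_val (hq2 : q ≠ 2) (α : Gi) : KK q hq2 α = 0 ∨ KK q hq2 α ^ 4 = 1 := by
  by_cases h : rq q hq2 α * rq q hq2 (star α) = 0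
  · left; exact KK_zero q hq2 α h
  · right
    have hq1 := hq.out.two_le
    have e1 : KK q hq2 α ^ 4 = (KK q hq2 α ^ 2) ^ 2 := by ring
    rw [e1, KK_sq q hq2 α h, ← pow_mul]
    have hodd := hq.out.eq_two_or_odd
    have e2 : (q - 1) / 2 * 2 = q - 1 := by omega
    rw [e2]
    apply mul_right_cancel₀ h
    rw [← pow_succ, one_mul]
    have e3 : q - 1 + 1 = q := by omega
    rw [e3, rq_norm, int_frob]

theorem KK_per (hq2 : q ≠ 2) (α β : Gi) (h1 : (q : ℤ) ∣ α.re - β.re) (h2 : (q : ℤ) ∣ α.im - β.im) :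
    KK q hq2 α = KK q hq2 β := by
  have c1 : ((α.re : ℤ) : Kq q) = ((β.re : ℤ) : Kq q) := by
    rw [← sub_eq_zero, ← Int.cast_sub, CharP.intCast_eq_zero_iff (Kq q) q]
    exact h1
  have c2 : ((α.im : ℤ) : Kq q) = ((β.im : ℤ) : Kq q) := by
    rw [← sub_eq_zero, ← Int.cast_sub, CharP.intCast_eq_zero_iff (Kq q) q]
    exact h2
  have h3 : rq q hq2 α = rq q hq2 β := by
    unfold rq
    rw [gh_apply, gh_apply, c1, c2]
  have h4 : rq q hq2 (star α) = rq q hq2 (star β) := by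
    unfold rq
    rw [gh_apply, gh_apply, gi_star_re, gi_star_re, gi_star_im, gi_star_im]
    push_cast
    rw [c1, c2]
  unfold KK
  rw [h3, h4]

/-- a residue class of exact order four -/
theorem KK_gen (hq2 : q ≠ 2) : ∃ β : Gi, ¬ (q : ℤ) ∣ β.norm ∧ IsPrimitiveRoot (KK q hq2 β) 4 := by
  have hq1 := hq.out.two_le
  have hchar : ringChar (ZMod q) ≠ 2 := by rw [ZMod.ringChar_zmod_n]; exact hq2
  obtain ⟨a, ha⟩ := FiniteField.exists_nonsquare (F := ZMod q) hchar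
  obtain ⟨x, y, hxy⟩ := ZMod.sq_add_sq q a
  set β : Gi := ⟨(x.val : ℤ), (y.val : ℤ)⟩ with hβ
  have hn : ((β.norm : ℤ) : ZMod q) = a := by
    rw [gi_norm]
    simp only [hβ]
    push_cast
    rw [ZMod.natCast_val, ZMod.natCast_val]
    simpa using hxy
  have ha0 : a ≠ 0 := by
    rintro rfl
    exact ha (IsSquare.zero)
  have hnd : ¬ (q : ℤ) ∣ β.norm := by
    intro h
    rw [← ZMod.intCast_zmod_eq_zero_iff_dvd, hn] at h
    exact ha0 h
  refine ⟨β, hnd, ?_⟩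
  have hk : ((β.norm : ℤ) : Kq q) = algebraMap (ZMod q) (Kq q) a := by
    rw [← hn, map_intCast]
  have hne : rq q hq2 β * rq q hq2 (star β) ≠ 0 := by
    rw [rq_norm, hk]
    intro h
    rw [map_eq_zero] at h
    exact ha0 h
  have h1 : KK q hq2 β ^ 2 = -1 := by
    rw [KK_sq q hq2 β hne, rq_norm, hk, ← map_pow]
    have h2 : a ^ (q / 2) = -1 := by
      rcases ZMod.pow_div_two_eq_neg_one_or_one q ha0 with h3 | h3
      · exact absurd ((ZMod.euler_criterion q ha0).mpr h3) ha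
      · exact h3
    have e1 : (q - 1) / 2 = q / 2 := by have := hq.out.eq_two_or_odd; omega
    rw [e1, h2, map_neg, map_one]
  apply prim_of_sq _ (two_ne_k q hq2)
  rw [← sq]; exact h1

end

/-- the quartic symbol of `q` with complex values -/
noncomputable def psi4 (q : ℕ) (α : Gi) : ℂ :=
  if h : q.Prime ∧ q ≠ 2 then
    haveI : Fact q.Prime := ⟨h.1⟩
    lf (zq q h.2) Complex.I (KK q h.2 α)
  else 0

theorem psi4_eq (q : ℕ) [hq : Fact q.Prime] (hq2 : q ≠ 2) (α : Gi) :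
    psi4 q α = lf (zq q hq2) Complex.I (KK q hq2 α) := by
  unfold psi4
  rw [dif_pos ⟨hq.out, hq2⟩]

end Pool.Agent.R361.QF
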