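import Mathlib
import Pool.Agent.R361.QF.Quart
import Pool.Agent.R361.QF.Sieve

set_option autoImplicit false

/-! # Quartic reciprocity for rational primes -/

namespace Pool.Agent.R361.QF

open Complex Finset
open scoped ComplexConjugate

theorem psi4_QD : QD (-1) 0 (2 * 2) 2 psi4 where
  one q hq hq2 := by
    have : Fact q.Prime := ⟨hq⟩
    have h2 : q ≠ 2 := fun h => hq2 (h ▸ dvd_rfl)
    rw [psi4_eq q h2, KK_one]
    exact lf_one (zq_prim q h2) I_prim (by norm_num)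
  mul q hq α β := by
    have : Fact q.Prime := ⟨hq⟩
    by_cases h2 : q = 2
    · subst h2; unfold psi4; simp
    rw [psi4_eq q h2, psi4_eq q h2, psi4_eq q h2, KK_mul]
    exact lf_mul (zq_prim q h2) I_prim (by norm_num) (KK_val q h2 α) (KK_val q h2 β)
  per q hq α β h1 h2' := by
    have : Fact q.Prime := ⟨hq⟩
    by_cases h2 : q = 2
    · subst h2; unfold psi4; simp
    rw [psi4_eq q h2, psi4_eq q h2, KK_per q h2 α β h1 h2']
  val q hq α := by
    have : Fact q.Prime := ⟨hq⟩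
    by_cases h2 : q = 2
    · subst h2; unfold psi4; simp
    rw [psi4_eq q h2]
    exact lf_val (zq_prim q h2) I_prim (by norm_num) (KK_val q h2 α)
  zero q hq hq2 α := by
    have h2 : q = 2 := (Nat.prime_dvd_prime_iff_eq hq Nat.prime_two).mp hq2
    unfold psi4
    rw [dif_neg]
    rintro ⟨_, h⟩
    exact h h2
  gen q hq hq2 := by
    have : Fact q.Prime := ⟨hq⟩
    have h2 : q ≠ 2 := fun h => hq2 (h ▸ dvd_rfl)
    obtain ⟨β, hβ1, hβ2⟩ := KK_gen q h2
    refine ⟨β, hβ1, ?_⟩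
    rw [psi4_eq q h2]
    exact lf_prim (zq_prim q h2) I_prim (by norm_num) hβ2

section

variable {p : ℕ} [hp : Fact p.Prime] (χ : MulChar (ZMod p) Gi)

/-- the Jacobi sum -/
noncomputable def Jg : Gi := jacobiSum χ χ

variable (hχ : orderOf χ = 4)

include hχ in
lemma chi_ne (k : ℕ) (hk : ¬ 4 ∣ k) : χ ^ k ≠ 1 := by
  intro h
  apply hk
  rw [← hχ]
  exact orderOf_dvd_of_pow_eq_one h

lemma comp_inj {k : Type*} [CommRing k] (r : Gi →+* k)
    (hr : ∀ i j : ℕ, r im1 ^ i = r im1 ^ j → im1 ^ i = im1 ^ j) (hχ4 : χ ^ 4 = 1) (m : ℕ)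
    (h : (χ.ringHomComp r) ^ m = 1) : χ ^ m = 1 := by
  refine MulChar.ext fun t => ?_
  have h1 : ∀ t : (ZMod p)ˣ, ∃ i : ℕ, im1 ^ i = χ t := by
    intro t
    have : (χ t) ^ 4 = 1 := by
      rw [← MulChar.pow_apply_coe, hχ4, MulChar.one_apply_coe]
    obtain ⟨i, _, hi⟩ := im1_prim.eq_pow_of_pow_eq_one this
    exact ⟨i, hi⟩
  obtain ⟨i, hi⟩ := h1 t
  have h2 : ((χ.ringHomComp r) ^ m) t = 1 := by rw [h, MulChar.one_apply_coe]
  rw [MulChar.pow_apply_coe, MulChar.ringHomComp_apply, ← hi, map_pow, ← pow_mul] at h2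
  rw [MulChar.pow_apply_coe, ← hi, ← pow_mul, MulChar.one_apply_coe]
  have := hr (i * m) 0 (by rw [h2, pow_zero])
  rw [this, pow_zero]

include hχ in
theorem Jg_norm : (Jg χ).norm = p := by
  have h4 : χ ^ 4 = 1 := by rw [← hχ]; exact pow_orderOf_eq_one χ
  set c : MulChar (ZMod p) ℂ := χ.ringHomComp gC with hc
  have hr : ∀ i j : ℕ, gC im1 ^ i = gC im1 ^ j → im1 ^ i = im1 ^ j := by
    intro i j h
    rw [← map_pow, ← map_pow] at h
    exact gC_inj h
  have hc1 : c ≠ 1 := by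
    intro h
    have := comp_inj χ gC hr h4 1 (by rw [pow_one]; exact h)
    exact chi_ne χ hχ 1 (by norm_num) this
  have hc2 : c * c ≠ 1 := by
    intro h
    have := comp_inj χ gC hr h4 2 (by rw [sq]; exact h)
    exact chi_ne χ hχ 2 (by norm_num) this
  have h1 := jacobiSum_mul_jacobiSum_inv (F := ZMod p) (F' := ℂ)
    (by rw [ZMod.ringChar_zmod_n, ringChar.eq_zero]; exact hp.out.ne_zero.symm) hc1 hc1 hc2
  have h2 : jacobiSum c⁻¹ c⁻¹ = conj (jacobiSum c c) := by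
    unfold jacobiSum
    rw [map_sum]
    apply sum_congr rfl
    intro x _
    rw [map_mul]
    congr 1
    · exact (MulChar.star_apply' c x).symm
    · exact (MulChar.star_apply' c (1 - x)).symm
  rw [h2, Complex.mul_conj', hc, jacobiSum_ringHomComp, ZMod.card] at h1
  have h3 := gC_normSq (jacobiSum χ χ)
  have h5 : ((‖gC (jacobiSum χ χ)‖ ^ 2 : ℝ) : ℂ) = (p : ℂ) := by push_cast; exact h1
  have h6 : ‖gC (jacobiSum χ χ)‖ ^ 2 = (p : ℝ) := by exact_mod_cast h5
  rw [h3] at h6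
  exact_mod_cast h6

include hχ in
theorem rec4 (q : ℕ) [hq : Fact q.Prime] (hq2 : q ≠ 2) (hpq : p ≠ q) :
    rq q hq2 (χ (q : ZMod p)) * (if q % 4 = 3 then rq q hq2 (χ (-1)) else 1) =
      KK q hq2 (Jg χ) := by
  have h4 : χ ^ 4 = 1 := by rw [← hχ]; exact pow_orderOf_eq_one χ
  set r := rq q hq2 with hr
  set c : MulChar (ZMod p) (Kq q) := χ.ringHomComp r with hc
  have hz := zq_prim q hq2
  have hrim : r im1 = zq q hq2 := gh_im1 _ _
  have hrinj : ∀ i j : ℕ, r im1 ^ i = r im1 ^ j → im1 ^ i = im1 ^ j := by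
    intro i j h
    rw [hrim] at h
    have h1 := lf_pow hz I_prim (by norm_num) i
    have h2 := lf_pow hz I_prim (by norm_num) j
    rw [h, h2] at h1
    apply gC_inj
    rw [map_pow, map_pow, show gC im1 = Complex.I from gh_im1 _ _]
    exact h1.symm
  have hc1 : c ≠ 1 := by
    intro h
    exact chi_ne χ hχ 1 (by norm_num) (comp_inj χ r hrinj h4 1 (by rw [pow_one]; exact h))
  have hc2 : c * c ≠ 1 := by
    intro h
    exact chi_ne χ hχ 2 (by norm_num) (comp_inj χ r hrinj h4 2 (by rw [sq]; exact h))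
  have hc4 : c ^ 4 = 1 := by
    rw [hc, MulChar.ringHomComp_pow, h4]
    exact MulChar.ringHomComp_one r
  have hpk : ((p : ℕ) : Kq q) ≠ 0 := by
    intro h
    rw [CharP.cast_eq_zero_iff (Kq q) q] at h
    exact hpq ((Nat.prime_dvd_prime_iff_eq hq.out hp.out).1 h).symm
  have : NeZero ((p : ℕ) : Kq q) := ⟨hpk⟩
  obtain ⟨ζ, hζ⟩ := HasEnoughRootsOfUnity.exists_primitiveRoot (Kq q) p
  have : NeZero p := ⟨hp.out.ne_zero⟩
  have hψ := AddChar.zmodChar_primitive_of_primitive_root p hζ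
  set ψ : AddChar (ZMod p) (Kq q) := AddChar.zmodChar p
    ((IsPrimitiveRoot.iff_def ζ p).mp hζ).left with hψd
  set G : Kq q := gaussSum c ψ with hG
  set G2 : Kq q := gaussSum (c * c) ψ with hG2
  set J : Kq q := r (Jg χ) with hJ
  have hJc : jacobiSum c c = J := jacobiSum_ringHomComp _ _ _
  have hGsq : G ^ 2 = G2 * J := by
    rw [sq, hG, ← jacobiSum_mul_nontrivial hc2 ψ, hJc]
  -- the quadratic Gauss sum
  have hc2q : (c * c) ^ 2 = 1 := by
    rw [← sq, ← pow_mul]; exact hc4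
  have hquad : (c * c).IsQuadratic := by
    rw [MulChar.isQuadratic_iff_sq_eq_one]; exact hc2q
  have hneg1 : (c (-1)) ^ 2 = 1 := by
    rw [← map_pow]
    have : ((-1 : ZMod p)) ^ 2 = 1 := by norm_num
    rw [this, map_one]
  have hG2sq : G2 ^ 2 = (p : Kq q) := by
    rw [hG2, gaussSum_sq hc2 hquad hψ, MulChar.mul_apply, ← sq, hneg1, one_mul, ZMod.card]
  have hG4 : G ^ 4 = J ^ 2 * p := by
    have : G ^ 4 = (G ^ 2) ^ 2 := by ring
    rw [this, hGsq, mul_pow, hG2sq]; ring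
  have hGG : G * gaussSum c⁻¹ ψ⁻¹ = (p : Kq q) := by
    have h1 := gaussSum_mul_gaussSum_eq_card hc1 hψ
    rw [ZMod.card] at h1
    exact h1
  have hG0 : G ≠ 0 := by
    intro h
    rw [h, zero_mul] at hGG
    exact hpk hGG.symm
  have hcopr : Nat.Coprime q p := (Nat.coprime_primes hq.out hp.out).2 (Ne.symm hpq)
  set a : (ZMod p)ˣ := ZMod.unitOfCoprime q hcopr with ha
  have hav : (a : ZMod p) = ((q : ℕ) : ZMod p) := ZMod.coe_unitOfCoprime q hcopr
  have hfrob : (c ^ q) a * G ^ q = gaussSum (c ^ q) ψ := by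
    rw [hG, gaussSum_frob, AddChar.pow_mulShift, ← hav]
    exact gaussSum_mulShift (c ^ q) ψ a
  have hca : c a = r (χ ((q : ℕ) : ZMod p)) := by
    rw [hc, MulChar.ringHomComp_apply, hav]
  have hca4 : c a ^ 4 = 1 := by
    rw [← MulChar.pow_apply_coe, hc4, MulChar.one_apply_coe]
  -- the norm
  have hnorm : J * r (star (Jg χ)) = (p : Kq q) := by
    rw [hJ, hr, rq_norm, Jg_norm χ hχ]; push_cast; rfl
  have hJ0 : J ≠ 0 := by
    intro h; rw [h, zero_mul] at hnorm; exact hpk hnorm.symm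
  have hq1 := hq.out.two_le
  rw [← hca]
  unfold KK
  rcases q_mod4 q hq2 with hm | hm
  · rw [if_neg (by omega), mul_one, if_pos hm]
    have hcq : c ^ q = c := by
      rw [← pow_mod4 hc4, hm, pow_one]
    rw [hcq] at hfrob
    have h2 : c a * G ^ (q - 1) = 1 := by
      apply mul_right_cancel₀ hG0
      rw [mul_assoc, ← pow_succ, one_mul]
      have : q - 1 + 1 = q := by omega
      rw [this, hfrob]
    have h3 : G ^ (q - 1) = (J ^ 3 * r (star (Jg χ))) ^ ((q - 1) / 4) := by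
      have e1 : q - 1 = 4 * ((q - 1) / 4) := by omega
      have e2 : J ^ 3 * r (star (Jg χ)) = G ^ 4 := by
        rw [hG4, ← hnorm]; ring
      rw [e2, ← pow_mul, ← e1]
    have h5 : (J ^ 3 * r (star (Jg χ))) ^ ((q - 1) / 4) *
        (J * r (star (Jg χ)) ^ 3) ^ ((q - 1) / 4) = 1 := by
      rw [← mul_pow]
      have e2 : J ^ 3 * r (star (Jg χ)) * (J * r (star (Jg χ)) ^ 3) = (p : Kq q) ^ 4 := by
        rw [← hnorm]; ring
      rw [e2, ← pow_mul]
      have e1 : 4 * ((q - 1) / 4) = q - 1 := by omega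
      rw [e1]
      apply mul_right_cancel₀ hpk
      rw [← pow_succ, one_mul]
      have : q - 1 + 1 = q := by omega
      rw [this]
      have := int_frob q (p : ℤ)
      exact_mod_cast this
    rw [h3] at h2
    calc c a = c a * ((J ^ 3 * r (star (Jg χ))) ^ ((q - 1) / 4) *
        (J * r (star (Jg χ)) ^ 3) ^ ((q - 1) / 4)) := by rw [h5, mul_one]
      _ = (c a * (J ^ 3 * r (star (Jg χ))) ^ ((q - 1) / 4)) *
        (J * r (star (Jg χ)) ^ 3) ^ ((q - 1) / 4) := by ring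
      _ = _ := by rw [h2, one_mul]
  · rw [if_pos hm, if_neg (by omega)]
    have hcneg : r (χ (-1)) = c (-1) := by rw [hc, MulChar.ringHomComp_apply]
    rw [hcneg]
    have hcq : c ^ q = c⁻¹ := by
      rw [← pow_mod4 hc4, hm, eq_inv_iff_mul_eq_one, ← pow_succ]
      exact hc4
    have hinv : gaussSum c⁻¹ ψ⁻¹ = c (-1) * gaussSum c⁻¹ ψ := by
      have h3 := mul_gaussSum_inv_eq_gaussSum c⁻¹ ψ
      have h4' : c⁻¹ (-1) = c (-1) := by
        rw [MulChar.inv_apply']
        congr 1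
        rw [inv_neg, inv_one]
      rw [h4'] at h3
      rw [← h3, ← mul_assoc, ← sq, hneg1, one_mul]
    have h2 : (c ^ q) a = c a ^ 3 := by
      rw [← pow_mod4 hc4, hm, MulChar.pow_apply_coe]
    have h5 : c a ^ 3 * c (-1) * G ^ (q + 1) = (p : Kq q) := by
      rw [← hGG, hinv, ← hcq, ← hfrob, h2]
      ring
    have h6 : G ^ (q + 1) = c a * c (-1) * p := by
      have e1 : (c a * c (-1)) * (c a ^ 3 * c (-1) * G ^ (q + 1)) = (c a * c (-1)) * p := by
        rw [h5]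
      have e2 : (c a * c (-1)) * (c a ^ 3 * c (-1) * G ^ (q + 1)) =
          c a ^ 4 * (c (-1) ^ 2) * G ^ (q + 1) := by ring
      rw [e2, hca4, hneg1, one_mul, one_mul] at e1
      exact e1
    have hpJ : (p : Kq q) = J ^ (q + 1) := by
      rw [pow_succ, hJ, hr, rq_frob_three q hq2 hm, mul_comm, ← hr, ← hJ]
      exact hnorm.symm
    have h7 : G ^ (q + 1) = J ^ ((q + 3) * ((q + 1) / 4)) := by
      have e1 : q + 1 = 4 * ((q + 1) / 4) := by omega
      conv_lhs => rw [e1, pow_mul, hG4, hpJ]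
      rw [← pow_add, ← pow_mul]
      congr 2
      omega
    have h8 : (q + 3) * ((q + 1) / 4) = (q ^ 2 - 1) / 4 + (q + 1) := by
      rw [sq_div q hm]
      obtain ⟨k, hk⟩ : ∃ k, q = 4 * k + 3 := ⟨q / 4, by omega⟩
      have e2 : (q + 1) / 4 = k + 1 := by omega
      rw [e2]
      have e3 : q - 1 = 4 * k + 2 := by omega
      rw [e3, hk]
      ring
    rw [h7, h8, pow_add, hpJ] at h6
    exact (mul_right_cancel₀ (pow_ne_zero _ hJ0) h6).symm

/-- the values of the character in terms of the symbols -/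
theorem chi_psi4 (hχ : orderOf χ = 4) (hneg : χ (-1) = -1) (q : ℕ) (hq : q.Prime) (hq2 : q ≠ 2)
    (hpq : p ≠ q) :
    gC (χ (q : ZMod p)) = (if q % 4 = 3 then -1 else 1) * psi4 q (Jg χ) := by
  have : Fact q.Prime := ⟨hq⟩
  have h4 : χ ^ 4 = 1 := by rw [← hχ]; exact pow_orderOf_eq_one χ
  have h1 := rec4 χ hχ q hq2 hpq
  have hz := zq_prim q hq2
  have hcopr : Nat.Coprime q p := (Nat.coprime_primes hq hp.out).2 (Ne.symm hpq)
  set a : (ZMod p)ˣ := ZMod.unitOfCoprime q hcopr with ha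
  have hav : (a : ZMod p) = ((q : ℕ) : ZMod p) := ZMod.coe_unitOfCoprime q hcopr
  have hval : (χ (q : ZMod p)) ^ 4 = 1 := by
    rw [← hav, ← MulChar.pow_apply_coe, h4, MulChar.one_apply_coe]
  obtain ⟨i, _, hi⟩ := im1_prim.eq_pow_of_pow_eq_one hval
  have hrim : rq q hq2 im1 = zq q hq2 := gh_im1 _ _
  have hgim : gC im1 = Complex.I := gh_im1 _ _
  have him2 : im1 ^ 2 = -1 := by rw [sq]; exact im1_sq
  rw [psi4_eq q hq2, ← h1, hneg, ← hi]
  split_ifs with hm
  · have e1 : rq q hq2 (im1 ^ i) * rq q hq2 (-1) = zq q hq2 ^ (i + 2) := by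
      rw [← map_mul, ← him2, ← pow_add, map_pow, hrim]
    rw [e1, lf_pow hz I_prim (by norm_num), map_pow, hgim, pow_add, Complex.I_sq]
    ring
  · rw [mul_one, map_pow gC, hgim, map_pow (rq q hq2), hrim, lf_pow hz I_prim (by norm_num),
      one_mul]

end

end Pool.Agent.R361.QF
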