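import Mathlib
import Pool.Agent.R361.QF.Apx
import Pool.Agent.R361.QF.Rec4
import Pool.Agent.R361.QF.Bern4

set_option autoImplicit false

/-! # The quartic indices -/

namespace Pool.Agent.R361.QF

open Finset Filter Topology
open Pool.Agent.R361.AC (oddTo cw)

/-- the character modulo 4 on the naturals -/
def x4 : ℕ →*₀ ℤ where
  toFun n := ZMod.χ₄ (n : ZMod 4)
  map_zero' := by decide
  map_one' := by decide
  map_mul' m n := by rw [Nat.cast_mul, map_mul]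

lemma x4_apply (n : ℕ) : x4 n = ZMod.χ₄ (n : ZMod 4) := rfl

lemma x4_one (n : ℕ) (h : n % 4 = 1) : x4 n = 1 := by
  rw [x4_apply, ← ZMod.natCast_mod n 4, h]; decide

lemma x4_three (n : ℕ) (h : n % 4 = 3) : x4 n = -1 := by
  rw [x4_apply, ← ZMod.natCast_mod n 4, h]; decide

lemma x4_even (n : ℕ) (h : n % 2 = 0) : x4 n = 0 := by
  have h2 : n % 4 = 0 ∨ n % 4 = 2 := by omega
  rw [x4_apply, ← ZMod.natCast_mod n 4]
  rcases h2 with h2 | h2 <;> rw [h2] <;> decide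

lemma x4_prime (p : ℕ) (hp : p.Prime) (h2 : p ≠ 2) : x4 p = 1 ∨ x4 p = -1 := by
  have h1 : p % 2 = 1 := hp.eq_two_or_odd.resolve_left h2
  have h3 : p % 4 = 1 ∨ p % 4 = 3 := by omega
  rcases h3 with h | h
  · exact Or.inl (x4_one p h)
  · exact Or.inr (x4_three p h)

lemma x4_partial (m : ℕ) :
    2 / 3 + 1 / (4 * (m : ℝ) + 3) ≤ ∑ k ∈ Icc 1 (4 * m + 1), (x4 k : ℝ) / k := by
  induction m with
  | zero => rw [show 4 * 0 + 1 = 1 by norm_num, Icc_self, sum_singleton, x4_one 1 rfl]; norm_num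
  | succ m ih =>
    rw [show 4 * (m + 1) + 1 = 4 * m + 1 + 1 + 1 + 1 + 1 by ring,
      sum_Icc_succ_top (by omega), sum_Icc_succ_top (by omega), sum_Icc_succ_top (by omega),
      sum_Icc_succ_top (by omega), x4_even (4 * m + 1 + 1) (by omega),
      x4_three (4 * m + 1 + 1 + 1) (by omega), x4_even (4 * m + 1 + 1 + 1 + 1) (by omega),
      x4_one (4 * m + 1 + 1 + 1 + 1 + 1) (by omega)]
    push_cast
    have h1 : (1 : ℝ) / (4 * (m + 1) + 3) ≤ 1 / (4 * m + 4 + 1) := by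
      apply one_div_le_one_div_of_le (by positivity)
      linarith
    have h2 : (-1 : ℝ) / (4 * m + 2 + 1) = - (1 / (4 * m + 3)) := by
      rw [neg_div]; congr 2; ring
    rw [h2]
    simp only [zero_div, add_zero]
    linarith

lemma x4_lower (t : ℕ) (ht : 1 ≤ t) : 2 / 3 ≤ ∑ k ∈ Icc 1 t, (x4 k : ℝ) / k := by
  obtain ⟨m, hm⟩ : ∃ m, t = 4 * m + 1 ∨ t = 4 * m + 2 ∨ t = 4 * m + 3 ∨ t = 4 * m + 4 :=
    ⟨(t - 1) / 4, by omega⟩
  have h1 := x4_partial m
  have h0 : (0 : ℝ) ≤ 1 / (4 * (m : ℝ) + 3) := by positivity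
  have h2 : ∑ k ∈ Icc 1 (4 * m + 2), (x4 k : ℝ) / k = ∑ k ∈ Icc 1 (4 * m + 1), (x4 k : ℝ) / k := by
    rw [show 4 * m + 2 = 4 * m + 1 + 1 by ring, sum_Icc_succ_top (by omega),
      x4_even (4 * m + 1 + 1) (by omega)]
    simp
  have h3 : ∑ k ∈ Icc 1 (4 * m + 3), (x4 k : ℝ) / k =
      ∑ k ∈ Icc 1 (4 * m + 1), (x4 k : ℝ) / k - 1 / (4 * (m : ℝ) + 3) := by
    rw [show 4 * m + 3 = 4 * m + 2 + 1 by ring, sum_Icc_succ_top (by omega), h2,
      x4_three (4 * m + 2 + 1) (by omega)]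
    push_cast
    have : (4 * (m : ℝ) + 2 + 1) = 4 * m + 3 := by ring
    rw [this]
    ring
  have h4 : ∑ k ∈ Icc 1 (4 * m + 4), (x4 k : ℝ) / k = ∑ k ∈ Icc 1 (4 * m + 3), (x4 k : ℝ) / k := by
    rw [show 4 * m + 4 = 4 * m + 3 + 1 by ring, sum_Icc_succ_top (by omega),
      x4_even (4 * m + 3 + 1) (by omega)]
    simp
  rcases hm with rfl | rfl | rfl | rfl
  · linarith
  · rw [h2]; linarith
  · rw [h3]; linarith
  · rw [h4, h3]; linarith

lemma x4_split (p : ℕ) (hp : p.Prime) (h : x4 p = 1) :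
    ∃ r s : ZMod p, r ≠ s ∧ r + s = ((0 : ℤ) : ZMod p) ∧ r * s = -((-1 : ℤ) : ZMod p) := by
  have hF : Fact p.Prime := ⟨hp⟩
  have h2 : p ≠ 2 := by
    rintro rfl
    rw [x4_even 2 rfl] at h
    norm_num at h
  have h3 : p % 4 ≠ 3 := by
    intro h3
    rw [x4_three p h3] at h
    norm_num at h
  obtain ⟨r, hr⟩ := ZMod.exists_sq_eq_neg_one_iff.mpr h3
  refine ⟨r, -r, ?_, by simp, ?_⟩
  · intro hrr
    have h4 : (2 : ZMod p) * r = 0 := by
      rw [two_mul]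
      nth_rewrite 2 [hrr]
      ring
    have h5 : (2 : ZMod p) ≠ 0 := by
      have : ((2 : ℕ) : ZMod p) ≠ 0 := by
        rw [Ne, ZMod.natCast_eq_zero_iff]
        intro hd
        exact h2 ((Nat.prime_dvd_prime_iff_eq hp Nat.prime_two).mp hd)
      exact_mod_cast this
    rcases mul_eq_zero.mp h4 with h6 | h6
    · exact h5 h6
    · rw [h6] at hr
      simp at hr
  · rw [mul_neg, ← hr]; push_cast; ring

lemma abs_le_Yf (a : ℤ) (x : ℕ) (h : a ^ 2 ≤ 4 * x) : |a| ≤ Yf x := by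
  have h1 : (a.natAbs) ^ 2 ≤ 4 * x := by
    have : ((a.natAbs : ℤ)) ^ 2 ≤ 4 * x := by rw [Int.natAbs_sq]; exact h
    exact_mod_cast this
  have h2 : a.natAbs ≤ 2 * Nat.sqrt x + 2 := by
    have h3 := Nat.lt_succ_sqrt x
    have h4 : x < (Nat.sqrt x + 1) * (Nat.sqrt x + 1) := h3
    by_contra hcon
    push Not at hcon
    nlinarith
  rw [Int.abs_eq_natAbs]
  exact_mod_cast h2

lemma gi_size (α : Gi) (x : ℕ) (h : α.norm ≤ x) : |α.re| ≤ Yf x ∧ |α.im| ≤ Yf x := by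
  rw [gi_norm] at h
  constructor <;> apply abs_le_Yf <;> nlinarith [sq_nonneg α.re, sq_nonneg α.im]

/-- the exceptional primes -/
def P4 : Set ℕ := {p | p.Prime ∧ p % 8 = 5}

/-- one of the two Bernoulli numbers is divisible by `p` -/
def B4 (p : ℕ) : Prop :=
  (p : ℤ) ∣ (bernoulli ((p + 3) / 4)).num ∨ (p : ℤ) ∣ (bernoulli ((3 * p + 1) / 4)).num

lemma exists_J : ∃ J : ℕ → Gi, ∀ p ∈ P4, ∃ (hp : Fact p.Prime) (χ : MulChar (ZMod p) Gi),
    orderOf χ = 4 ∧ J p = Jg χ := by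
  have : ∀ p : ℕ, ∃ J : Gi, p ∈ P4 → ∃ (hp : Fact p.Prime) (χ : MulChar (ZMod p) Gi),
      orderOf χ = 4 ∧ J = Jg χ := by
    intro p
    by_cases h : p ∈ P4
    · have hp : Fact p.Prime := ⟨h.1⟩
      have h8 : p % 8 = 5 := h.2
      obtain ⟨χ, hχ⟩ := MulChar.exists_mulChar_orderOf (ZMod p) (n := 4)
        (by rw [ZMod.card]; omega) im1_prim
      exact ⟨Jg χ, fun _ => ⟨hp, χ, hχ, rfl⟩⟩
    · exact ⟨0, fun h' => absurd h' h⟩
  choose J hJ using this
  exact ⟨J, hJ⟩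

/-- the target values -/
def T4 : Set ℝ := {t | ∃ m : ℕ, 1 ≤ m ∧ t = Real.pi ^ 2 / 4 * m}

lemma T4_fin (R : ℝ) : (T4 ∩ Set.Iic R).Finite := by
  have hpi := Real.pi_gt_three
  have h0 : (1 : ℝ) ≤ Real.pi ^ 2 / 4 := by nlinarith
  apply Set.Finite.subset ((Set.finite_Iic ⌊R⌋₊).image (fun m : ℕ => Real.pi ^ 2 / 4 * (m : ℝ)))
  rintro t ⟨⟨m, hm, rfl⟩, hR⟩
  refine ⟨m, ?_, rfl⟩
  rw [Set.mem_Iic] at hR ⊢
  apply Nat.le_floor
  have : (0 : ℝ) ≤ m := Nat.cast_nonneg m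
  nlinarith

lemma T4_pos (t : ℝ) (ht : t ∈ T4) : 0 < t := by
  obtain ⟨m, hm, rfl⟩ := ht
  have : (1 : ℝ) ≤ m := by exact_mod_cast hm
  positivity

/-- the exact value -/
lemma target4 (p : ℕ) [hp : Fact p.Prime] (χ : MulChar (ZMod p) Gi) (hχ : orderOf χ = 4)
    (hp8 : p % 8 = 5) (h9 : 9 ≤ p) (hB : B4 p) :
    ‖∑ n ∈ oddTo (p - 1), (χ.ringHomComp gC) (n : ZMod p) * (cw p n : ℂ)‖ ^ 2 ∈ T4 := by
  have hneg := chi_neg_one4 χ hχ hp8
  have hodd : DirichletCharacter.Odd (χ.ringHomComp gC) := by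
    unfold DirichletCharacter.Odd
    rw [MulChar.ringHomComp_apply, hneg, map_neg, map_one]
  rw [← AC.half_sum_norm p (by omega) _ hodd]
  have h1 : ∑ a ∈ Icc 1 ((p - 1) / 2), (χ.ringHomComp gC) (a : ZMod p) = gC (Sg χ) := by
    unfold Sg
    rw [map_sum]
    rfl
  rw [h1, gC_normSq]
  obtain ⟨c, hc⟩ := bern_norm χ hχ hp8 h9 hB
  have h2 := Sg_ne χ hχ hp8
  have hn : 0 ≤ (Sg χ).norm := by rw [gi_norm]; positivity
  have hp0 : (0 : ℤ) < p := by exact_mod_cast hp.out.pos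
  have hc1 : 1 ≤ c := by
    by_contra hcon
    push Not at hcon
    have : c ≤ 0 := by omega
    have h3 : (Sg χ).norm ≤ 0 := by rw [hc]; nlinarith
    exact h2 (le_antisymm h3 hn)
  refine ⟨c.toNat, by omega, ?_⟩
  have hcc : ((c.toNat : ℕ) : ℝ) = (c : ℝ) := by
    have : ((c.toNat : ℕ) : ℤ) = c := Int.toNat_of_nonneg (by omega)
    exact_mod_cast congrArg (fun z : ℤ => (z : ℝ)) this
  rw [hcc, hc]
  have hpr : (p : ℝ) ≠ 0 := by exact_mod_cast hp.out.ne_zero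
  push_cast
  field_simp

/-- the short sum in terms of the symbols -/
lemma short4 (p : ℕ) [hp : Fact p.Prime] (χ : MulChar (ZMod p) Gi) (hχ : orderOf χ = 4)
    (hp8 : p % 8 = 5) (N : ℕ) (hN : N < p) :
    ∑ n ∈ Icc 1 N, cm (fun q => (if q % 4 = 3 then -1 else 1) * psi4 q (Jg χ)) n / n =
      ∑ n ∈ oddTo N, (χ.ringHomComp gC) (n : ZMod p) / n := by
  rw [AC.sum_oddTo]
  apply sum_congr rfl
  intro n hn
  rw [mem_Icc] at hn
  have hneg := chi_neg_one4 χ hχ hp8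
  split_ifs with h2
  · congr 1
    rw [← dh_apply hp.out.one_lt]
    apply cm_eq_hom
    intro q hq
    have hqp := Nat.prime_of_mem_primeFactors hq
    have hqn := Nat.dvd_of_mem_primeFactors hq
    have hle := Nat.le_of_dvd (by omega) hqn
    have hq2 : q ≠ 2 := by
      rintro rfl
      omega
    have := chi_psi4 χ hχ hneg q hqp hq2 (by omega)
    rw [dh_apply, MulChar.ringHomComp_apply, this]
  · rw [cm_zero_of_dvd _ 2 n Nat.prime_two _ (by omega), zero_div]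
    rw [psi4_QD.zero 2 Nat.prime_two (by norm_num), mul_zero]

theorem four_count (ε : ℝ) (hε : 0 < ε) :
    ∀ᶠ x : ℕ in atTop,
      (Nat.card {p : ℕ | p ≤ x ∧ p ∈ P4 ∧ B4 p} : ℝ) ≤ ε * (x / Real.log x) := by
  obtain ⟨J, hJ⟩ := exists_J
  apply generic_count (A := -1) (B := 0) 2 (by norm_num) 2 (by norm_num) psi4 psi4_QD
    (fun q => if q % 4 = 3 then -1 else 1) (fun q => by
      by_cases h : q % 4 = 3
      · right; simp [h]
      · left; simp [h])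
    x4 2 Nat.prime_two x4_prime (x4_even 2 rfl) (2 / 3) (by norm_num) x4_lower x4_split gi_size
    P4 (fun p hp => hp.1) J _ _ T4 T4_pos T4_fin B4 _ ε hε
  · intro p hp
    obtain ⟨_, χ, hχ, hJp⟩ := hJ p hp
    rw [hJp]
    exact Jg_norm χ hχ
  · intro p hp q hq hqQ hqp
    obtain ⟨hF, χ, hχ, hJp⟩ := hJ p hp
    have hneg := chi_neg_one4 χ hχ hp.2
    have hq2 : q ≠ 2 := by
      rintro rfl
      exact hqQ dvd_rfl
    have h1 := chi_psi4 χ hχ hneg q hq hq2 (Ne.symm hqp)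
    rw [hJp]
    intro h0
    rw [h0, mul_zero] at h1
    have h2 : χ (q : ZMod p) = 0 := gC_inj (by rw [h1, map_zero])
    have h3 : (q : ZMod p) ≠ 0 := by
      rw [Ne, ZMod.natCast_eq_zero_iff]
      intro hd
      exact hqp ((Nat.prime_dvd_prime_iff_eq hp.1 hq).mp hd).symm
    have h4 := chi_val4 χ hχ _ h3
    rw [h2] at h4
    norm_num at h4
  · intro η hη
    obtain ⟨x0, hx0⟩ := AC.cot_approx (1 / 50) (by norm_num) (by norm_num)
    filter_upwards [eventually_ge_atTop x0, ev_small η hη, ev_pow,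
      AC.tendsto_log_nat.eventually_ge_atTop 1, eventually_ge_atTop 64] with x hx1 hx2 hx3 hx4 hx5
    obtain ⟨hlog, Exc, hE, happ⟩ := hx0 x hx1
    refine ⟨Exc, hE, ?_⟩
    intro p hp hxp hpx hpE hB
    obtain ⟨hF, χ, hχ, hJp⟩ := hJ p hp
    have hp8 : p % 8 = 5 := hp.2
    have h9 : 9 ≤ p := by nlinarith
    set c : DirichletCharacter ℂ p := χ.ringHomComp gC with hc
    have hneg := chi_neg_one4 χ hχ hp8
    have hodd : DirichletCharacter.Odd c := by
      unfold DirichletCharacter.Odd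
      rw [hc, MulChar.ringHomComp_apply, hneg, map_neg, map_one]
    have hc1 : c ≠ 1 := by
      intro h
      rw [h] at hodd
      unfold DirichletCharacter.Odd at hodd
      rw [MulChar.one_apply (isUnit_one.neg)] at hodd
      norm_num at hodd
    have h1 := happ p hp.1 hpx hxp hpE c hc1 (Nf x) hx3.2.1 hx3.2.2
    refine ⟨_, target4 p χ hχ hp8 h9 hB, ?_⟩
    have hNp : Nf x < p := Nf_lt (by omega) hxp
    rw [hJp, short4 p χ hχ hp8 (Nf x) hNp]
    refine le_trans (diff_sq _ _ (Real.log x) hx4 h1 ?_) hx2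
    refine (norm_short c (Nf x)).trans ?_
    have h3 : Real.log (Nf x) ≤ Real.log x := by
      rcases Nat.eq_zero_or_pos (Nf x) with h0 | h0
      · rw [h0]; simp; linarith
      · apply Real.log_le_log (by exact_mod_cast h0)
        exact_mod_cast (hNp.le.trans hpx)
    linarith

end Pool.Agent.R361.QF
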