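import Mathlib
import Pool.Agent.H916R2.OddChar
import Pool.Agent.R361.QF.Bern4

set_option autoImplicit false

/-! # The half sum of an odd character does not vanish -/

namespace Pool.Agent.R361.QF

open Finset
open Pool.Agent.H916R2 (saw SS saw_zero exists_SS_ne_zero)

section

variable {p : ℕ} [hp : Fact p.Prime] (hp2 : p % 2 = 1) (χ : DirichletCharacter ℂ p) (hχ : χ.Odd)

include hp2 hχ

lemma full_sum_ne : ∑ n ∈ range p, (n : ℂ) * χ (n : ZMod p) ≠ 0 := by
  have hNZ : NeZero p := ⟨hp.out.ne_zero⟩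
  obtain ⟨a, ha⟩ := exists_SS_ne_zero χ hχ
  have ha0 : a ≠ 0 := by
    rintro rfl
    apply ha
    unfold SS
    simp [saw_zero]
  obtain ⟨u, rfl⟩ := isUnit_iff_ne_zero.mpr ha0
  have h1 : SS χ (u : ZMod p) = χ ((u⁻¹ : (ZMod p)ˣ) : ZMod p) *
      ∑ t : (ZMod p)ˣ, χ (t : ZMod p) * (saw (t : ZMod p) : ℂ) := by
    unfold SS
    rw [mul_sum, ← Equiv.sum_comp (Equiv.mulRight u⁻¹)]
    apply sum_congr rfl
    intro t _
    rw [Equiv.coe_mulRight, Units.val_mul, map_mul]
    have : (t : ZMod p) * ((u⁻¹ : (ZMod p)ˣ) : ZMod p) * (u : ZMod p) = t := by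
      rw [mul_assoc, ← Units.val_mul, inv_mul_cancel, Units.val_one, mul_one]
    rw [this]
    ring
  have hχ1 : χ ≠ 1 := by
    intro h
    rw [h] at hχ
    unfold DirichletCharacter.Odd at hχ
    rw [MulChar.one_apply (isUnit_one.neg)] at hχ
    norm_num at hχ
  have h2 : ∑ t : (ZMod p)ˣ, χ (t : ZMod p) * (saw (t : ZMod p) : ℂ) =
      ∑ k : ZMod p, χ k * (saw k : ℂ) := by
    rw [← sum_subset (subset_univ (univ.filter (fun k : ZMod p => k ≠ 0)))]
    · refine sum_bij (fun t _ => (t : ZMod p)) ?_ ?_ ?_ ?_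
      · intro t _; rw [mem_filter]; exact ⟨mem_univ _, t.ne_zero⟩
      · intro t _ t' _ h; exact Units.ext h
      · intro k hk
        rw [mem_filter] at hk
        obtain ⟨t, rfl⟩ := isUnit_iff_ne_zero.mpr hk.2
        exact ⟨t, mem_univ _, rfl⟩
      · intro t _; rfl
    · intro k _ hk
      rw [mem_filter] at hk
      push Not at hk
      rw [hk (mem_univ _), MulChar.map_zero, zero_mul]
  have h3 : ∑ k : ZMod p, χ k * (saw k : ℂ) = 2 * ∑ n ∈ range p, (n : ℂ) * χ (n : ZMod p) := by
    have h4 : ∑ k : ZMod p, χ k * (saw k : ℂ) =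
        ∑ k : ZMod p, (2 * ((k.val : ℂ) * χ k) - p * χ k) := by
      apply sum_congr rfl
      intro k _
      unfold saw
      split_ifs with hk
      · rw [hk, MulChar.map_zero]; simp
      · push_cast; ring
    rw [h4, sum_sub_distrib, ← mul_sum, ← mul_sum, MulChar.sum_eq_zero_of_ne_one hχ1, mul_zero,
      sub_zero, sum_zmod p (fun k => (k.val : ℂ) * χ k)]
    congr 1
    apply sum_congr rfl
    intro n hn
    rw [mem_range] at hn
    rw [ZMod.val_cast_of_lt hn]
  intro h0
  apply ha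
  rw [h1, h2, h3, h0, mul_zero, mul_zero]

lemma chi_refl (n : ℕ) (hn : n ≤ p) : χ ((p - n : ℕ) : ZMod p) = -χ (n : ZMod p) := by
  rw [Nat.cast_sub hn, ZMod.natCast_self, zero_sub, ← neg_one_mul, map_mul, hχ]
  ring

/-- the half sum does not vanish -/
theorem half_ne : ∑ a ∈ Icc 1 ((p - 1) / 2), χ (a : ZMod p) ≠ 0 := by
  intro hS
  set h := (p - 1) / 2 with hh
  have hp1 : p = 2 * h + 1 := by
    have := hp.out.two_le
    omega
  set A' : ℂ := ∑ a ∈ Icc 1 h, (a : ℂ) * χ (a : ZMod p) with hA'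
  have hfull := full_sum_ne hp2 χ hχ
  set A : ℂ := ∑ n ∈ range p, (n : ℂ) * χ (n : ZMod p) with hA
  -- reflection
  have e1 : A = 2 * A' := by
    have h1 : range p = insert 0 (Icc 1 h ∪ Icc (h + 1) (p - 1)) := by
      ext n
      simp only [mem_insert, mem_union, mem_Icc, mem_range]
      omega
    have h2 : Disjoint (Icc 1 h) (Icc (h + 1) (p - 1)) := by
      rw [disjoint_left]
      intro n hn hn'
      rw [mem_Icc] at hn hn'
      omega
    rw [hA, h1, sum_insert (by simp), Nat.cast_zero, zero_mul, zero_add, sum_union h2]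
    have h3 : ∑ n ∈ Icc (h + 1) (p - 1), (n : ℂ) * χ (n : ZMod p) =
        ∑ n ∈ Icc 1 h, (((n : ℂ) * χ (n : ZMod p)) - p * χ (n : ZMod p)) := by
      apply sum_nbij' (fun n => p - n) (fun n => p - n)
      · intro n hn; rw [mem_Icc] at hn ⊢; omega
      · intro n hn; rw [mem_Icc] at hn ⊢; omega
      · intro n hn; rw [mem_Icc] at hn; omega
      · intro n hn; rw [mem_Icc] at hn; omega
      · intro n hn
        rw [mem_Icc] at hn
        rw [chi_refl hp2 χ hχ n (by omega), Nat.cast_sub (by omega : n ≤ p)]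
        ring
    rw [h3, sum_sub_distrib, ← mul_sum, hS, mul_zero, sub_zero]
    ring
  -- parity
  have e2 : A = χ ((2 : ℕ) : ZMod p) * (4 * A') := by
    have h1 : range p = insert 0 ((Icc 1 h).image (fun b => 2 * b) ∪
        (Icc 1 h).image (fun b => p - 2 * b)) := by
      ext n
      simp only [mem_insert, mem_union, mem_image, mem_Icc, mem_range]
      constructor
      · intro hn
        rcases Nat.even_or_odd' n with ⟨k, hk | hk⟩
        · rcases Nat.eq_zero_or_pos k with rfl | hk0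
          · left; omega
          · right; left; exact ⟨k, by omega, by omega⟩
        · right; right; exact ⟨h - k, by omega, by omega⟩
      · rintro (h | ⟨b, hb, rfl⟩ | ⟨b, hb, rfl⟩) <;> omega
    have h2 : Disjoint ((Icc 1 h).image (fun b => 2 * b)) ((Icc 1 h).image (fun b => p - 2 * b)) := by
      rw [disjoint_left]
      intro n hn hn'
      rw [mem_image] at hn hn'
      obtain ⟨b, hb, rfl⟩ := hn
      obtain ⟨c, hc, hc'⟩ := hn'
      rw [mem_Icc] at hb hc
      omega
    have h0 : 0 ∉ ((Icc 1 h).image (fun b => 2 * b) ∪ (Icc 1 h).image (fun b => p - 2 * b)) := by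
      simp only [mem_union, mem_image, mem_Icc, not_or, not_exists, not_and]
      constructor
      · intro b hb; omega
      · intro b hb; omega
    rw [hA, h1, sum_insert h0, Nat.cast_zero, zero_mul, zero_add, sum_union h2,
      sum_image (by intro a _ b _ hab; simp only at hab; omega),
      sum_image (by
        intro a ha b hb hab
        rw [mem_coe, mem_Icc] at ha hb
        simp only at hab
        omega)]
    have h3 : ∀ b ∈ Icc 1 h, ((p - 2 * b : ℕ) : ℂ) * χ ((p - 2 * b : ℕ) : ZMod p) =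
        χ ((2 : ℕ) : ZMod p) * (2 * ((b : ℂ) * χ (b : ZMod p)) - p * χ (b : ZMod p)) := by
      intro b hb
      rw [mem_Icc] at hb
      rw [chi_refl hp2 χ hχ (2 * b) (by omega), Nat.cast_sub (by omega : 2 * b ≤ p),
        Nat.cast_mul, Nat.cast_mul, map_mul]
      push_cast
      ring
    have h4 : ∀ b ∈ Icc 1 h, ((2 * b : ℕ) : ℂ) * χ ((2 * b : ℕ) : ZMod p) =
        χ ((2 : ℕ) : ZMod p) * (2 * ((b : ℂ) * χ (b : ZMod p))) := by
      intro b hb
      rw [Nat.cast_mul, Nat.cast_mul, map_mul]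
      push_cast
      ring
    rw [sum_congr rfl h3, sum_congr rfl h4]
    simp only [← mul_sum, sum_sub_distrib]
    rw [hS]
    ring
  have e3 : A = 2 * χ ((2 : ℕ) : ZMod p) * A := by
    nth_rewrite 1 [e2]
    rw [e1]
    ring
  have e4 : (1 - 2 * χ ((2 : ℕ) : ZMod p)) * A = 0 := by linear_combination e3
  rcases mul_eq_zero.mp e4 with h5 | h5
  · have h6 : ‖(2 : ℂ) * χ ((2 : ℕ) : ZMod p)‖ = 1 := by
      have : (2 : ℂ) * χ ((2 : ℕ) : ZMod p) = 1 := by linear_combination -h5
      rw [this, norm_one]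
    have h7 : ((2 : ℕ) : ZMod p) ≠ 0 := by
      rw [Ne, ZMod.natCast_eq_zero_iff]
      intro hd
      have := Nat.le_of_dvd (by norm_num) hd
      have := hp.out.two_le
      omega
    obtain ⟨u, hu⟩ := isUnit_iff_ne_zero.mpr h7
    rw [norm_mul, ← hu, DirichletCharacter.unit_norm_eq_one] at h6
    norm_num at h6
  · exact hfull h5

end

end Pool.Agent.R361.QF
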